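import Mathlib

/-!
# Job KS-11: random subsets

`S` is a random subset of the finite set `U`, every element is kept with probability `p`,
independently.  `Bx p U f` is the mean value of `f S`, `Bp p U F` the probability of `F S`.

Fill the sorries.
* `Bx_insert`: `Finset.sum_powerset_insert`; for `S ⊆ U`: `(insert a U).card - S.card = U.card - S.card + 1`
  and `(insert a U).card - (insert a S).card = U.card - S.card`.
* `Bx_one`: induction on `U` with `Bx_insert`.
* `Bp_eq_Bx`, `Bp_nonneg`, `Bp_mono`, `Bp_exists`, `Bp_or`, `Bp_not`: from the definition (`wt ≥ 0`, and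
  `Bx_one` for `Bp_not`).
* `Bx_mul`: for disjoint `W1`, `W2` with union `U`: the mean value of `f (S ∩ W1) * g (S ∩ W2)` is the
  product.  Induction on `W2`: for `W2 = ∅` clear; `U = insert a (W1 ∪ W2')`: `Bx_insert`, and
  `(insert a S) ∩ W1 = S ∩ W1`, `(insert a S) ∩ insert a W2' = insert a (S ∩ W2')` (`S ⊆ W1 ∪ W2'`), then
  the induction hypothesis for `g` and for `T ↦ g (insert a T)`, and `Bx_insert` for `insert a W2'`.
* `Bp_restrict`: `Bx_mul` with `W1 = W`, `W2 = U \ W`, `g = 1`.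
* `Bp_prod`: induction on `s` with `Bx_mul` / `Bp_restrict` (the events with index in `s` depend on
  `S ∩ s.biUnion W`).
* `Bx_pow`: induction on `W` with `Bx_insert`.
-/

namespace Pool.Agent.H70.KS

open Finset Classical

/-- The weight of the subset `S` of `U`. -/
noncomputable def wt {X : Type} (p : ℝ) (U S : Finset X) : ℝ :=
  p ^ S.card * (1 - p) ^ (U.card - S.card)

/-- The mean value of `f`. -/
noncomputable def Bx {X : Type} (p : ℝ) (U : Finset X) (f : Finset X → ℝ) : ℝ :=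
  ∑ S ∈ U.powerset, wt p U S * f S

/-- The probability of `F`. -/
noncomputable def Bp {X : Type} (p : ℝ) (U : Finset X) (F : Finset X → Prop) : ℝ :=
  ∑ S ∈ U.powerset.filter F, wt p U S

variable {X : Type} {p : ℝ}

theorem wt_nonneg (h0 : 0 ≤ p) (h1 : p ≤ 1) (U S : Finset X) : 0 ≤ wt p U S :=
  mul_nonneg (pow_nonneg h0 _) (pow_nonneg (sub_nonneg.2 h1) _)

theorem Bx_congr {U : Finset X} {f g : Finset X → ℝ} (h : ∀ S, S ⊆ U → f S = g S) :
    Bx p U f = Bx p U g := by
  unfold Bx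
  exact Finset.sum_congr rfl fun S hS => by rw [h S (Finset.mem_powerset.1 hS)]

theorem Bx_insert {a : X} {U : Finset X} (ha : a ∉ U) (f : Finset X → ℝ) :
    Bx p (insert a U) f = (1 - p) * Bx p U f + p * Bx p U (fun S => f (insert a S)) := by
  unfold Bx
  rw [Finset.sum_powerset_insert ha, Finset.mul_sum, Finset.mul_sum]
  congr 1
  · refine Finset.sum_congr rfl fun S hS => ?_
    have hS' := Finset.mem_powerset.1 hS
    have h1 := Finset.card_le_card hS'
    unfold wt
    rw [Finset.card_insert_of_notMem ha, Nat.succ_sub h1, pow_succ]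
    ring
  · refine Finset.sum_congr rfl fun S hS => ?_
    have hS' := Finset.mem_powerset.1 hS
    unfold wt
    rw [Finset.card_insert_of_notMem ha, Finset.card_insert_of_notMem fun h => ha (hS' h),
      Nat.succ_sub_succ, pow_succ]
    ring

theorem Bx_empty (f : Finset X → ℝ) : Bx p ∅ f = f ∅ := by
  simp [Bx, wt]

theorem Bx_one (U : Finset X) : Bx p U (fun _ => 1) = 1 := by
  induction U using Finset.induction_on with
  | empty => exact Bx_empty _
  | insert a U ha ih =>
    rw [Bx_insert ha, ih]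
    ring

theorem Bp_eq_Bx (U : Finset X) (F : Finset X → Prop) :
    Bp p U F = Bx p U (fun S => if F S then 1 else 0) := by
  unfold Bp Bx
  rw [Finset.sum_filter]
  refine Finset.sum_congr rfl fun S _ => ?_
  by_cases h : F S
  · simp [h]
  · simp [h]

theorem Bp_nonneg (h0 : 0 ≤ p) (h1 : p ≤ 1) (U : Finset X) (F : Finset X → Prop) :
    0 ≤ Bp p U F :=
  Finset.sum_nonneg fun S _ => wt_nonneg h0 h1 U S

theorem Bp_mono (h0 : 0 ≤ p) (h1 : p ≤ 1) {U : Finset X} {F G : Finset X → Prop}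
    (h : ∀ S, S ⊆ U → F S → G S) : Bp p U F ≤ Bp p U G := by
  unfold Bp
  refine Finset.sum_le_sum_of_subset_of_nonneg ?_ fun S _ _ => wt_nonneg h0 h1 U S
  intro S hS
  obtain ⟨h2, h3⟩ := Finset.mem_filter.1 hS
  exact Finset.mem_filter.2 ⟨h2, h S (Finset.mem_powerset.1 h2) h3⟩

theorem Bp_congr {U : Finset X} {F G : Finset X → Prop} (h : ∀ S, S ⊆ U → (F S ↔ G S)) :
    Bp p U F = Bp p U G := by
  rw [Bp_eq_Bx, Bp_eq_Bx]
  refine Bx_congr fun S hS => ?_
  by_cases h1 : F S
  · rw [if_pos h1, if_pos ((h S hS).1 h1)]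
  · rw [if_neg h1, if_neg fun h2 => h1 ((h S hS).2 h2)]

theorem Bx_mono (h0 : 0 ≤ p) (h1 : p ≤ 1) {U : Finset X} {f g : Finset X → ℝ}
    (h : ∀ S, S ⊆ U → f S ≤ g S) : Bx p U f ≤ Bx p U g := by
  unfold Bx
  exact Finset.sum_le_sum fun S hS =>
    mul_le_mul_of_nonneg_left (h S (Finset.mem_powerset.1 hS)) (wt_nonneg h0 h1 U S)

theorem Bx_add (U : Finset X) (f g : Finset X → ℝ) :
    Bx p U (fun S => f S + g S) = Bx p U f + Bx p U g := by
  unfold Bx
  rw [← Finset.sum_add_distrib]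
  exact Finset.sum_congr rfl fun S _ => mul_add _ _ _

theorem Bp_or' (h0 : 0 ≤ p) (h1 : p ≤ 1) (U : Finset X) (F G : Finset X → Prop) :
    Bp p U (fun S => F S ∨ G S) ≤ Bp p U F + Bp p U G := by
  rw [Bp_eq_Bx, Bp_eq_Bx, Bp_eq_Bx, ← Bx_add]
  refine Bx_mono h0 h1 fun S _ => ?_
  by_cases h2 : F S
  · by_cases h3 : G S
    · simp [h2, h3]
    · simp [h2, h3]
  · by_cases h3 : G S
    · simp [h2, h3]
    · simp [h2, h3]

theorem Bp_exists (h0 : 0 ≤ p) (h1 : p ≤ 1) (U : Finset X) {ι : Type} (s : Finset ι)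
    (F : ι → Finset X → Prop) :
    Bp p U (fun S => ∃ i ∈ s, F i S) ≤ ∑ i ∈ s, Bp p U (F i) := by
  induction s using Finset.induction_on with
  | empty => simp [Bp]
  | insert a s ha ih =>
    rw [Finset.sum_insert ha]
    have h2 : Bp p U (fun S => ∃ i ∈ insert a s, F i S) =
        Bp p U (fun S => F a S ∨ ∃ i ∈ s, F i S) :=
      Bp_congr fun S _ => by simp
    rw [h2]
    refine (Bp_or' h0 h1 U _ _).trans ?_
    linarith

theorem Bp_or (h0 : 0 ≤ p) (h1 : p ≤ 1) (U : Finset X) (F G : Finset X → Prop) :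
    Bp p U (fun S => F S ∨ G S) ≤ Bp p U F + Bp p U G :=
  Bp_or' h0 h1 U F G

theorem Bp_not (U : Finset X) (F : Finset X → Prop) :
    Bp p U (fun S => ¬ F S) = 1 - Bp p U F := by
  have h : Bx p U (fun _ => 1) = Bp p U F + Bp p U (fun S => ¬ F S) := by
    rw [Bp_eq_Bx, Bp_eq_Bx, ← Bx_add]
    refine Bx_congr fun S _ => ?_
    by_cases h2 : F S
    · simp [h2]
    · simp [h2]
  rw [Bx_one] at h
  linarith

theorem Bx_mul {W1 W2 : Finset X} (h : Disjoint W1 W2) (f g : Finset X → ℝ) :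
    Bx p (W1 ∪ W2) (fun S => f (S ∩ W1) * g (S ∩ W2)) = Bx p W1 f * Bx p W2 g := by
  induction W2 using Finset.induction_on generalizing g with
  | empty =>
    rw [Bx_empty, Finset.union_empty]
    have h1 : Bx p W1 (fun S => f (S ∩ W1) * g (S ∩ ∅)) = Bx p W1 (fun S => f S * g ∅) :=
      Bx_congr fun S hS => by rw [Finset.inter_eq_left.2 hS, Finset.inter_empty]
    rw [h1]
    unfold Bx
    rw [Finset.sum_mul]
    exact Finset.sum_congr rfl fun S _ => (mul_assoc _ _ _).symm
  | insert a W2 ha ih =>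
    rw [Finset.disjoint_insert_right] at h
    obtain ⟨haW1, hd⟩ := h
    have haU : a ∉ W1 ∪ W2 := by
      rw [Finset.mem_union]
      rintro (h1 | h1)
      · exact haW1 h1
      · exact ha h1
    rw [Finset.union_insert, Bx_insert haU, Bx_insert ha]
    have h1 : Bx p (W1 ∪ W2) (fun S => f (S ∩ W1) * g (S ∩ insert a W2)) =
        Bx p (W1 ∪ W2) (fun S => f (S ∩ W1) * g (S ∩ W2)) := by
      refine Bx_congr fun S hS => ?_
      rw [Finset.inter_insert_of_notMem fun h2 => haU (hS h2)]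
    have h2 : Bx p (W1 ∪ W2) (fun S => f (insert a S ∩ W1) * g (insert a S ∩ insert a W2)) =
        Bx p (W1 ∪ W2) (fun S => f (S ∩ W1) * (fun T => g (insert a T)) (S ∩ W2)) := by
      refine Bx_congr fun S hS => ?_
      rw [Finset.insert_inter_of_notMem haW1, ← Finset.insert_inter_distrib]
    rw [h1, h2, ih hd, ih hd (fun T => g (insert a T))]
    ring

theorem Bp_restrict {U W : Finset X} (h : W ⊆ U) (F : Finset X → Prop) :
    Bp p U (fun S => F (S ∩ W)) = Bp p W F := by
  have h1 := Bx_mul (p := p) (Finset.disjoint_sdiff (s := W) (t := U))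
    (fun S => if F S then 1 else 0) (fun _ => 1)
  rw [Finset.union_sdiff_of_subset h, Bx_one, mul_one] at h1
  rw [Bp_eq_Bx, Bp_eq_Bx, ← h1]
  exact Bx_congr fun S _ => (mul_one _).symm

theorem Bp_and {U W1 W2 : Finset X} (h1 : W1 ⊆ U) (h2 : W2 ⊆ U) (hd : Disjoint W1 W2)
    (F G : Finset X → Prop) :
    Bp p U (fun S => F (S ∩ W1) ∧ G (S ∩ W2)) = Bp p W1 F * Bp p W2 G := by
  have h3 : Bp p U (fun S => F (S ∩ W1) ∧ G (S ∩ W2)) =
      Bp p U (fun S => (fun T => F (T ∩ W1) ∧ G (T ∩ W2)) (S ∩ (W1 ∪ W2))) := by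
    refine Bp_congr fun S _ => ?_
    show F (S ∩ W1) ∧ G (S ∩ W2) ↔
      F (S ∩ (W1 ∪ W2) ∩ W1) ∧ G (S ∩ (W1 ∪ W2) ∩ W2)
    rw [Finset.inter_assoc, Finset.inter_assoc, Finset.inter_eq_right.2 Finset.subset_union_left,
      Finset.inter_eq_right.2 Finset.subset_union_right]
  rw [h3, Bp_restrict (Finset.union_subset h1 h2) (fun T => F (T ∩ W1) ∧ G (T ∩ W2)), Bp_eq_Bx,
    Bp_eq_Bx, Bp_eq_Bx, ← Bx_mul hd]
  refine Bx_congr fun S _ => ?_
  by_cases h4 : F (S ∩ W1)
  · by_cases h5 : G (S ∩ W2)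
    · simp [h4, h5]
    · simp [h4, h5]
  · simp [h4]

theorem Bp_prod {U : Finset X} {ι : Type} (s : Finset ι) (W : ι → Finset X)
    (F : ι → Finset X → Prop) (hW : ∀ i ∈ s, W i ⊆ U)
    (hd : ∀ i ∈ s, ∀ j ∈ s, i ≠ j → Disjoint (W i) (W j)) :
    Bp p U (fun S => ∀ i ∈ s, F i (S ∩ W i)) = ∏ i ∈ s, Bp p (W i) (F i) := by
  induction s using Finset.induction_on with
  | empty =>
    rw [Finset.prod_empty, Bp_eq_Bx]
    refine Eq.trans (Bx_congr fun S _ => ?_) (Bx_one U)
    simp
  | insert a s ha ih =>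
    rw [Finset.prod_insert ha]
    have ih' := ih (fun i hi => hW i (Finset.mem_insert_of_mem hi))
      (fun i hi j hj => hd i (Finset.mem_insert_of_mem hi) j (Finset.mem_insert_of_mem hj))
    have hR : s.biUnion W ⊆ U := Finset.biUnion_subset.2 fun i hi =>
      hW i (Finset.mem_insert_of_mem hi)
    have hdis : Disjoint (W a) (s.biUnion W) := by
      rw [Finset.disjoint_biUnion_right]
      intro i hi
      exact hd a (Finset.mem_insert_self _ _) i (Finset.mem_insert_of_mem hi)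
        fun h => ha (h ▸ hi)
    have hH : ∀ S : Finset X, (∀ i ∈ s, F i (S ∩ W i)) ↔
        ∀ i ∈ s, F i (S ∩ s.biUnion W ∩ W i) := by
      intro S
      refine forall_congr' fun i => forall_congr' fun hi => ?_
      rw [Finset.inter_assoc, Finset.inter_eq_right.2 (Finset.subset_biUnion_of_mem W hi)]
    have h1 : Bp p U (fun S => ∀ i ∈ insert a s, F i (S ∩ W i)) =
        Bp p U (fun S => F a (S ∩ W a) ∧
          (fun T => ∀ i ∈ s, F i (T ∩ W i)) (S ∩ s.biUnion W)) := by
      refine Bp_congr fun S _ => ?_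
      rw [Finset.forall_mem_insert]
      exact and_congr_right fun _ => hH S
    have h2 : Bp p U (fun S => ∀ i ∈ s, F i (S ∩ W i)) =
        Bp p (s.biUnion W) (fun T => ∀ i ∈ s, F i (T ∩ W i)) := by
      rw [← Bp_restrict hR]
      exact Bp_congr fun S _ => hH S
    rw [h1, Bp_and (hW a (Finset.mem_insert_self _ _)) hR hdis (F a)
      (fun T => ∀ i ∈ s, F i (T ∩ W i)), ← h2, ih']

theorem Bx_pow (W : Finset X) (z : ℝ) :
    Bx p W (fun S => z ^ S.card) = (1 - p + p * z) ^ W.card := by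
  induction W using Finset.induction_on with
  | empty => simp [Bx_empty]
  | insert a W ha ih =>
    rw [Bx_insert ha, Finset.card_insert_of_notMem ha, pow_succ, ih]
    have h1 : Bx p W (fun S => z ^ (insert a S).card) = z * Bx p W (fun S => z ^ S.card) := by
      unfold Bx
      rw [Finset.mul_sum]
      refine Finset.sum_congr rfl fun S hS => ?_
      have h2 : a ∉ S := fun h => ha (Finset.mem_powerset.1 hS h)
      show wt p W S * z ^ (insert a S).card = z * (wt p W S * z ^ S.card)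
      rw [Finset.card_insert_of_notMem h2, pow_succ]
      ring
    rw [h1, ih]
    ring

end Pool.Agent.H70.KS
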