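import Pool.Agent.H70.KS.BS

/-!
# Job KS-12: tails of the number of elements of a random subset

Fill the sorries.
* `low_tail`: Markov: on the event `exp (t * (a - S.card)) ≥ 1`, so
  `Bp ≤ exp (t a) * Bx (fun S => (exp (-t)) ^ S.card) = exp (t a) * (1 - p + p exp (-t)) ^ W.card`
  (`Bp_eq_Bx`, `Bx_pow`, monotonicity of the sum with `wt_nonneg`) and `1 - y ≤ exp (-y)` with
  `y = p (1 - exp (-t))`.
* `up_tail`: the same with `exp (t * (S.card - a)) ≥ 1` and `1 + y ≤ exp y`, `y = p (exp t - 1)`.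
* `q1_bound`: `low_tail` with `t = θ`, `1 - exp (-θ) ≥ θ - θ ^ 2 / 2` (and `1 - exp (-θ) ≤ 1`), `p ≤ 1`,
  `exp 1 ≤ 3`: the exponent is at most
  `θ (1 - θ) c m - p (c l - 1) (1 - exp (-θ)) ≤ c m (θ (1 - θ) - (θ - θ ^ 2 / 2)) + 1 = 1 - c m θ ^ 2 / 2`,
  where `c = 1 - lam`, `m = p l`.
* `q2_bound`: `up_tail` with `t = θ / 2`, `exp t - 1 ≤ t + t ^ 2` for `0 ≤ t ≤ 1`: the exponent is at most
  `- t (c (1 + θ) m - 1) + c m (t + t ^ 2) = t - c m (t θ - t ^ 2) ≤ 1 - c m θ ^ 2 / 4`, where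
  `c = 1 - eta`, `m = p l`.
-/

namespace Pool.Agent.H70.KS

open Finset Classical

variable {X : Type} {p : ℝ}

theorem bt_mono (h0 : 0 ≤ p) (h1 : p ≤ 1) (W : Finset X) {f g : Finset X → ℝ}
    (h : ∀ S, f S ≤ g S) : Bx p W f ≤ Bx p W g :=
  Finset.sum_le_sum fun S _ => mul_le_mul_of_nonneg_left (h S) (wt_nonneg h0 h1 W S)

theorem bt_const (W : Finset X) (c : ℝ) (f : Finset X → ℝ) :
    Bx p W (fun S => c * f S) = c * Bx p W f := by
  unfold Bx
  rw [Finset.mul_sum]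
  exact Finset.sum_congr rfl fun S _ => by ring

/-- the exponential moment bound -/
theorem bt_gen (h0 : 0 ≤ p) (h1 : p ≤ 1) (W : Finset X) (F : Finset X → Prop) {c z : ℝ}
    (hc : 0 ≤ c) (hz : 0 ≤ z) (h : ∀ S, F S → 1 ≤ c * z ^ S.card) :
    Bp p W F ≤ c * Real.exp (p * (z - 1)) ^ W.card := by
  rw [Bp_eq_Bx]
  have h2 : Bx p W (fun S => if F S then 1 else 0) ≤ Bx p W (fun S => c * z ^ S.card) := by
    refine bt_mono h0 h1 W fun S => ?_
    split_ifs with hS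
    · exact h S hS
    · positivity
  refine h2.trans ?_
  rw [bt_const, Bx_pow]
  refine mul_le_mul_of_nonneg_left ?_ hc
  refine pow_le_pow_left₀ ?_ ?_ _
  · have : 0 ≤ p * z := mul_nonneg h0 hz
    linarith
  · have := Real.add_one_le_exp (p * (z - 1))
    linarith

theorem low_tail (h0 : 0 ≤ p) (h1 : p ≤ 1) (W : Finset X) (a : ℝ) {t : ℝ} (ht : 0 ≤ t) :
    Bp p W (fun S => (S.card : ℝ) ≤ a) ≤
      Real.exp (t * a - p * W.card * (1 - Real.exp (-t))) := by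
  have h := bt_gen h0 h1 W (fun S => (S.card : ℝ) ≤ a) (c := Real.exp (t * a))
    (z := Real.exp (-t)) (Real.exp_pos _).le (Real.exp_pos _).le (fun S hS => by
      rw [← Real.exp_nat_mul, ← Real.exp_add, Real.one_le_exp_iff]
      nlinarith)
  refine h.trans (le_of_eq ?_)
  rw [← Real.exp_nat_mul, ← Real.exp_add]
  congr 1
  ring

theorem up_tail (h0 : 0 ≤ p) (h1 : p ≤ 1) (W : Finset X) (a : ℝ) {t : ℝ} (ht : 0 ≤ t) :
    Bp p W (fun S => a ≤ (S.card : ℝ)) ≤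
      Real.exp (-t * a + p * W.card * (Real.exp t - 1)) := by
  have h := bt_gen h0 h1 W (fun S => a ≤ (S.card : ℝ)) (c := Real.exp (-t * a))
    (z := Real.exp t) (Real.exp_pos _).le (Real.exp_pos _).le (fun S hS => by
      rw [← Real.exp_nat_mul, ← Real.exp_add, Real.one_le_exp_iff]
      nlinarith)
  refine h.trans (le_of_eq ?_)
  rw [← Real.exp_nat_mul, ← Real.exp_add]
  congr 1
  ring

theorem bt_exp1 (x : ℝ) : Real.exp (1 - x) ≤ 3 * Real.exp (-x) := by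
  have h : Real.exp (1 - x) = Real.exp 1 * Real.exp (-x) := by
    rw [← Real.exp_add]
    congr 1
  rw [h]
  have h2 := Real.exp_one_lt_d9
  exact mul_le_mul_of_nonneg_right (by linarith) (Real.exp_pos _).le

theorem bt_neg {θ : ℝ} (h : 0 ≤ θ) : θ - θ ^ 2 / 2 ≤ 1 - Real.exp (-θ) := by
  have h1 := Real.quadratic_le_exp_of_nonneg h
  have h2 : Real.exp (-θ) * Real.exp θ = 1 := by
    rw [← Real.exp_add]
    simp
  have h3 : 0 < Real.exp (-θ) := Real.exp_pos _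
  have h4 : Real.exp (-θ) * (1 + θ + θ ^ 2 / 2) ≤ 1 :=
    (mul_le_mul_of_nonneg_left h1 h3.le).trans (le_of_eq h2)
  have h5 : 0 < 1 + θ + θ ^ 2 / 2 := by positivity
  have h6 : Real.exp (-θ) * (1 + θ + θ ^ 2 / 2) ≤ (1 - θ + θ ^ 2 / 2) * (1 + θ + θ ^ 2 / 2) := by
    refine h4.trans ?_
    nlinarith [sq_nonneg (θ ^ 2)]
  have h7 := le_of_mul_le_mul_right h6 h5
  linarith

theorem bt_pos {t : ℝ} (h : 0 ≤ t) (h1 : t ≤ 1) : Real.exp t - 1 ≤ t + t ^ 2 := by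
  have h2 := Real.abs_exp_sub_one_sub_id_le (x := t) (by rw [abs_of_nonneg h]; exact h1)
  have h3 := le_abs_self (Real.exp t - 1 - t)
  linarith

theorem q1_bound (h0 : 0 ≤ p) (h1 : p ≤ 1) {lam θ : ℝ} (hlam0 : 0 ≤ lam) (hlam : lam < 1)
    (hθ0 : 0 < θ) (hθ1 : θ < 1) {l : ℕ} {W : Finset X} (hW : (1 - lam) * l - 1 ≤ (W.card : ℝ)) :
    Bp p W (fun S => (S.card : ℝ) < (1 - θ) * (1 - lam) * (p * l)) ≤
      3 * Real.exp (-((1 - lam) * θ ^ 2 * (p * l) / 2)) := by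
  have m1 : Bp p W (fun S => (S.card : ℝ) < (1 - θ) * (1 - lam) * (p * l)) ≤
      Bp p W (fun S => (S.card : ℝ) ≤ (1 - θ) * (1 - lam) * (p * l)) :=
    Bp_mono h0 h1 fun S _ h => h.le
  refine m1.trans ((low_tail h0 h1 W _ hθ0.le).trans ?_)
  refine le_trans (Real.exp_le_exp.2 ?_) (bt_exp1 _)
  have e1 := bt_neg hθ0.le
  have e2 : Real.exp (-θ) ≤ 1 := Real.exp_le_one_iff.2 (by linarith)
  have e3 : 0 < Real.exp (-θ) := Real.exp_pos _
  set E := 1 - Real.exp (-θ) with hE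
  have hE0 : 0 ≤ E := by linarith
  have hE1 : E ≤ 1 := by linarith
  have hl : (0 : ℝ) ≤ l := Nat.cast_nonneg l
  have hc : 0 ≤ (1 - lam) * (p * l) := by
    have : 0 ≤ 1 - lam := by linarith
    positivity
  have a1 : p * ((1 - lam) * l - 1) ≤ p * W.card := mul_le_mul_of_nonneg_left hW h0
  have a2 : p * ((1 - lam) * l - 1) * E ≤ p * W.card * E := mul_le_mul_of_nonneg_right a1 hE0
  have a3 : p * E ≤ 1 := by
    calc p * E ≤ 1 * 1 := mul_le_mul h1 hE1 hE0 zero_le_one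
      _ = 1 := one_mul 1
  have a4 : (1 - lam) * (p * l) * (θ - θ ^ 2 / 2) ≤ (1 - lam) * (p * l) * E :=
    mul_le_mul_of_nonneg_left e1 hc
  nlinarith

theorem q2_bound (h0 : 0 ≤ p) (h1 : p ≤ 1) {eta θ : ℝ} (heta0 : 0 ≤ eta) (heta : eta < 1)
    (hθ0 : 0 < θ) (hθ1 : θ < 1) {l : ℕ} {W : Finset X} (hW : (W.card : ℝ) ≤ (1 - eta) * l) :
    Bp p W (fun S => (1 - eta) * (1 + θ) * (p * l) - 1 < (S.card : ℝ)) ≤
      3 * Real.exp (-((1 - eta) * θ ^ 2 * (p * l) / 4)) := by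
  have m1 : Bp p W (fun S => (1 - eta) * (1 + θ) * (p * l) - 1 < (S.card : ℝ)) ≤
      Bp p W (fun S => (1 - eta) * (1 + θ) * (p * l) - 1 ≤ (S.card : ℝ)) :=
    Bp_mono h0 h1 fun S _ h => h.le
  refine m1.trans ((up_tail h0 h1 W _ (t := θ / 2) (by positivity)).trans ?_)
  refine le_trans (Real.exp_le_exp.2 ?_) (bt_exp1 _)
  have e1 := bt_pos (t := θ / 2) (by positivity) (by linarith)
  have e2 : 1 ≤ Real.exp (θ / 2) := Real.one_le_exp (by positivity)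
  set E := Real.exp (θ / 2) - 1 with hE
  have hE0 : 0 ≤ E := by linarith
  have hl : (0 : ℝ) ≤ l := Nat.cast_nonneg l
  have hc : 0 ≤ (1 - eta) * (p * l) := by
    have : 0 ≤ 1 - eta := by linarith
    positivity
  have a1 : p * W.card ≤ p * ((1 - eta) * l) := mul_le_mul_of_nonneg_left hW h0
  have a2 : p * W.card * E ≤ p * ((1 - eta) * l) * E := mul_le_mul_of_nonneg_right a1 hE0
  have a4 : (1 - eta) * (p * l) * E ≤ (1 - eta) * (p * l) * (θ / 2 + (θ / 2) ^ 2) :=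
    mul_le_mul_of_nonneg_left e1 hc
  nlinarith

end Pool.Agent.H70.KS
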