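import Pool.Agent.H70.KS.Defs
import Pool.Agent.H23.RS.LLL

/-!
# Job KS-2: colour degrees at most `l / 32` (local lemma)

Fill the sorry in `PK_base`.  Take `l0 = 1`.  So let `l ≥ 1`, every list has at least `l` colours and
every colour degree is at most `l / 32`.

For every edge `e ∈ E` choose an injective map `g e : Fin l → C` with values in `L e` (for `e ∉ E`
take any map, e.g. constant; `C` is nonempty).  A random colouring is `x : A × B → Fin l` (uniform),
the colour of `e` is `g e (x e)`.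
Events: index set `J = (A × B) × (A × B) × C`, for `j = (e, e', c)` let `ok j` be the condition
`e ∈ E`, `e' ∈ E`, `e ≠ e'`, `∃ v, Inc v e ∧ Inc v e'`, `c ∈ image (g e)`, `c ∈ image (g e')`, and
`A j x := ok j ∧ g e (x e) = c ∧ g e' (x e') = c`, `S j := if ok j then {e, e'} else ∅`.
* `DepOn (S j) (A j)`: clear.
* `Pr (A j) ≤ 1 / l ^ 2`: `Pr_coord` (or `Pr_indep_prod`) with the two coordinates `e ≠ e'`; as `g e`
  is injective, exactly one value of `x e` gives the colour `c`.
* For every edge `e` at most `4 * l * (2 * (l / 32))` indices `i` satisfy `ok i` and contain `e` (as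
  first or second edge): `e` is the first or the second edge (factor `2`); the colour `c` is one of
  the `l` values of `g e`; the other edge `f` has a common end `v` with `e` (two choices) and
  `c ∈ L f`, so at most `deg E L v c ≤ l / 32` choices.  This gives `2 * l * 2 * (l / 32) = l² / 8`.
  So at most `l² / 4` indices `i` satisfy `¬ Disjoint (S j) (S i)`; with `N = ⌊l² / 4⌋` the condition
  `4 * (1 / l²) * N ≤ 1` of `lll` holds.
* `hp2 : p < 1 / 2` needs `l ≥ 2`; so take `l0 = 2` instead of `l0 = 1`.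
`lll` gives `x` without bad event: `f e := g e (x e)` is the colouring.
-/

namespace Pool.Agent.H70.KS

open Finset Classical Pool.Agent.H23.RS

section baseX

variable {A B C : Type}

/-- the edges `e`, `e'` can both get the colour `c` and must not -/
def bxOk (E : Finset (A × B)) {l : ℕ} (g : A × B → Fin l → C)
    (j : (A × B) × (A × B) × C) : Prop :=
  j.1 ∈ E ∧ j.2.1 ∈ E ∧ j.1 ≠ j.2.1 ∧ (∃ v, Inc v j.1 ∧ Inc v j.2.1) ∧
    (∃ a, g j.1 a = j.2.2) ∧ ∃ a, g j.2.1 a = j.2.2

variable [Fintype A] [Fintype B] [Fintype C]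

omit [Fintype C] in
theorem bx_nbr {E : Finset (A × B)} {L : A × B → Finset C} {m : ℕ}
    (hdeg : ∀ v c, deg E L v c ≤ m) (e : A × B) (c : C) :
    (E.filter fun f => (∃ v, Inc v e ∧ Inc v f) ∧ c ∈ L f).card ≤ 2 * m := by
  have h1 : (E.filter fun f => (∃ v, Inc v e ∧ Inc v f) ∧ c ∈ L f)
      ⊆ (E.filter fun f => Inc (Sum.inl e.1) f ∧ c ∈ L f)
        ∪ (E.filter fun f => Inc (Sum.inr e.2) f ∧ c ∈ L f) := by
    intro f hf
    rw [Finset.mem_filter] at hf
    obtain ⟨hfE, ⟨v, hv1, hv2⟩, hc⟩ := hf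
    rw [Finset.mem_union, Finset.mem_filter, Finset.mem_filter]
    rcases v with v | v
    · left
      have : e.1 = v := hv1
      rw [this]
      exact ⟨hfE, hv2, hc⟩
    · right
      have : e.2 = v := hv1
      rw [this]
      exact ⟨hfE, hv2, hc⟩
  have h2 := hdeg (Sum.inl e.1) c
  have h3 := hdeg (Sum.inr e.2) c
  unfold deg at h2 h3
  calc _ ≤ _ := Finset.card_le_card h1
    _ ≤ _ := Finset.card_union_le _ _
    _ ≤ m + m := Nat.add_le_add h2 h3
    _ = 2 * m := by ring

theorem bx_first {E : Finset (A × B)} {L : A × B → Finset C} {m l : ℕ}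
    (hdeg : ∀ v c, deg E L v c ≤ m) (g : A × B → Fin l → C)
    (hg : ∀ e ∈ E, ∀ a, g e a ∈ L e) (e : A × B) :
    (univ.filter fun j => bxOk E g j ∧ j.1 = e).card ≤ l * (2 * m) := by
  have h1 : (univ.filter fun j => bxOk E g j ∧ j.1 = e)
      ⊆ (univ : Finset (Fin l)).biUnion fun a =>
        (E.filter fun f => (∃ v, Inc v e ∧ Inc v f) ∧ g e a ∈ L f).image
          fun f => (e, f, g e a) := by
    rintro ⟨e', f, c⟩ hj
    rw [Finset.mem_filter] at hj
    obtain ⟨-, ⟨-, h2, -, h4, ⟨a, ha⟩, ⟨b, hb⟩⟩, rfl⟩ := hj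
    simp only at h2 h4 ha hb
    rw [Finset.mem_biUnion]
    refine ⟨a, Finset.mem_univ _, ?_⟩
    rw [Finset.mem_image]
    refine ⟨f, ?_, ?_⟩
    · rw [Finset.mem_filter]
      refine ⟨h2, h4, ?_⟩
      simp only
      rw [ha, ← hb]
      exact hg f h2 b
    · simp only
      rw [ha]
  calc _ ≤ _ := Finset.card_le_card h1
    _ ≤ _ := Finset.card_biUnion_le
    _ ≤ ∑ _a : Fin l, 2 * m := Finset.sum_le_sum fun a _ =>
        Finset.card_image_le.trans (bx_nbr hdeg e (g e a))
    _ = l * (2 * m) := by simp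

theorem bx_second {E : Finset (A × B)} {L : A × B → Finset C} {m l : ℕ}
    (hdeg : ∀ v c, deg E L v c ≤ m) (g : A × B → Fin l → C)
    (hg : ∀ e ∈ E, ∀ a, g e a ∈ L e) (e : A × B) :
    (univ.filter fun j => bxOk E g j ∧ j.2.1 = e).card ≤ l * (2 * m) := by
  refine le_trans ?_ (bx_first hdeg g hg e)
  refine Finset.card_le_card_of_injOn (fun j => (j.2.1, j.1, j.2.2)) ?_ ?_
  · rintro ⟨e', f, c⟩ hj
    rw [Finset.mem_coe, Finset.mem_filter] at hj
    obtain ⟨-, ⟨h1, h2, h3, ⟨v, h4, h5⟩, h6, h7⟩, h8⟩ := hj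
    rw [Finset.mem_coe, Finset.mem_filter]
    exact ⟨Finset.mem_univ _, ⟨h2, h1, Ne.symm h3, ⟨v, h5, h4⟩, h7, h6⟩, h8⟩
  · rintro ⟨e1, f1, c1⟩ - ⟨e2, f2, c2⟩ - h
    simp only [Prod.mk.injEq] at h
    obtain ⟨h1, h2, h3⟩ := h
    subst h1
    subst h2
    subst h3
    rfl

end baseX

theorem PK_base : PK (1 / 32) := by
  refine ⟨2, ?_⟩
  intro l hl A B C _ _ _ _ E L hL hdeg'
  obtain ⟨m, hm⟩ : ∃ m, m = l / 32 := ⟨_, rfl⟩
  have hml : 32 * m ≤ l := by
    rw [hm]
    exact Nat.mul_div_le l 32
  have hdeg : ∀ v c, deg E L v c ≤ m := by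
    intro v c
    have h1 := hdeg' v c
    have h2 : ((deg E L v c * 32 : ℕ) : ℝ) ≤ (l : ℝ) := by
      push_cast
      linarith
    have h3 : deg E L v c * 32 ≤ l := by exact_mod_cast h2
    rw [hm]
    exact (Nat.le_div_iff_mul_le (by norm_num)).2 h3
  have hex : ∀ e : A × B, ∃ ge : Fin l → C, e ∈ E → (Function.Injective ge ∧ ∀ a, ge a ∈ L e) := by
    intro e
    by_cases he : e ∈ E
    · have h1 : Fintype.card (Fin l) ≤ Fintype.card (L e) := by
        rw [Fintype.card_fin, Fintype.card_coe]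
        exact hL e he
      obtain ⟨φ⟩ := Function.Embedding.nonempty_of_card_le h1
      exact ⟨fun a => (φ a : C), fun _ => ⟨fun a b hab => φ.injective (Subtype.ext hab),
        fun a => (φ a).2⟩⟩
    · exact ⟨fun _ => Classical.arbitrary C, fun h => absurd h he⟩
  choose g hg using hex
  have hne : Nonempty (Fin l) := ⟨⟨0, by omega⟩⟩
  have hl0 : (0 : ℝ) < l := by
    have : 0 < l := by omega
    exact_mod_cast this
  have hmain := lll (V := A × B) (Ω := Fin l) (J := (A × B) × (A × B) × C)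
    (fun j x => bxOk E g j ∧ g j.1 (x j.1) = j.2.2 ∧ g j.2.1 (x j.2.1) = j.2.2)
    (fun j => if bxOk E g j then {j.1, j.2.1} else ∅) ?_ (p := 1 / (l : ℝ) ^ 2)
    (N := 8 * l * m) ?_ ?_ ?_ ?_
  · obtain ⟨x, hx⟩ := hmain
    refine ⟨fun e => g e (x e), fun e he => (hg e he).2 _, ?_⟩
    intro v e he e' he' hne hv hv' heq
    apply hx (e, e', g e (x e))
    exact ⟨⟨he, he', hne, ⟨v, hv, hv'⟩, ⟨x e, rfl⟩, ⟨x e', heq.symm⟩⟩, rfl, heq.symm⟩
  · intro j x y hxy hj
    simp only [if_pos hj.1] at hxy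
    refine ⟨hj.1, ?_, ?_⟩
    · rw [← hxy j.1 (by simp)]
      exact hj.2.1
    · rw [← hxy j.2.1 (by simp)]
      exact hj.2.2
  · intro j
    by_cases hj : bxOk E g j
    · have h1 : Pr (fun x : A × B → Fin l => bxOk E g j ∧ g j.1 (x j.1) = j.2.2 ∧
          g j.2.1 (x j.2.1) = j.2.2)
          ≤ Pr (fun x : A × B → Fin l => ∀ v ∈ ({j.1, j.2.1} : Finset (A × B)),
              g v (x v) = j.2.2) := by
        refine Pr_mono fun x hx v hv => ?_
        rw [Finset.mem_insert, Finset.mem_singleton] at hv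
        rcases hv with rfl | rfl
        · exact hx.2.1
        · exact hx.2.2
      have h2 := Pr_coord (V := A × B) (Ω := Fin l) ({j.1, j.2.1} : Finset (A × B))
        (fun v a => g v a = j.2.2)
      have hone : ∀ v ∈ E, ((univ.filter fun a => g v a = j.2.2).card : ℝ)
          / (Fintype.card (Fin l) : ℝ) ≤ 1 / l := by
        intro v hv
        rw [Fintype.card_fin]
        have h3 : (univ.filter fun a => g v a = j.2.2).card ≤ 1 := by
          rw [Finset.card_le_one]
          intro a ha b hb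
          rw [Finset.mem_filter] at ha hb
          exact (hg v hv).1 (ha.2.trans hb.2.symm)
        have h4 : ((univ.filter fun a => g v a = j.2.2).card : ℝ) ≤ 1 := by exact_mod_cast h3
        exact div_le_div_of_nonneg_right h4 hl0.le
      have h5 : Pr (fun x : A × B → Fin l => ∀ v ∈ ({j.1, j.2.1} : Finset (A × B)),
              g v (x v) = j.2.2) ≤ 1 / (l : ℝ) ^ 2 := by
        rw [h2, Finset.prod_pair hj.2.2.1]
        have h6 := hone j.1 hj.1
        have h7 := hone j.2.1 hj.2.1
        have h8 : 1 / (l : ℝ) ^ 2 = (1 / l) * (1 / l) := by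
          rw [div_mul_div_comm, one_mul, sq]
        rw [h8]
        exact mul_le_mul h6 h7 (by positivity) (by positivity)
      exact h1.trans h5
    · have h1 : Pr (fun x : A × B → Fin l => bxOk E g j ∧ g j.1 (x j.1) = j.2.2 ∧
          g j.2.1 (x j.2.1) = j.2.2) ≤ Pr (fun _ : A × B → Fin l => False) :=
        Pr_mono fun x hx => hj hx.1
      rw [Pr_false] at h1
      exact h1.trans (by positivity)
  · have h1 : (2 : ℝ) ≤ l := by exact_mod_cast hl
    have h2 : (4 : ℝ) ≤ (l : ℝ) ^ 2 := by nlinarith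
    rw [div_lt_div_iff₀ (by positivity) (by norm_num)]
    linarith
  · intro j
    by_cases hj : bxOk E g j
    · have hsub : (univ.filter fun i => ¬ Disjoint
          (if bxOk E g j then ({j.1, j.2.1} : Finset (A × B)) else ∅)
          (if bxOk E g i then ({i.1, i.2.1} : Finset (A × B)) else ∅))
          ⊆ ((univ.filter fun i => bxOk E g i ∧ i.1 = j.1)
            ∪ (univ.filter fun i => bxOk E g i ∧ i.2.1 = j.1))
            ∪ ((univ.filter fun i => bxOk E g i ∧ i.1 = j.2.1)
            ∪ (univ.filter fun i => bxOk E g i ∧ i.2.1 = j.2.1)) := by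
        intro i hi
        rw [Finset.mem_filter] at hi
        have h1 := hi.2
        by_cases hio : bxOk E g i
        · rw [if_pos hj, if_pos hio, Finset.not_disjoint_iff] at h1
          obtain ⟨a, ha1, ha2⟩ := h1
          rw [Finset.mem_insert, Finset.mem_singleton] at ha1 ha2
          simp only [Finset.mem_union, Finset.mem_filter, Finset.mem_univ, true_and]
          rcases ha1 with h2 | h2 <;> rcases ha2 with h3 | h3
          · exact Or.inl (Or.inl ⟨hio, h3.symm.trans h2⟩)
          · exact Or.inl (Or.inr ⟨hio, h3.symm.trans h2⟩)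
          · exact Or.inr (Or.inl ⟨hio, h3.symm.trans h2⟩)
          · exact Or.inr (Or.inr ⟨hio, h3.symm.trans h2⟩)
        · rw [if_neg hio] at h1
          exact absurd (Finset.disjoint_empty_right _) h1
      have b1 := bx_first hdeg g (fun e he => (hg e he).2) j.1
      have b2 := bx_second hdeg g (fun e he => (hg e he).2) j.1
      have b3 := bx_first hdeg g (fun e he => (hg e he).2) j.2.1
      have b4 := bx_second hdeg g (fun e he => (hg e he).2) j.2.1
      have b5 : ((((univ.filter fun i => bxOk E g i ∧ i.1 = j.1)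
            ∪ (univ.filter fun i => bxOk E g i ∧ i.2.1 = j.1))
            ∪ ((univ.filter fun i => bxOk E g i ∧ i.1 = j.2.1)
            ∪ (univ.filter fun i => bxOk E g i ∧ i.2.1 = j.2.1)))).card ≤ 8 * l * m := by
        refine (Finset.card_union_le _ _).trans ?_
        refine (Nat.add_le_add (Finset.card_union_le _ _) (Finset.card_union_le _ _)).trans ?_
        refine (Nat.add_le_add (Nat.add_le_add b1 b2) (Nat.add_le_add b3 b4)).trans ?_
        exact le_of_eq (by ring)
      have b6 := (Finset.card_le_card hsub).trans b5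
      refine le_of_eq_of_le ?_ b6
      congr!
    · rw [if_neg hj]
      simp
  · have h1 : (32 : ℝ) * m ≤ l := by exact_mod_cast hml
    have h2 : 4 * (1 / (l : ℝ) ^ 2) * ((8 * l * m : ℕ) : ℝ) = 32 * m / l := by
      push_cast
      field_simp
      ring
    rw [h2, div_le_one hl0]
    exact h1

end Pool.Agent.H70.KS
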