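import Pool.Agent.H70.KS.Slots

/-!
# Job KS-3: the cells

Fill the sorries (all elementary, from the definition of `cell` in `Slots.lean` and the lemmas on
`Inc`, `oth` in `Defs.lean`).

* `cell_card`: the first part is the injective image of `star`, `deg E L v c` elements, the second
  part the injective image of the `k : Fin d` with `k < d - deg`, `d - deg` elements (for instance
  `Fin.card_filter_val_lt` or by an injection from `Finset.range`); the parts are disjoint.
* `cell_disjoint_color`: the colour of a slot is determined.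
* `cell_disjoint_oth`: `oth e v` and `oth e' v` lie in the same part of `A ⊕ B`, and an edge has
  only one end in each part; the dummies `((w, c), k)` determine `w`.
* `cell_inter`: if `σ` lies in both cells then `σ` is no dummy (`oth_ne`), so `σ = Sum.inl (e', c)`
  with `Inc v e'` and `Inc (oth e v) e'`, hence `e' = e` by `eq_of_Inc`.
* `union_card`: `d + d - 1`.
-/

namespace Pool.Agent.H70.KS

open Finset Classical

variable {A B C : Type} [Fintype A] [Fintype B] [Fintype C] {E : Finset (A × B)}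
  {L : A × B → Finset C} {d : ℕ}

theorem mem_cell_inl {v : A ⊕ B} {c c' : C} {e : A × B} :
    (Sum.inl (e, c') : Slot A B C d) ∈ cell E L d v c ↔ e ∈ E ∧ Inc v e ∧ c ∈ L e ∧ c' = c := by
  unfold cell
  rw [mem_union, mem_image, mem_image]
  constructor
  · rintro (⟨e1, he1, h⟩ | ⟨k, -, h⟩)
    · rw [Sum.inl.injEq, Prod.mk.injEq] at h
      obtain ⟨rfl, rfl⟩ := h
      rw [mem_filter] at he1
      exact ⟨he1.1, he1.2.1, he1.2.2, rfl⟩
    · exact absurd h (by simp)
  · rintro ⟨h1, h2, h3, rfl⟩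
    exact Or.inl ⟨e, mem_filter.2 ⟨h1, h2, h3⟩, rfl⟩

theorem mem_cell_inr {v w : A ⊕ B} {c c' : C} {k : Fin d} :
    (Sum.inr ((w, c'), k) : Slot A B C d) ∈ cell E L d v c ↔
      w = v ∧ c' = c ∧ (k : ℕ) < d - deg E L v c := by
  unfold cell
  rw [mem_union, mem_image, mem_image]
  constructor
  · rintro (⟨e1, -, h⟩ | ⟨k1, hk1, h⟩)
    · exact absurd h (by simp)
    · rw [Sum.inr.injEq, Prod.mk.injEq, Prod.mk.injEq] at h
      obtain ⟨⟨rfl, rfl⟩, rfl⟩ := h
      rw [mem_filter] at hk1
      exact ⟨rfl, rfl, hk1.2⟩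
  · rintro ⟨rfl, rfl, h⟩
    exact Or.inr ⟨k, mem_filter.2 ⟨mem_univ _, h⟩, rfl⟩

theorem CellL_fin (d k : ℕ) (h : k ≤ d) : (univ.filter fun i : Fin d => (i : ℕ) < k).card = k := by
  have h1 : (univ.filter fun i : Fin d => (i : ℕ) < k).image (fun i : Fin d => (i : ℕ)) =
      range k := by
    ext x
    rw [mem_image, mem_range]
    constructor
    · rintro ⟨i, hi, rfl⟩
      exact (mem_filter.1 hi).2
    · intro hx
      exact ⟨⟨x, hx.trans_le h⟩, mem_filter.2 ⟨mem_univ _, hx⟩, rfl⟩
  have h2 := card_image_of_injective (univ.filter fun i : Fin d => (i : ℕ) < k)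
    (Fin.val_injective (n := d))
  rw [← h2]
  change ((univ.filter fun i : Fin d => (i : ℕ) < k).image (fun i : Fin d => (i : ℕ))).card = k
  rw [h1, card_range]

theorem cell_card {v : A ⊕ B} {c : C} (hd : deg E L v c ≤ d) : (cell E L d v c).card = d := by
  unfold cell
  rw [card_union_of_disjoint, card_image_of_injective, card_image_of_injective, CellL_fin]
  · change deg E L v c + (d - deg E L v c) = d
    omega
  · exact Nat.sub_le _ _
  · intro k k' h
    simpa using h
  · intro e e' h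
    simpa using h
  · rw [disjoint_left]
    intro σ h1 h2
    obtain ⟨e1, -, rfl⟩ := mem_image.1 h1
    obtain ⟨k1, -, h⟩ := mem_image.1 h2
    exact absurd h (by simp)

theorem cell_disjoint_color {v w : A ⊕ B} {c c' : C} (h : c ≠ c') :
    Disjoint (cell E L d v c) (cell E L d w c') := by
  rw [disjoint_left]
  rintro (⟨e1, c1⟩ | ⟨⟨w1, c1⟩, k1⟩) h1 h2
  · rw [mem_cell_inl] at h1 h2
    exact h (h1.2.2.2.symm.trans h2.2.2.2)
  · rw [mem_cell_inr] at h1 h2
    exact h (h1.2.1.symm.trans h2.2.1)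

theorem cell_disjoint_oth {v : A ⊕ B} {e e' : A × B} (h : oth e v ≠ oth e' v) (c : C) :
    Disjoint (cell E L d (oth e v) c) (cell E L d (oth e' v) c) := by
  rw [disjoint_left]
  rintro (⟨e1, c1⟩ | ⟨⟨w1, c1⟩, k1⟩) h1 h2
  · rw [mem_cell_inl] at h1 h2
    rcases v with v | v
    · have a1 : e1.2 = e.2 := h1.2.1
      have a2 : e1.2 = e'.2 := h2.2.1
      exact h (congrArg Sum.inr (a1.symm.trans a2))
    · have a1 : e1.1 = e.1 := h1.2.1
      have a2 : e1.1 = e'.1 := h2.2.1
      exact h (congrArg Sum.inl (a1.symm.trans a2))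
  · rw [mem_cell_inr] at h1 h2
    exact h (h1.1.symm.trans h2.1)

theorem cell_inter {v : A ⊕ B} {e : A × B} {c : C} (he : e ∈ E) (hv : Inc v e) (hc : c ∈ L e) :
    cell E L d v c ∩ cell E L d (oth e v) c = {Sum.inl (e, c)} := by
  ext σ
  rw [mem_inter, mem_singleton]
  constructor
  · rcases σ with ⟨e1, c1⟩ | ⟨⟨w1, c1⟩, k1⟩
    · rintro ⟨h1, h2⟩
      rw [mem_cell_inl] at h1 h2
      have h3 : e = e1 := eq_of_Inc (oth_ne (v := v) (e := e)).symm hv Inc_oth h1.2.1 h2.2.1
      rw [h3, h1.2.2.2]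
    · rintro ⟨h1, h2⟩
      rw [mem_cell_inr] at h1 h2
      exact absurd (h2.1.symm.trans h1.1) oth_ne
  · rintro rfl
    exact ⟨mem_cell_inl.2 ⟨he, hv, hc, rfl⟩, mem_cell_inl.2 ⟨he, Inc_oth, hc, rfl⟩⟩

theorem union_card {v : A ⊕ B} {e : A × B} {c : C} (he : e ∈ E) (hv : Inc v e) (hc : c ∈ L e)
    (hd : ∀ v c, deg E L v c ≤ d) :
    (cell E L d v c ∪ cell E L d (oth e v) c).card = 2 * d - 1 := by
  have h := card_union_add_card_inter (cell E L d v c) (cell E L d (oth e v) c)
  rw [cell_inter he hv hc, card_singleton, cell_card (hd v c), cell_card (hd (oth e v) c)] at h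
  omega

end Pool.Agent.H70.KS
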