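import Pool.Agent.H70.KS.Ev

/-!
# Job KS-13: outside the bad events the random lists admit a colouring (deterministic)

Fill the sorry.  Let `S` be outside `E1`, `E2`, `E3`, `E4` (definitions in `Ev.lean`).

For an edge `e` and an end `v` of `e` let
* `H e v` = the `c ∈ lst L S e` with `deg univ L v c ≤ D` and `Heavy v c`: fewer than `k1` elements
  (otherwise a subset `T` with `k1` elements contradicts `¬ E2`);
* `Q e v` = the `c ∈ lst L S e` for which there is `f ≠ e` with `Inc v f`, `Poor f`, `c ∈ lst L S f`: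
  fewer than `3 * k2` elements.  Otherwise choose such an `f = g0 c` for every `c ∈ Q e v`; every fibre of
  `g0` on `Q e v` has at most `3` elements (`¬ E4`), so the image has at least `k2` elements
  (`Finset.card_le_mul_card_image`); choose a subset of the image with `k2` elements and one `c` in
  the fibre of each: a set `T ⊆ Q e v` with `k2` elements on which `g0` is injective: contradiction to
  `¬ E3`.
Let `Bad e` = the union of `H e v`, `Q e v` over the two ends `v` of `e`: at most `2 (k1 + 3 k2) ≤ K`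
elements.

Let `P` be the set of the poor edges.  For `f ∈ P` choose `φ f ∈ lst L S f \ Bad f` (`¬ E1`: the list has
more than `K` elements).  For `e ∉ P` put `L1 e = (Lt L D e ∩ lst L S e) \ Bad e`; it has at least
`a - K ≥ l1` elements (`¬ Poor`).  For the set `R` of the rich edges, the lists `L1` and all `v`, `c` we have
`deg R L1 v c ≤ b ≤ ρ l1` or `deg R L1 v c = 0 ≤ ρ l1`: if there is `e ∈ R` with `Inc v e`, `c ∈ L1 e` then
`deg univ L v c ≤ D` and, as `c ∉ H e v`, `¬ Heavy v c`, i.e. `deg univ (lst L S) v c ≤ b`, and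
`deg R L1 v c ≤ deg univ (lst L S) v c`.  So `hPK` gives a colouring `ψ` of `R` from `L1`.

The colouring `φ` on `P`, `ψ` on `R` is proper.  Let `e ≠ e'` have the common end `v` and the same
colour `c`.  Both in `P`: `c ∈ lst L S e'` and `e'` is poor, so `c ∈ Q e v ⊆ Bad e`, contradiction.  Both in
`R`: `ψ` is proper.  `e ∈ R`, `e' ∈ P`: `c ∈ lst L S e'`, so `c ∈ Q e v`, but `c ∈ L1 e`.
-/

namespace Pool.Agent.H70.KS

open Finset Classical

variable {n : ℕ}

/-- The light colours of the list of `e` which are heavy at `v`. -/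
noncomputable def Hs (L : Fin n × Fin n → Finset ℕ) (D b : ℝ) (S : Finset ((Fin n × Fin n) × ℕ))
    (e : Fin n × Fin n) (v : Fin n ⊕ Fin n) : Finset ℕ :=
  (lst L S e).filter fun c => (deg univ L v c : ℝ) ≤ D ∧ Heavy L b S v c

/-- The colours of the list of `e` which are in the list of another poor edge at `v`. -/
noncomputable def Qs (L : Fin n × Fin n → Finset ℕ) (D a : ℝ) (S : Finset ((Fin n × Fin n) × ℕ))
    (e : Fin n × Fin n) (v : Fin n ⊕ Fin n) : Finset ℕ :=
  (lst L S e).filter fun c => ∃ f, f ≠ e ∧ Inc v f ∧ Poor L D a S f ∧ c ∈ lst L S f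

theorem Hs_card {L : Fin n × Fin n → Finset ℕ} {D b : ℝ} {k1 : ℕ}
    {S : Finset ((Fin n × Fin n) × ℕ)} (h2 : ¬ E2 L D b k1 S) {e : Fin n × Fin n}
    {v : Fin n ⊕ Fin n} (hv : Inc v e) : (Hs L D b S e v).card ≤ k1 := by
  by_contra hcon
  obtain ⟨T, hT, hTk⟩ := Finset.exists_subset_card_eq (not_le.1 hcon).le
  apply h2
  refine ⟨e, v, hv, T, fun c hc => (Finset.mem_filter.1 (hT hc)).1, hTk, fun c hc => ?_⟩
  exact (Finset.mem_filter.1 (hT hc)).2

theorem Qs_card {L : Fin n × Fin n → Finset ℕ} {D a : ℝ} {k2 : ℕ}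
    {S : Finset ((Fin n × Fin n) × ℕ)} (h3 : ¬ E3 L D a k2 S) (h4 : ¬ E4 L S)
    {e : Fin n × Fin n} {v : Fin n ⊕ Fin n} (hv : Inc v e) :
    (Qs L D a S e v).card ≤ 3 * k2 := by
  by_contra hcon
  have hcon := (not_le.1 hcon).le
  have hg : ∀ c, ∃ f, c ∈ Qs L D a S e v →
      (f ≠ e ∧ Inc v f ∧ Poor L D a S f ∧ c ∈ lst L S f) := by
    intro c
    by_cases hc : c ∈ Qs L D a S e v
    · obtain ⟨f, hf⟩ := (Finset.mem_filter.1 hc).2
      exact ⟨f, fun _ => hf⟩
    · exact ⟨e, fun h => absurd h hc⟩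
  choose g hg using hg
  have himg : (Qs L D a S e v).card ≤ 3 * ((Qs L D a S e v).image g).card := by
    apply Finset.card_le_mul_card_image
    intro f hf
    obtain ⟨c0, hc0, hc0f⟩ := Finset.mem_image.1 hf
    have hf0 := hg c0 hc0
    rw [hc0f] at hf0
    by_contra h5
    apply h4
    refine ⟨e, f, v, hf0.1.symm, hv, hf0.2.1, ?_⟩
    have h6 : 4 ≤ ((Qs L D a S e v).filter fun x => g x = f).card := by omega
    refine h6.trans (Finset.card_le_card ?_)
    intro c hc
    obtain ⟨hc1, hc2⟩ := Finset.mem_filter.1 hc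
    rw [Finset.mem_inter]
    refine ⟨(Finset.mem_filter.1 hc1).1, ?_⟩
    have := (hg c hc1).2.2.2
    rwa [hc2] at this
  have hk : k2 ≤ ((Qs L D a S e v).image g).card := by omega
  obtain ⟨T', hT', hTk⟩ := Finset.exists_subset_card_eq hk
  have hs : ∀ f, ∃ c, f ∈ T' → (c ∈ Qs L D a S e v ∧ g c = f) := by
    intro f
    by_cases hf : f ∈ T'
    · obtain ⟨c, hc, hcf⟩ := Finset.mem_image.1 (hT' hf)
      exact ⟨c, fun _ => ⟨hc, hcf⟩⟩
    · exact ⟨0, fun h => absurd h hf⟩
  choose s hs using hs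
  have hinj : Set.InjOn s T' := by
    intro f hf f' hf' hff
    rw [← (hs f hf).2, ← (hs f' hf').2, hff]
  apply h3
  refine ⟨e, v, hv, T'.image s, ?_, ?_, g, ?_, ?_⟩
  · intro c hc
    obtain ⟨f, hf, rfl⟩ := Finset.mem_image.1 hc
    exact (Finset.mem_filter.1 (hs f hf).1).1
  · rw [Finset.card_image_of_injOn hinj, hTk]
  · intro c hc c' hc' hcc
    rw [Finset.mem_coe, Finset.mem_image] at hc hc'
    obtain ⟨f, hf, rfl⟩ := hc
    obtain ⟨f', hf', rfl⟩ := hc'
    rw [(hs f hf).2, (hs f' hf').2] at hcc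
    rw [hcc]
  · intro c hc
    obtain ⟨f, hf, rfl⟩ := Finset.mem_image.1 hc
    obtain ⟨k1, k2, k3, k4⟩ := hg _ (hs f hf).1
    exact ⟨k1, k2, k4, k3⟩

/-- The bad colours of `e`. -/
noncomputable def Bd (L : Fin n × Fin n → Finset ℕ) (D a b : ℝ) (S : Finset ((Fin n × Fin n) × ℕ))
    (e : Fin n × Fin n) : Finset ℕ :=
  (Hs L D b S e (Sum.inl e.1) ∪ Hs L D b S e (Sum.inr e.2)) ∪
    (Qs L D a S e (Sum.inl e.1) ∪ Qs L D a S e (Sum.inr e.2))

theorem Inc_cases {v : Fin n ⊕ Fin n} {e : Fin n × Fin n} (h : Inc v e) :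
    v = Sum.inl e.1 ∨ v = Sum.inr e.2 := by
  rcases v with v | v
  · left
    exact congrArg Sum.inl (h : e.1 = v).symm
  · right
    exact congrArg Sum.inr (h : e.2 = v).symm

theorem Hs_sub {L : Fin n × Fin n → Finset ℕ} {D a b : ℝ} {S : Finset ((Fin n × Fin n) × ℕ)}
    {v : Fin n ⊕ Fin n} {e : Fin n × Fin n} (h : Inc v e) : Hs L D b S e v ⊆ Bd L D a b S e := by
  intro c hc
  simp only [Bd, Finset.mem_union]
  rcases Inc_cases h with rfl | rfl
  · exact Or.inl (Or.inl hc)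
  · exact Or.inl (Or.inr hc)

theorem Qs_sub {L : Fin n × Fin n → Finset ℕ} {D a b : ℝ} {S : Finset ((Fin n × Fin n) × ℕ)}
    {v : Fin n ⊕ Fin n} {e : Fin n × Fin n} (h : Inc v e) : Qs L D a S e v ⊆ Bd L D a b S e := by
  intro c hc
  simp only [Bd, Finset.mem_union]
  rcases Inc_cases h with rfl | rfl
  · exact Or.inr (Or.inl hc)
  · exact Or.inr (Or.inr hc)

theorem clean {L : Fin n × Fin n → Finset ℕ} {D a b ρ : ℝ} {K k1 k2 l1 : ℕ}
    {S : Finset ((Fin n × Fin n) × ℕ)} (h1 : ¬ E1 L K S) (h2 : ¬ E2 L D b k1 S)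
    (h3 : ¬ E3 L D a k2 S) (h4 : ¬ E4 L S) (hK : 2 * (k1 + 3 * k2) ≤ K)
    (hl1 : (l1 : ℝ) ≤ a - K) (hb : b ≤ ρ * l1) (hρ : 0 ≤ ρ)
    (hPK : ∀ (E : Finset (Fin n × Fin n)) (L1 : Fin n × Fin n → Finset ℕ),
      (∀ e ∈ E, l1 ≤ (L1 e).card) → (∀ v c, (deg E L1 v c : ℝ) ≤ ρ * l1) → Colb E L1) :
    Colb univ (lst L S) := by
  have hBd : ∀ e, (Bd L D a b S e).card ≤ K := by
    intro e
    have hi1 : Inc (Sum.inl e.1) e := rfl
    have hi2 : Inc (Sum.inr e.2) e := rfl
    have c1 := Hs_card h2 hi1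
    have c2 := Hs_card h2 hi2
    have c3 := Qs_card h3 h4 hi1
    have c4 := Qs_card h3 h4 hi2
    have d1 := Finset.card_union_le (Hs L D b S e (Sum.inl e.1) ∪ Hs L D b S e (Sum.inr e.2))
      (Qs L D a S e (Sum.inl e.1) ∪ Qs L D a S e (Sum.inr e.2))
    have d2 := Finset.card_union_le (Hs L D b S e (Sum.inl e.1)) (Hs L D b S e (Sum.inr e.2))
    have d3 := Finset.card_union_le (Qs L D a S e (Sum.inl e.1)) (Qs L D a S e (Sum.inr e.2))
    have d0 : (Bd L D a b S e).card = ((Hs L D b S e (Sum.inl e.1) ∪ Hs L D b S e (Sum.inr e.2)) ∪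
      (Qs L D a S e (Sum.inl e.1) ∪ Qs L D a S e (Sum.inr e.2))).card := rfl
    omega
  -- the colours of the poor edges
  have hφ : ∀ e, ∃ c, c ∈ lst L S e ∧ c ∉ Bd L D a b S e := by
    intro e
    have h5 : K < (lst L S e).card := by
      by_contra h6
      exact h1 ⟨e, not_lt.1 h6⟩
    have h6 := Finset.card_le_card_sdiff_add_card (s := lst L S e) (t := Bd L D a b S e)
    have h7 := hBd e
    have h8 : 0 < (lst L S e \ Bd L D a b S e).card := by omega
    obtain ⟨c, hc⟩ := Finset.card_pos.1 h8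
    exact ⟨c, (Finset.mem_sdiff.1 hc).1, (Finset.mem_sdiff.1 hc).2⟩
  choose φ hφ1 hφ2 using hφ
  let R : Finset (Fin n × Fin n) := univ.filter fun e => ¬ Poor L D a S e
  let L1 : Fin n × Fin n → Finset ℕ := fun e =>
    ((Lt L D e).filter fun c => (e, c) ∈ S) \ Bd L D a b S e
  have hL1 : ∀ e ∈ R, l1 ≤ (L1 e).card := by
    intro e he
    have h5 : ¬ Poor L D a S e := (Finset.mem_filter.1 he).2
    have h6 : a ≤ (((Lt L D e).filter fun c => (e, c) ∈ S).card : ℝ) := not_lt.1 h5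
    have h7 := Finset.card_le_card_sdiff_add_card
      (s := (Lt L D e).filter fun c => (e, c) ∈ S) (t := Bd L D a b S e)
    have h8 := hBd e
    have h9 : (((Lt L D e).filter fun c => (e, c) ∈ S).card : ℝ) ≤ ((L1 e).card : ℝ) + K := by
      have : ((Lt L D e).filter fun c => (e, c) ∈ S).card ≤ (L1 e).card + K :=
        h7.trans (Nat.add_le_add_left h8 _)
      exact_mod_cast this
    have h10 : (l1 : ℝ) ≤ ((L1 e).card : ℝ) := by linarith
    exact_mod_cast h10
  have hL1s : ∀ e, ∀ c ∈ L1 e, c ∈ Lt L D e ∧ c ∈ lst L S e ∧ c ∉ Bd L D a b S e := by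
    intro e c hc
    obtain ⟨hc1, hc2⟩ := Finset.mem_sdiff.1 hc
    obtain ⟨hc3, hc4⟩ := Finset.mem_filter.1 hc1
    exact ⟨hc3, mem_lst.2 ⟨(Finset.mem_filter.1 hc3).1, hc4⟩, hc2⟩
  have hdeg : ∀ v c, (deg R L1 v c : ℝ) ≤ ρ * l1 := by
    intro v c
    by_cases hex : ∃ e ∈ R, Inc v e ∧ c ∈ L1 e
    · obtain ⟨e, _, hve, hce⟩ := hex
      obtain ⟨g1, g2, g3⟩ := hL1s e c hce
      have g4 : (deg univ L v c : ℝ) ≤ D := (Finset.mem_filter.1 g1).2 v hve
      have g5 : ¬ Heavy L b S v c := by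
        intro hh
        exact g3 (Hs_sub hve (Finset.mem_filter.2 ⟨g2, g4, hh⟩))
      have g6 : (deg univ (lst L S) v c : ℝ) ≤ b := not_lt.1 g5
      have g7 : deg R L1 v c ≤ deg univ (lst L S) v c := by
        unfold deg
        refine Finset.card_le_card fun f hf => ?_
        simp only [Finset.mem_filter] at hf ⊢
        exact ⟨Finset.mem_univ _, hf.2.1, (hL1s f c hf.2.2).2.1⟩
      have g8 : (deg R L1 v c : ℝ) ≤ (deg univ (lst L S) v c : ℝ) := by exact_mod_cast g7
      linarith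
    · have g0 : deg R L1 v c = 0 := by
        unfold deg
        rw [Finset.card_eq_zero]
        refine Finset.eq_empty_of_forall_notMem fun e he => ?_
        simp only [Finset.mem_filter] at he
        exact hex ⟨e, he.1, he.2.1, he.2.2⟩
      rw [g0]
      have : (0 : ℝ) ≤ l1 := Nat.cast_nonneg _
      simpa using mul_nonneg hρ this
  obtain ⟨ψ, hψ1, hψ2⟩ := hPK R L1 hL1 hdeg
  -- mixed case
  have key : ∀ v e e' c, e ≠ e' → Inc v e → Inc v e' → c ∈ lst L S e → c ∉ Bd L D a b S e →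
      Poor L D a S e' → c ∉ lst L S e' := by
    intro v e e' c hne hve hve' hc hcb hp hc'
    exact hcb (Qs_sub hve (Finset.mem_filter.2 ⟨hc, e', hne.symm, hve', hp, hc'⟩))
  have hR : ∀ e, ¬ Poor L D a S e → e ∈ R := fun e he =>
    Finset.mem_filter.2 ⟨Finset.mem_univ _, he⟩
  refine ⟨fun e => if Poor L D a S e then φ e else ψ e, ?_, ?_⟩
  · intro e _
    by_cases hp : Poor L D a S e
    · simp only [hp, if_true]
      exact hφ1 e
    · simp only [hp, if_false]
      exact (hL1s e _ (hψ1 e (hR e hp))).2.1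
  · intro v e _ e' _ hne hve hve'
    by_cases hp : Poor L D a S e <;> by_cases hp' : Poor L D a S e'
    · simp only [hp, hp', if_true]
      intro h
      exact key v e e' (φ e) hne hve hve' (hφ1 e) (hφ2 e) hp' (h ▸ hφ1 e')
    · simp only [hp, hp', if_true, if_false]
      intro h
      have h5 := hL1s e' _ (hψ1 e' (hR e' hp'))
      exact key v e' e (ψ e') hne.symm hve' hve h5.2.1 h5.2.2 hp (h ▸ hφ1 e)
    · simp only [hp, hp', if_true, if_false]
      intro h
      have h5 := hL1s e _ (hψ1 e (hR e hp))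
      exact key v e e' (ψ e) hne hve hve' h5.2.1 h5.2.2 hp' (h ▸ hφ1 e')
    · simp only [hp, hp', if_false]
      exact hψ2 v e (hR e hp) e' (hR e' hp') hne hve hve'

end Pool.Agent.H70.KS
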