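import Pool.Agent.H70.KS.CellL

/-!
# Job KS-4: what one round of the nibble gives

Fill the two sorries (no probability).

`colb_of_new`: let `f` colour `newE` from the lists `newL`. Colour `e ∈ newE` with `f e`, and an edge
`e ∈ E \ newE` with some `c` such that `Cld E L d x e c` (choice). The colour lies in `L e`. Let
`e ≠ e'` be two edges of `E` with the common end `v`.
* Both in `E \ newE`, both with the colour `c`: the slot `(e', c)` lies in the cell `(v, c)`, is
  different from `(e, c)` and active; this contradicts `Alone E L d x v e c`.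
* `e ∈ E \ newE` with colour `c`, `e' ∈ newE` with `f e' = c`: `c ∈ newL e'` says `Live v c`, but the
  slot `(e, c)` of this cell is active. (And symmetrically.)
* Both in `newE`: `f` is proper.

`deg_new_le`: let `e ∈ newE`, `Inc v e`, `c ∈ newL e`. Then `e ∈ star E L v c`; `Live (oth e v) c` gives
`Alone (oth e v) e c`; and `¬ Cld e c'` for all `c'` since `e ∈ newE`.
-/

namespace Pool.Agent.H70.KS

open Finset Classical

variable {A B C : Type} [Fintype A] [Fintype B] [Fintype C] {E : Finset (A × B)}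
  {L : A × B → Finset C} {d M : ℕ} [NeZero M] {x : Slot A B C d → Fin M}

theorem Comb_cld_cld {v : A ⊕ B} {e e' : A × B} {c : C} (he' : e' ∈ E) (hne : e ≠ e')
    (hv : Inc v e) (hv' : Inc v e') (h : Cld E L d x e c) (h' : Cld E L d x e' c) : False := by
  refine h.2.2 v hv (Sum.inl (e', c)) (mem_cell_inl.mpr ⟨he', hv', h'.1, rfl⟩) ?_ h'.2.1
  intro h1
  exact hne (congrArg Prod.fst (Sum.inl.inj h1)).symm

theorem Comb_cld_new {v : A ⊕ B} {e e' : A × B} {c : C} (he : e ∈ E)
    (hv : Inc v e) (hv' : Inc v e') (h : Cld E L d x e c) (h' : c ∈ newL E L d x e') : False :=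
  (Finset.mem_filter.mp h').2 v hv' (Sum.inl (e, c)) (mem_cell_inl.mpr ⟨he, hv, h.1, rfl⟩) h.2.1

theorem colb_of_new (h : Colb (newE E L d x) (newL E L d x)) : Colb E L := by
  obtain ⟨f, hf1, hf2⟩ := h
  obtain ⟨g, hg1, hg2⟩ : ∃ g : A × B → C, (∀ e, (∃ c, Cld E L d x e c) → Cld E L d x e (g e)) ∧
      ∀ e, (¬ ∃ c, Cld E L d x e c) → g e = f e := by
    refine ⟨fun e => if h : ∃ c, Cld E L d x e c then h.choose else f e, ?_, ?_⟩
    · intro e he
      simp only [dif_pos he]
      exact he.choose_spec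
    · intro e he
      simp only [dif_neg he]
  have hnew : ∀ e ∈ E, (¬ ∃ c, Cld E L d x e c) → e ∈ newE E L d x := by
    intro e he h1
    exact Finset.mem_filter.mpr ⟨he, fun c hc => h1 ⟨c, hc⟩⟩
  refine ⟨g, ?_, ?_⟩
  · intro e he
    by_cases h1 : ∃ c, Cld E L d x e c
    · exact (hg1 e h1).1
    · rw [hg2 e h1]
      exact (Finset.mem_filter.mp (hf1 e (hnew e he h1))).1
  · intro v e he e' he' hne hv hv' heq
    by_cases h1 : ∃ c, Cld E L d x e c
    · have h2 := hg1 e h1
      by_cases h3 : ∃ c, Cld E L d x e' c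
      · have h4 := hg1 e' h3
        rw [← heq] at h4
        exact Comb_cld_cld he' hne hv hv' h2 h4
      · have h4 := hf1 e' (hnew e' he' h3)
        rw [← hg2 e' h3, ← heq] at h4
        exact Comb_cld_new he hv hv' h2 h4
    · have h2 := hf1 e (hnew e he h1)
      by_cases h3 : ∃ c, Cld E L d x e' c
      · have h4 := hg1 e' h3
        rw [← hg2 e h1, heq] at h2
        exact Comb_cld_new he' hv' hv h4 h2
      · rw [hg2 e h1, hg2 e' h3] at heq
        exact hf2 v e (hnew e he h1) e' (hnew e' he' h3) hne hv hv' heq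

theorem deg_new_le (v : A ⊕ B) (c : C) :
    deg (newE E L d x) (newL E L d x) v c ≤
      ((star E L v c).filter fun e => Good E L d x v c e).card := by
  unfold deg
  refine Finset.card_le_card fun e he => ?_
  obtain ⟨h1, h2, h3⟩ := Finset.mem_filter.mp he
  obtain ⟨h4, h5⟩ := Finset.mem_filter.mp h1
  obtain ⟨h6, h7⟩ := Finset.mem_filter.mp h3
  refine Finset.mem_filter.mpr ⟨Finset.mem_filter.mpr ⟨h4, h2, h6⟩, ?_, fun c' _ => h5 c'⟩
  intro σ hσ _
  exact h7 (oth e v) Inc_oth σ hσ

end Pool.Agent.H70.KS
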