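import Mathlib

/-!
# Job KS-17: numerics for the random lists

Fill the sorry.  Write `x = log n`, `p = (2 + ε) x / n`, `m = p l`; for `n ≤ l ≤ 2 n` we have
`(2 + ε) x ≤ m ≤ 2 (2 + ε) x`.

Constants: `r = (1 - eta) / (1 - lam) < 1`, `ρ = (1 + r) / 2`, `θ ∈ (0, 1)` so small that
`r (1 + θ) ≤ ρ (1 - θ) ^ 2` (e.g. `θ = (1 - r) / 20`), `c2 = (1 - eta) θ ^ 2 / 4 * (2 + ε) > 0`,
`c1 = (1 - lam) θ ^ 2 / 2 * (2 + ε) > 0`, `k1 = ⌈3 / c2⌉₊`, `k2 = ⌈3 / c1⌉₊`, `K = 2 (k1 + 3 k2)`, and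
`t = log (2 (2 + ε) / ε) > 0`, i.e. `exp (-t) = ε / (2 (2 + ε))`.

For large `n` (depending also on `l0`):
* `0 ≤ p ≤ 1` since `x / n → 0`.
* `l1 = ⌊(1 - θ) (1 - lam) m - K⌋₊ ≥ (1 - θ) (1 - lam) m - K - 1 ≥ (1 - θ) ^ 2 (1 - lam) m` for large `m`, so
  `ρ l1 ≥ ρ (1 - θ) ^ 2 (1 - lam) m ≥ r (1 + θ) (1 - lam) m = (1 - eta) (1 + θ) m`; and `l1 ≥ l0`.
* `m (1 - exp (-t)) ≥ (2 + ε) x (1 - ε / (2 (2 + ε))) = (2 + ε / 2) x`, so the first term is at most
  `n ^ 2 exp (t K) n ^ (-2 - ε / 2) = exp (t K) n ^ (-ε / 2) → 0`.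
* second term: `2 n ^ 3 (2 n) ^ 4 ((2 + ε) x / n) ^ 8 = 32 (2 + ε) ^ 8 x ^ 8 / n → 0`.
* third term: `exp (-((1 - eta) θ ^ 2 m / 4)) ≤ exp (- c2 x) = n ^ (-c2)`, so it is at most
  `2 n ^ 2 (6 (2 + ε) x n ^ (-c2)) ^ k1 ≤ 2 (6 (2 + ε) x) ^ k1 n ^ (2 - 3) → 0`.
* fourth term: `l n p ^ 2 ≤ 2 (2 + ε) ^ 2 x ^ 2`, so it is at most
  `2 n ^ 2 (6 (2 + ε) ^ 2 x ^ 2 n ^ (-c1)) ^ k2 ≤ 2 (6 (2 + ε) ^ 2 x ^ 2) ^ k2 n ^ (2 - 3) → 0`.
(`x ^ a * exp (- b x) → 0` for `b > 0`: `Real.tendsto_pow_mul_exp_neg_atTop_nhds_zero`, composed with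
`log n → ∞`; write `n = exp x`.)
-/

namespace Pool.Agent.H70.KS

theorem num2 {ε lam eta δ : ℝ} (hε : 0 < ε) (hlam : 0 ≤ lam) (hle : lam < eta) (heta : eta < 1)
    (hδ : 0 < δ) :
    ∃ ρ θ : ℝ, 0 ≤ ρ ∧ ρ < 1 ∧ 0 < θ ∧ θ < 1 ∧ ∃ k1 k2 : ℕ, ∀ l0 : ℕ, ∃ N : ℕ, ∀ n : ℕ, N ≤ n →
      ∀ l : ℕ, n ≤ l → l ≤ 2 * n → ∀ p : ℝ, p = (2 + ε) * Real.log n / n →
      0 ≤ p ∧ p ≤ 1 ∧
      (∃ l1 : ℕ, l0 ≤ l1 ∧
        (l1 : ℝ) ≤ (1 - θ) * (1 - lam) * (p * l) - (2 * (k1 + 3 * k2) : ℕ) ∧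
        (1 - eta) * (1 + θ) * (p * l) ≤ ρ * l1) ∧
      ∃ t : ℝ, 0 ≤ t ∧
        (n : ℝ) ^ 2 * Real.exp (t * (2 * (k1 + 3 * k2) : ℕ) - p * l * (1 - Real.exp (-t))) +
          2 * (n : ℝ) ^ 3 * (l : ℝ) ^ 4 * p ^ 8 +
          2 * (n : ℝ) ^ 2 * (l * p * (3 * Real.exp (-((1 - eta) * θ ^ 2 * (p * l) / 4)))) ^ k1 +
          2 * (n : ℝ) ^ 2 *
            (l * n * p ^ 2 * (3 * Real.exp (-((1 - lam) * θ ^ 2 * (p * l) / 2)))) ^ k2 ≤ δ := by
  set r : ℝ := (1 - eta) / (1 - lam) with hr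
  have h1lam : 0 < 1 - lam := by linarith
  have h1eta : 0 < 1 - eta := by linarith
  have hr0 : 0 < r := div_pos h1eta h1lam
  have hr1 : r < 1 := (div_lt_one h1lam).2 (by linarith)
  have hreta : 1 - eta = r * (1 - lam) := by rw [hr]; field_simp
  set θ : ℝ := (1 - r) / 5 with hθ
  have hθ0 : 0 < θ := by rw [hθ]; linarith
  have hθ1 : θ < 1 := by rw [hθ]; linarith
  set ρ : ℝ := (1 + r) / 2 with hρ
  have hρ0 : 0 < ρ := by rw [hρ]; linarith
  have hρ1 : ρ < 1 := by rw [hρ]; linarith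
  set c : ℝ := 2 + ε with hc
  have hc0 : 0 < c := by rw [hc]; linarith
  have hc1' : 1 ≤ c := by rw [hc]; linarith
  have hc2pos : 0 < (1 - eta) * θ ^ 2 / 4 * c := by positivity
  have hc1pos : 0 < (1 - lam) * θ ^ 2 / 2 * c := by positivity
  obtain ⟨k1, hk1⟩ := exists_nat_ge (3 / ((1 - eta) * θ ^ 2 / 4 * c))
  obtain ⟨k2, hk2⟩ := exists_nat_ge (3 / ((1 - lam) * θ ^ 2 / 2 * c))
  rw [div_le_iff₀ hc2pos] at hk1
  rw [div_le_iff₀ hc1pos] at hk2
  refine ⟨ρ, θ, hρ0.le, hρ1, hθ0, hθ1, k1, k2, fun l0 => ?_⟩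
  set K : ℕ := 2 * (k1 + 3 * k2) with hK
  -- the slope
  set a : ℝ := (1 - θ) * (1 - lam) with ha
  have ha0 : 0 < a := mul_pos (by linarith) h1lam
  set d : ℝ := ρ * a - (1 - eta) * (1 + θ) with hd
  have hd0 : 0 < d := by
    have e : d = (ρ * (1 - θ) - r * (1 + θ)) * (1 - lam) := by
      rw [hd, ha, hreta]; ring
    rw [e]
    apply mul_pos _ h1lam
    rw [hρ, hθ]
    nlinarith [mul_pos hr0 (sub_pos.2 hr1)]
  -- the number t
  set t : ℝ := Real.log (2 * c / ε) with ht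
  have ht0 : 0 ≤ t := Real.log_nonneg (by rw [le_div_iff₀ hε, hc]; linarith)
  have het : Real.exp (-t) = ε / (2 * c) := by
    rw [Real.exp_neg, ht, Real.exp_log (by positivity), inv_div]
  have het2 : c * (1 - Real.exp (-t)) = 2 + ε / 2 := by
    rw [het, mul_sub, mul_one]
    have : c * (ε / (2 * c)) = ε / 2 := by field_simp
    rw [this, hc]; ring
  have het3 : 0 ≤ 1 - Real.exp (-t) := by
    have : Real.exp (-t) ≤ 1 := Real.exp_le_one_iff.2 (by linarith)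
    linarith
  -- limits
  have hG1 : Filter.Tendsto (fun x : ℝ => Real.exp (t * K) * Real.exp (-(ε / 2 * x)))
      Filter.atTop (nhds 0) := by
    have h1 : Filter.Tendsto (fun x : ℝ => Real.exp (-(ε / 2 * x))) Filter.atTop (nhds 0) :=
      Real.tendsto_exp_neg_atTop_nhds_zero.comp
        (Filter.Tendsto.const_mul_atTop (by positivity) Filter.tendsto_id)
    simpa using h1.const_mul (Real.exp (t * K))
  have hG2 : Filter.Tendsto (fun x : ℝ => 32 * c ^ 8 * (x ^ 8 * Real.exp (-x)))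
      Filter.atTop (nhds 0) := by
    simpa using (Real.tendsto_pow_mul_exp_neg_atTop_nhds_zero 8).const_mul (32 * c ^ 8)
  have hG3 : Filter.Tendsto (fun x : ℝ => 2 * (6 * c) ^ k1 * (x ^ k1 * Real.exp (-x)))
      Filter.atTop (nhds 0) := by
    simpa using (Real.tendsto_pow_mul_exp_neg_atTop_nhds_zero k1).const_mul (2 * (6 * c) ^ k1)
  have hG4 : Filter.Tendsto
      (fun x : ℝ => 2 * (6 * c ^ 2) ^ k2 * (x ^ (2 * k2) * Real.exp (-x)))
      Filter.atTop (nhds 0) := by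
    simpa using (Real.tendsto_pow_mul_exp_neg_atTop_nhds_zero (2 * k2)).const_mul
      (2 * (6 * c ^ 2) ^ k2)
  have hG5 : Filter.Tendsto (fun x : ℝ => c * (x ^ 1 * Real.exp (-x)))
      Filter.atTop (nhds 0) := by
    simpa using (Real.tendsto_pow_mul_exp_neg_atTop_nhds_zero 1).const_mul c
  have hev : ∀ᶠ x : ℝ in Filter.atTop,
      (Real.exp (t * K) * Real.exp (-(ε / 2 * x)) < δ / 4 ∧
        32 * c ^ 8 * (x ^ 8 * Real.exp (-x)) < δ / 4 ∧
        2 * (6 * c) ^ k1 * (x ^ k1 * Real.exp (-x)) < δ / 4 ∧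
        2 * (6 * c ^ 2) ^ k2 * (x ^ (2 * k2) * Real.exp (-x)) < δ / 4 ∧
        c * (x ^ 1 * Real.exp (-x)) < 1) ∧ (0 ≤ x ∧ (K + 1) / d ≤ x ∧ (K + l0) / a ≤ x) :=
    ((hG1.eventually_lt_const (by positivity)).and ((hG2.eventually_lt_const (by positivity)).and
      ((hG3.eventually_lt_const (by positivity)).and ((hG4.eventually_lt_const (by positivity)).and
        (hG5.eventually_lt_const one_pos))))).and
      ((Filter.eventually_ge_atTop 0).and ((Filter.eventually_ge_atTop _).and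
        (Filter.eventually_ge_atTop _)))
  have hev2 := (Real.tendsto_log_atTop.comp tendsto_natCast_atTop_atTop).eventually hev
  obtain ⟨N, hN⟩ := Filter.eventually_atTop.1 (hev2.and (Filter.eventually_ge_atTop 1))
  refine ⟨N, fun n hn l hl1 hl2 p hp => ?_⟩
  obtain ⟨⟨⟨g1, g2, g3, g4, g5⟩, hx0, hx1, hx2⟩, hn1⟩ := hN n hn
  simp only [Function.comp] at g1 g2 g3 g4 g5 hx0 hx1 hx2
  set x : ℝ := Real.log n with hx
  have hn0 : (0 : ℝ) < n := by
    have : 0 < n := by omega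
    exact_mod_cast this
  have hnx : (n : ℝ) = Real.exp x := (Real.exp_log hn0).symm
  have hl1' : (n : ℝ) ≤ l := by exact_mod_cast hl1
  have hl2' : (l : ℝ) ≤ 2 * n := by exact_mod_cast hl2
  have hp0 : 0 ≤ p := by rw [hp]; positivity
  have hpn : p * n = c * x := by rw [hp]; field_simp
  have hm1 : c * x ≤ p * l := by
    rw [← hpn]
    exact mul_le_mul_of_nonneg_left hl1' hp0
  have hm2 : p * l ≤ 2 * (c * x) := by
    rw [← hpn]
    calc p * (l : ℝ) ≤ p * (2 * n) := mul_le_mul_of_nonneg_left hl2' hp0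
      _ = 2 * (p * n) := by ring
  have hxm : x ≤ p * l := by
    refine le_trans ?_ hm1
    nlinarith
  have hm0 : 0 ≤ p * l := hx0.trans hxm
  have hexpx : Real.exp (-x) * n = 1 := by
    rw [hnx, ← Real.exp_add]; simp
  have hp1 : p ≤ 1 := by
    have h1 : p * n ≤ 1 * n := by
      rw [hpn]
      have h2 : c * (x ^ 1 * Real.exp (-x)) * n ≤ 1 * n :=
        mul_le_mul_of_nonneg_right g5.le hn0.le
      calc c * x = c * (x ^ 1 * Real.exp (-x)) * n := by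
            rw [mul_assoc, mul_assoc, hexpx]; ring
        _ ≤ 1 * n := h2
    exact le_of_mul_le_mul_right h1 hn0
  refine ⟨hp0, hp1, ?_, t, ht0, ?_⟩
  · rw [div_le_iff₀ hd0] at hx1
    rw [div_le_iff₀ ha0] at hx2
    have hKm : (K : ℝ) + l0 ≤ a * (p * l) := by
      calc (K : ℝ) + l0 ≤ x * a := hx2
        _ ≤ (p * l) * a := mul_le_mul_of_nonneg_right hxm ha0.le
        _ = a * (p * l) := by ring
    have hl00 : (0 : ℝ) ≤ l0 := by positivity
    refine ⟨⌊a * (p * l) - K⌋₊, ?_, ?_, ?_⟩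
    · apply Nat.le_floor
      linarith
    · exact Nat.floor_le (by linarith)
    · have h1 : a * (p * l) - K - 1 ≤ (⌊a * (p * l) - K⌋₊ : ℝ) := by
        have := Nat.lt_floor_add_one (a * (p * l) - K)
        linarith
      have h2 : ρ * (a * (p * l) - K - 1) ≤ ρ * (⌊a * (p * l) - K⌋₊ : ℝ) :=
        mul_le_mul_of_nonneg_left h1 hρ0.le
      refine le_trans ?_ h2
      have h3 : (K : ℝ) + 1 ≤ d * (p * l) := by
        calc (K : ℝ) + 1 ≤ x * d := hx1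
          _ ≤ (p * l) * d := mul_le_mul_of_nonneg_right hxm hd0.le
          _ = d * (p * l) := by ring
      have h4 : ρ * ((K : ℝ) + 1) ≤ 1 * ((K : ℝ) + 1) :=
        mul_le_mul_of_nonneg_right hρ1.le (by positivity)
      have h5 : d * (p * l) = ρ * (a * (p * l)) - (1 - eta) * (1 + θ) * (p * l) := by
        rw [hd]; ring
      nlinarith
  · -- the four terms
    have T1 : (n : ℝ) ^ 2 * Real.exp (t * (K : ℕ) - p * l * (1 - Real.exp (-t))) ≤
        Real.exp (t * K) * Real.exp (-(ε / 2 * x)) := by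
      have h1 : (2 + ε / 2) * x ≤ p * l * (1 - Real.exp (-t)) := by
        calc (2 + ε / 2) * x = (c * x) * (1 - Real.exp (-t)) := by rw [← het2]; ring
          _ ≤ p * l * (1 - Real.exp (-t)) := mul_le_mul_of_nonneg_right hm1 het3
      rw [hnx, ← Real.exp_nat_mul, ← Real.exp_add, ← Real.exp_add]
      apply Real.exp_le_exp.2
      push_cast
      linarith
    have T2 : 2 * (n : ℝ) ^ 3 * (l : ℝ) ^ 4 * p ^ 8 ≤ 32 * c ^ 8 * (x ^ 8 * Real.exp (-x)) := by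
      have h1 : (l : ℝ) ^ 4 ≤ (2 * n) ^ 4 := pow_le_pow_left₀ (by positivity) hl2' 4
      calc 2 * (n : ℝ) ^ 3 * (l : ℝ) ^ 4 * p ^ 8 ≤ 2 * (n : ℝ) ^ 3 * (2 * n) ^ 4 * p ^ 8 := by
            gcongr
        _ = 32 * (p * n) ^ 7 * p := by ring
        _ = 32 * (p * n) ^ 7 * p * (Real.exp (-x) * n) := by rw [hexpx, mul_one]
        _ = 32 * (p * n) ^ 8 * Real.exp (-x) := by ring
        _ = 32 * c ^ 8 * (x ^ 8 * Real.exp (-x)) := by rw [hpn]; ring
    have T3 : 2 * (n : ℝ) ^ 2 * (l * p * (3 * Real.exp (-((1 - eta) * θ ^ 2 * (p * l) / 4)))) ^ k1 ≤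
        2 * (6 * c) ^ k1 * (x ^ k1 * Real.exp (-x)) := by
      have h1 : Real.exp (-((1 - eta) * θ ^ 2 * (p * l) / 4)) ≤
          Real.exp (-((1 - eta) * θ ^ 2 / 4 * c * x)) := by
        apply Real.exp_le_exp.2
        have : (1 - eta) * θ ^ 2 / 4 * (c * x) ≤ (1 - eta) * θ ^ 2 / 4 * (p * l) :=
          mul_le_mul_of_nonneg_left hm1 (by positivity)
        linarith
      have h2 : (l : ℝ) * p * (3 * Real.exp (-((1 - eta) * θ ^ 2 * (p * l) / 4))) ≤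
          (6 * c * x) * Real.exp (-((1 - eta) * θ ^ 2 / 4 * c * x)) := by
        calc (l : ℝ) * p * (3 * Real.exp (-((1 - eta) * θ ^ 2 * (p * l) / 4)))
            = (p * l) * (3 * Real.exp (-((1 - eta) * θ ^ 2 * (p * l) / 4))) := by ring
          _ ≤ (2 * (c * x)) * (3 * Real.exp (-((1 - eta) * θ ^ 2 / 4 * c * x))) := by
              gcongr
          _ = (6 * c * x) * Real.exp (-((1 - eta) * θ ^ 2 / 4 * c * x)) := by ring
      calc 2 * (n : ℝ) ^ 2 *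
            (l * p * (3 * Real.exp (-((1 - eta) * θ ^ 2 * (p * l) / 4)))) ^ k1
          ≤ 2 * (n : ℝ) ^ 2 * ((6 * c * x) * Real.exp (-((1 - eta) * θ ^ 2 / 4 * c * x))) ^ k1 := by
            apply mul_le_mul_of_nonneg_left _ (by positivity)
            exact pow_le_pow_left₀ (by positivity) h2 k1
        _ = 2 * (6 * c) ^ k1 * x ^ k1 *
            Real.exp (2 * x + k1 * (-((1 - eta) * θ ^ 2 / 4 * c * x))) := by
            rw [Real.exp_add, Real.exp_nat_mul, mul_pow, mul_pow]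
            have : Real.exp (2 * x) = (n : ℝ) ^ 2 := by
              rw [hnx, ← Real.exp_nat_mul]; norm_num
            rw [this]
            ring
        _ ≤ 2 * (6 * c) ^ k1 * x ^ k1 * Real.exp (-x) := by
            apply mul_le_mul_of_nonneg_left _ (by positivity)
            apply Real.exp_le_exp.2
            have : 3 * x ≤ k1 * ((1 - eta) * θ ^ 2 / 4 * c) * x :=
              mul_le_mul_of_nonneg_right hk1 hx0
            linarith
        _ = 2 * (6 * c) ^ k1 * (x ^ k1 * Real.exp (-x)) := by ring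
    have T4 : 2 * (n : ℝ) ^ 2 *
        (l * n * p ^ 2 * (3 * Real.exp (-((1 - lam) * θ ^ 2 * (p * l) / 2)))) ^ k2 ≤
        2 * (6 * c ^ 2) ^ k2 * (x ^ (2 * k2) * Real.exp (-x)) := by
      have h1 : Real.exp (-((1 - lam) * θ ^ 2 * (p * l) / 2)) ≤
          Real.exp (-((1 - lam) * θ ^ 2 / 2 * c * x)) := by
        apply Real.exp_le_exp.2
        have : (1 - lam) * θ ^ 2 / 2 * (c * x) ≤ (1 - lam) * θ ^ 2 / 2 * (p * l) :=
          mul_le_mul_of_nonneg_left hm1 (by positivity)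
        linarith
      have h2 : (l : ℝ) * n * p ^ 2 * (3 * Real.exp (-((1 - lam) * θ ^ 2 * (p * l) / 2))) ≤
          (6 * c ^ 2 * x ^ 2) * Real.exp (-((1 - lam) * θ ^ 2 / 2 * c * x)) := by
        calc (l : ℝ) * n * p ^ 2 * (3 * Real.exp (-((1 - lam) * θ ^ 2 * (p * l) / 2)))
            = (p * l) * (p * n) * (3 * Real.exp (-((1 - lam) * θ ^ 2 * (p * l) / 2))) := by ring
          _ = (p * l) * (c * x) * (3 * Real.exp (-((1 - lam) * θ ^ 2 * (p * l) / 2))) := by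
              rw [hpn]
          _ ≤ (2 * (c * x)) * (c * x) * (3 * Real.exp (-((1 - lam) * θ ^ 2 / 2 * c * x))) := by
              gcongr
          _ = (6 * c ^ 2 * x ^ 2) * Real.exp (-((1 - lam) * θ ^ 2 / 2 * c * x)) := by ring
      calc 2 * (n : ℝ) ^ 2 *
            (l * n * p ^ 2 * (3 * Real.exp (-((1 - lam) * θ ^ 2 * (p * l) / 2)))) ^ k2
          ≤ 2 * (n : ℝ) ^ 2 *
            ((6 * c ^ 2 * x ^ 2) * Real.exp (-((1 - lam) * θ ^ 2 / 2 * c * x))) ^ k2 := by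
            apply mul_le_mul_of_nonneg_left _ (by positivity)
            exact pow_le_pow_left₀ (by positivity) h2 k2
        _ = 2 * (6 * c ^ 2) ^ k2 * x ^ (2 * k2) *
            Real.exp (2 * x + k2 * (-((1 - lam) * θ ^ 2 / 2 * c * x))) := by
            rw [Real.exp_add, Real.exp_nat_mul, mul_pow, mul_pow, ← pow_mul]
            have : Real.exp (2 * x) = (n : ℝ) ^ 2 := by
              rw [hnx, ← Real.exp_nat_mul]; norm_num
            rw [this]
            ring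
        _ ≤ 2 * (6 * c ^ 2) ^ k2 * x ^ (2 * k2) * Real.exp (-x) := by
            apply mul_le_mul_of_nonneg_left _ (by positivity)
            apply Real.exp_le_exp.2
            have : 3 * x ≤ k2 * ((1 - lam) * θ ^ 2 / 2 * c) * x :=
              mul_le_mul_of_nonneg_right hk2 hx0
            linarith
        _ = 2 * (6 * c ^ 2) ^ k2 * (x ^ (2 * k2) * Real.exp (-x)) := by ring
    linarith

end Pool.Agent.H70.KS
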