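import Pool.Agent.H70.KS.P14

/-!
# Job KS-15: the probability of `E2`

All lists have exactly `l` elements.

Union bound over the pairs `(e, v)`, `Inc v e` (`2 n ^ 2` pairs, since every edge has two ends) and over the
sets `T ⊆ L e` with `T.card = k` and `deg univ L v c ≤ D` for `c ∈ T` (at most `l ^ k` sets).
For fixed `e`, `v`, `T` and `c ∈ T` let `W c` be the pairs `(f, c)` with `Inc v f`,
`c ∈ L f`, `f ≠ e`; it has at most `D` elements.  If `(e, c) ∈ S` and `Heavy v c` then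
`b - 1 < (S ∩ W c).card`.  The sets `insert (e, c) (W c)` (`c ∈ T`) are pairwise disjoint, so by
`Bp_prod` the probability is at most `∏ c ∈ T, p * q2 = (p q2) ^ k`.
-/

namespace Pool.Agent.H70.KS

open Finset Classical

section generic

variable {A B C X ι : Type} {q : ℝ}

private theorem deg_le_of {E : Finset (A × B)} {L : A × B → Finset C} {v : A ⊕ B} {c : C}
    {S : Finset (A × B)} (h : ∀ f ∈ E, Inc v f → c ∈ L f → f ∈ S) : deg E L v c ≤ S.card := by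
  unfold deg
  refine Finset.card_le_card fun f hf => ?_
  rw [Finset.mem_filter] at hf
  exact h f hf.1 hf.2.1 hf.2.2

private theorem le_deg_of {E : Finset (A × B)} {L : A × B → Finset C} {v : A ⊕ B} {c : C}
    {S : Finset (A × B)} (h : ∀ f ∈ S, f ∈ E ∧ Inc v f ∧ c ∈ L f) : S.card ≤ deg E L v c := by
  unfold deg
  refine Finset.card_le_card fun f hf => ?_
  rw [Finset.mem_filter]
  exact h f hf

private theorem Bp_ins {a : X} {W : Finset X} (ha : a ∉ W) {P F : Finset X → Prop}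
    (h1 : ∀ S, S ⊆ W → ¬ P S) (h2 : ∀ S, S ⊆ W → (P (insert a S) ↔ F S)) :
    Bp q (insert a W) P = q * Bp q W F := by
  rw [Bp_eq_Bx, Bx_insert ha, Bp_eq_Bx]
  have e1 : Bx q W (fun S => if P S then (1 : ℝ) else 0) = 0 := by
    unfold Bx
    refine Finset.sum_eq_zero fun S hS => ?_
    simp [h1 S (Finset.mem_powerset.1 hS)]
  have e2 : Bx q W (fun S => if P (insert a S) then (1 : ℝ) else 0) =
      Bx q W (fun S => if F S then 1 else 0) := by
    unfold Bx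
    refine Finset.sum_congr rfl fun S hS => ?_
    simp [h2 S (Finset.mem_powerset.1 hS)]
  rw [e1, e2, mul_zero, zero_add]

private theorem Bp_gen (h0 : 0 ≤ q) (h1 : q ≤ 1) {U : Finset X} (T : Finset ι) (a : ι → X)
    (W : ι → Finset X) {q2 t : ℝ} (hW : ∀ i ∈ T, W i ⊆ U) (haU : ∀ i ∈ T, a i ∈ U)
    (haW : ∀ i ∈ T, a i ∉ W i)
    (hd : ∀ i ∈ T, ∀ j ∈ T, i ≠ j → a i ≠ a j ∧ a i ∉ W j ∧ a j ∉ W i ∧ Disjoint (W i) (W j))
    (hq : ∀ i ∈ T, Bp q (W i) (fun S => t < (S.card : ℝ)) ≤ q2) :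
    Bp q U (fun S => ∀ i ∈ T, a i ∈ S ∧ ∃ V : Finset X, V ⊆ S ∧ V ⊆ W i ∧ t < (V.card : ℝ)) ≤
      (q * q2) ^ T.card := by
  have e1 := Bp_prod (p := q) (U := U) T (fun i => insert (a i) (W i))
    (fun i R => a i ∈ R ∧ t < (((R ∩ W i).card : ℕ) : ℝ)) (fun i hi =>
      Finset.insert_subset (haU i hi) (hW i hi)) (by
    intro i hi j hj hij
    obtain ⟨k1, k2, k3, k4⟩ := hd i hi j hj hij
    rw [Finset.disjoint_insert_left, Finset.disjoint_insert_right, Finset.mem_insert, not_or]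
    exact ⟨⟨k1, k2⟩, k3, k4⟩)
  refine le_trans (Bp_mono h0 h1 fun S _ hS i hi => ?_) (le_trans (le_of_eq e1) ?_)
  · obtain ⟨k1, V, k2, k3, k4⟩ := hS i hi
    refine ⟨Finset.mem_inter.2 ⟨k1, Finset.mem_insert_self _ _⟩, lt_of_lt_of_le k4 ?_⟩
    have k5 : V ⊆ S ∩ insert (a i) (W i) ∩ W i := fun y hy =>
      Finset.mem_inter.2 ⟨Finset.mem_inter.2 ⟨k2 hy, Finset.mem_insert_of_mem (k3 hy)⟩, k3 hy⟩
    exact_mod_cast Finset.card_le_card k5
  · rw [← Finset.prod_const]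
    refine Finset.prod_le_prod (fun i _ => Bp_nonneg h0 h1 _ _) fun i hi => ?_
    rw [Bp_ins (haW i hi) (F := fun S => t < (S.card : ℝ)) (fun S hS h => haW i hi (hS h.1))
      (fun S hS => ?_)]
    · exact mul_le_mul_of_nonneg_left (hq i hi) h0
    · have k1 : insert (a i) S ∩ W i = S := by
        rw [Finset.insert_inter_of_notMem (haW i hi), Finset.inter_eq_left.2 hS]
      rw [k1]
      exact ⟨fun h => h.2, fun h => ⟨Finset.mem_insert_self _ _, h⟩⟩

end generic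

variable {n l : ℕ} {L : Fin n × Fin n → Finset ℕ} {p : ℝ}

/-- The pairs `(f, c)` with `f ≠ e` at `v` and `c` in the list of `f`. -/
private noncomputable def WW (L : Fin n × Fin n → Finset ℕ) (e : Fin n × Fin n)
    (v : Fin n ⊕ Fin n) (c : ℕ) : Finset ((Fin n × Fin n) × ℕ) :=
  (univ.filter fun f => f ≠ e ∧ Inc v f ∧ c ∈ L f).image fun f => (f, c)

private theorem mem_WW {e f : Fin n × Fin n} {v : Fin n ⊕ Fin n} {c d : ℕ} :
    (f, d) ∈ WW L e v c ↔ d = c ∧ f ≠ e ∧ Inc v f ∧ c ∈ L f := by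
  simp only [WW, Finset.mem_image, Finset.mem_filter, Finset.mem_univ, true_and, Prod.mk.injEq]
  constructor
  · rintro ⟨g, hg, rfl, rfl⟩
    exact ⟨rfl, hg⟩
  · rintro ⟨rfl, hg⟩
    exact ⟨f, hg, rfl, rfl⟩

private theorem card_WW (e : Fin n × Fin n) (v : Fin n ⊕ Fin n) (c : ℕ) :
    (WW L e v c).card ≤ deg univ L v c := by
  refine Finset.card_image_le.trans (le_deg_of fun f hf => ?_)
  rw [Finset.mem_filter] at hf
  exact ⟨hf.1, hf.2.2⟩

private theorem deg_le_WW (S : Finset ((Fin n × Fin n) × ℕ)) (e : Fin n × Fin n)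
    (v : Fin n ⊕ Fin n) (c : ℕ) :
    deg univ (lst L S) v c ≤ ((WW L e v c).filter fun y => y ∈ S).card + 1 := by
  have h0 : deg univ (lst L S) v c ≤
      (insert e (((WW L e v c).filter fun y => y ∈ S).image Prod.fst)).card := by
    refine deg_le_of fun f _ h1 h2 => ?_
    have h3 := mem_lst.1 h2
    rw [Finset.mem_insert]
    by_cases hfe : f = e
    · exact Or.inl hfe
    · right
      rw [Finset.mem_image]
      exact ⟨(f, c), Finset.mem_filter.2 ⟨mem_WW.2 ⟨rfl, hfe, h1, h3.1⟩, h3.2⟩, rfl⟩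
  exact h0.trans ((Finset.card_insert_le _ _).trans (Nat.add_le_add_right Finset.card_image_le 1))

/-- The pairs (edge, end of the edge). -/
private noncomputable def PP (n : ℕ) : Finset ((Fin n × Fin n) × (Fin n ⊕ Fin n)) :=
  univ.filter fun x => Inc x.2 x.1

private theorem card_PP (n : ℕ) : ((PP n).card : ℝ) ≤ 2 * (n : ℝ) ^ 2 := by
  have h1 : PP n ⊆ (univ : Finset ((Fin n × Fin n) × Bool)).image
      (fun y => (y.1, if y.2 then Sum.inl y.1.1 else Sum.inr y.1.2)) := by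
    intro x hx
    rw [PP, Finset.mem_filter] at hx
    rw [Finset.mem_image]
    obtain ⟨e, v⟩ := x
    rcases v with v | v
    · refine ⟨(e, true), Finset.mem_univ _, ?_⟩
      have : e.1 = v := hx.2
      simp [this]
    · refine ⟨(e, false), Finset.mem_univ _, ?_⟩
      have : e.2 = v := hx.2
      simp [this]
  have h2 := (Finset.card_le_card h1).trans Finset.card_image_le
  rw [Finset.card_univ, Fintype.card_prod, Fintype.card_prod, Fintype.card_fin,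
    Fintype.card_bool] at h2
  calc ((PP n).card : ℝ) ≤ ((n * n * 2 : ℕ) : ℝ) := by exact_mod_cast h2
    _ = 2 * (n : ℝ) ^ 2 := by push_cast; ring

theorem Bp_E2 (h0 : 0 ≤ p) (h1 : p ≤ 1) (hL : ∀ e, (L e).card = l) {D b q2 : ℝ} (hD : 0 ≤ D)
    (hq2 : ∀ W : Finset ((Fin n × Fin n) × ℕ), (W.card : ℝ) ≤ D →
      Bp p W (fun S => b - 1 < (S.card : ℝ)) ≤ q2) (k : ℕ) :
    Bp p (US L) (E2 L D b k) ≤ 2 * (n : ℝ) ^ 2 * (l * p * q2) ^ k := by
  have hq0 : 0 ≤ q2 := (Bp_nonneg h0 h1 ∅ _).trans (hq2 ∅ (by simpa using hD))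
  -- the sets of colours
  obtain ⟨TT, hTT⟩ : ∃ TT : (Fin n × Fin n) × (Fin n ⊕ Fin n) → Finset (Finset ℕ), ∀ x T,
      T ∈ TT x ↔ (T ⊆ L x.1 ∧ T.card = k) ∧ ∀ c ∈ T, (deg univ L x.2 c : ℝ) ≤ D :=
    ⟨fun x => ((L x.1).powersetCard k).filter fun T => ∀ c ∈ T, (deg univ L x.2 c : ℝ) ≤ D,
      fun x T => by rw [Finset.mem_filter, Finset.mem_powersetCard]⟩
  obtain ⟨G, hG⟩ : ∃ G : (Fin n × Fin n) × (Fin n ⊕ Fin n) → Finset ℕ →
      Finset ((Fin n × Fin n) × ℕ) → Prop, ∀ x T, G x T = fun S => ∀ c ∈ T, (x.1, c) ∈ S ∧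
        ∃ V : Finset ((Fin n × Fin n) × ℕ), V ⊆ S ∧ V ⊆ WW L x.1 x.2 c ∧
          b - 1 < (V.card : ℝ) := ⟨_, fun _ _ => rfl⟩
  have hsub : ∀ S, S ⊆ US L → E2 L D b k S → ∃ x ∈ PP n, ∃ T ∈ TT x, G x T S := by
    rintro S - ⟨e, v, hev, T, hT, hTk, hTc⟩
    refine ⟨(e, v), ?_, T, ?_, ?_⟩
    · rw [PP, Finset.mem_filter]
      exact ⟨Finset.mem_univ _, hev⟩
    · rw [hTT]
      exact ⟨⟨fun c hc => (mem_lst.1 (hT hc)).1, hTk⟩, fun c hc => (hTc c hc).1⟩
    · rw [hG]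
      intro c hc
      refine ⟨(mem_lst.1 (hT hc)).2, (WW L e v c).filter fun y => y ∈ S, fun y hy =>
        (Finset.mem_filter.1 hy).2, Finset.filter_subset _ _, ?_⟩
      have h4 : b < (deg univ (lst L S) v c : ℝ) := (hTc c hc).2
      have h5 : (deg univ (lst L S) v c : ℝ) ≤
          (((WW L e v c).filter fun y => y ∈ S).card : ℝ) + 1 := by
        exact_mod_cast deg_le_WW S e v c
      linarith
  have hG1 : ∀ x ∈ PP n, ∀ T ∈ TT x, Bp p (US L) (G x T) ≤ (p * q2) ^ k := by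
    intro x hx T hT
    rw [hTT] at hT
    obtain ⟨⟨hT1, hT2⟩, hT3⟩ := hT
    rw [hG, ← hT2]
    refine Bp_gen h0 h1 T (fun c => (x.1, c)) (fun c => WW L x.1 x.2 c) ?_ ?_ ?_ ?_ ?_
    · rintro c - ⟨f, d⟩ hy
      rw [mem_WW] at hy
      rw [mem_US, hy.1]
      exact hy.2.2.2
    · intro c hc
      exact mem_US.2 (hT1 hc)
    · intro c _ h
      exact (mem_WW.1 h).2.1 rfl
    · intro c _ d _ hcd
      refine ⟨fun h => hcd (Prod.mk.inj h).2, fun h => hcd (mem_WW.1 h).1,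
        fun h => hcd (mem_WW.1 h).1.symm, ?_⟩
      rw [Finset.disjoint_left]
      rintro ⟨f, g⟩ hy hy'
      exact hcd ((mem_WW.1 hy).1.symm.trans (mem_WW.1 hy').1)
    · intro c hc
      exact hq2 _ (le_trans (by exact_mod_cast card_WW x.1 x.2 c) (hT3 c hc))
  have hTTc : ∀ x, ((TT x).card : ℝ) ≤ (l : ℝ) ^ k := by
    intro x
    have h3 : TT x ⊆ (L x.1).powersetCard k := fun T hT =>
      Finset.mem_powersetCard.2 ((hTT x T).1 hT).1
    have h2 : (TT x).card ≤ l ^ k := by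
      refine (Finset.card_le_card h3).trans ?_
      rw [Finset.card_powersetCard, hL]
      exact Nat.choose_le_pow l k
    exact_mod_cast h2
  have hpq : 0 ≤ (p * q2) ^ k := pow_nonneg (mul_nonneg h0 hq0) k
  calc Bp p (US L) (E2 L D b k)
      ≤ Bp p (US L) (fun S => ∃ x ∈ PP n, ∃ T ∈ TT x, G x T S) := Bp_mono h0 h1 hsub
    _ ≤ ∑ x ∈ PP n, Bp p (US L) (fun S => ∃ T ∈ TT x, G x T S) :=
        Bp_exists h0 h1 _ _ _
    _ ≤ ∑ x ∈ PP n, (l : ℝ) ^ k * (p * q2) ^ k := by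
        refine Finset.sum_le_sum fun x hx => ?_
        calc Bp p (US L) (fun S => ∃ T ∈ TT x, G x T S)
            ≤ ∑ T ∈ TT x, Bp p (US L) (G x T) := Bp_exists h0 h1 _ _ _
          _ ≤ ∑ T ∈ TT x, (p * q2) ^ k := Finset.sum_le_sum fun T hT => hG1 x hx T hT
          _ = (TT x).card * (p * q2) ^ k := by rw [Finset.sum_const, nsmul_eq_mul]
          _ ≤ (l : ℝ) ^ k * (p * q2) ^ k := mul_le_mul_of_nonneg_right (hTTc x) hpq
    _ = (PP n).card * ((l : ℝ) ^ k * (p * q2) ^ k) := by rw [Finset.sum_const, nsmul_eq_mul]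
    _ ≤ 2 * (n : ℝ) ^ 2 * ((l : ℝ) ^ k * (p * q2) ^ k) :=
        mul_le_mul_of_nonneg_right (card_PP n) (mul_nonneg (pow_nonneg (Nat.cast_nonneg l) k) hpq)
    _ = 2 * (n : ℝ) ^ 2 * (l * p * q2) ^ k := by
        rw [← mul_pow, mul_assoc (l : ℝ) p q2]

end Pool.Agent.H70.KS
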