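import Pool.Agent.H70.KS.P14

/-!
# Job KS-16: the probability of `E3`

Fill the sorry; all lists have exactly `l` elements.

Union bound over the pairs `(e, v)`, `Inc v e` (`2 n ^ 2` pairs), over the sets `T ⊆ L e` with `T.card = k` (at most
`l ^ k` sets: `Finset.card_powersetCard`, `Nat.choose_le_pow`) and over the maps
`g : T → {f | Inc v f}` (`n ^ k` maps: there are `n` edges `f` with `Inc v f`; use a finite type of maps such as
`T → Fin n` together with the `i`-th edge at `v`, or `Finset.pi`; only the values of `g` on `T` matter in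
`E3`).  Only maps which are injective on `T`, with `g c ≠ e` and `c ∈ L (g c)`, contribute.

For fixed `e`, `v`, `T`, `g` and `c ∈ T` let `W c = ((Lt L D (g c)).erase c).image (Prod.mk (g c))`; it has at
least `(1 - lam) l - 1` elements (`hLt`).  If `Poor (g c)` then `(S ∩ W c).card < a`.  So the event is
contained in: for all `c ∈ T`: `(e, c) ∈ S`, `(g c, c) ∈ S`, `(S ∩ W c).card < a`.  The sets `{(e, c)}`,
`{(g c, c)}`, `W c` (`c ∈ T`) are pairwise disjoint (`g` is injective on `T`, `g c ≠ e`) subsets of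
`US L`, so by `Bp_prod` the probability is at most `∏ c ∈ T, p * p * q1 = (p ^ 2 q1) ^ k`.
(Instead of three sets for every `c` one can use `W' c = insert (e, c) (insert (g c, c) (W c))` and `Bp_prod` once
more inside `W' c`.)  Total: `2 n ^ 2 * l ^ k * n ^ k * (p ^ 2 q1) ^ k`.
(`q1 ≥ 0`: from `hq1` for a large set `W` and `Bp_nonneg`, or from the estimate itself.)
-/

namespace Pool.Agent.H70.KS

open Finset Classical

variable {n l : ℕ} {L : Fin n × Fin n → Finset ℕ} {p : ℝ}

/-- The pairs (edge `f`, light colour of `f` different from `c0`). -/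
private noncomputable def P3_W (L : Fin n × Fin n → Finset ℕ) (D : ℝ) (f : Fin n × Fin n)
    (c0 : ℕ) : Finset ((Fin n × Fin n) × ℕ) :=
  ((Lt L D f).erase c0).image (Prod.mk f)

private theorem P3_mem_W {D : ℝ} {f : Fin n × Fin n} {c0 : ℕ} {x : (Fin n × Fin n) × ℕ}
    (h : x ∈ P3_W L D f c0) : x.1 = f ∧ x.2 ≠ c0 ∧ x.2 ∈ Lt L D f := by
  obtain ⟨c, hc, rfl⟩ := Finset.mem_image.1 h
  rw [Finset.mem_erase] at hc
  exact ⟨rfl, hc.1, hc.2⟩

private theorem P3_W_subset (D : ℝ) (f : Fin n × Fin n) (c0 : ℕ) : P3_W L D f c0 ⊆ US L := by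
  intro x hx
  obtain ⟨h1, -, h3⟩ := P3_mem_W hx
  obtain ⟨x1, x2⟩ := x
  rw [mem_US]
  have h4 := (Finset.mem_filter.1 h3).1
  simp only at h1 h4
  rwa [h1]

private theorem P3_W_card (D : ℝ) (f : Fin n × Fin n) (c0 : ℕ) :
    ((Lt L D f).card : ℝ) - 1 ≤ ((P3_W L D f c0).card : ℝ) := by
  have h1 : (P3_W L D f c0).card = ((Lt L D f).erase c0).card :=
    Finset.card_image_of_injective _ (Prod.mk_right_injective f)
  have h2 : (Lt L D f).card ≤ ((Lt L D f).erase c0).card + 1 := by
    have := Finset.pred_card_le_card_erase (s := Lt L D f) (a := c0)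
    omega
  rw [h1]
  have h3 : ((Lt L D f).card : ℝ) ≤ (((Lt L D f).erase c0).card : ℝ) + 1 := by exact_mod_cast h2
  linarith

private theorem P3_card_le (D : ℝ) (S : Finset ((Fin n × Fin n) × ℕ)) (f : Fin n × Fin n)
    (c0 : ℕ) :
    (S ∩ P3_W L D f c0).card ≤ ((Lt L D f).filter fun c => (f, c) ∈ S).card := by
  refine Finset.card_le_card_of_injOn Prod.snd ?_ ?_
  · intro x hx
    have hx' := Finset.mem_inter.1 hx
    obtain ⟨h1, h2, h3⟩ := P3_mem_W hx'.2
    obtain ⟨x1, x2⟩ := x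
    simp only at h1 h3
    subst h1
    exact Finset.mem_coe.2 (Finset.mem_filter.2 ⟨h3, hx'.1⟩)
  · intro x hx y hy hxy
    have h1 := (P3_mem_W (Finset.mem_inter.1 hx).2).1
    have h2 := (P3_mem_W (Finset.mem_inter.1 hy).2).1
    exact Prod.ext (h1.trans h2.symm) hxy

private theorem P3_star (v : Fin n ⊕ Fin n) :
    (univ.filter fun e : Fin n × Fin n => Inc v e).card = n := by
  rcases v with v | v
  · have h : (univ.filter fun e : Fin n × Fin n => Inc (Sum.inl v) e) =
        univ.image fun b : Fin n => (v, b) := by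
      ext e
      rw [Finset.mem_filter, Finset.mem_image]
      simp only [Finset.mem_univ, true_and, Inc, Sum.elim_inl]
      constructor
      · intro h
        exact ⟨e.2, by rw [← h]⟩
      · rintro ⟨b, rfl⟩
        rfl
    rw [h, Finset.card_image_of_injective _ (Prod.mk_right_injective v), Finset.card_univ,
      Fintype.card_fin]
  · have h : (univ.filter fun e : Fin n × Fin n => Inc (Sum.inr v) e) =
        univ.image fun b : Fin n => (b, v) := by
      ext e
      rw [Finset.mem_filter, Finset.mem_image]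
      simp only [Finset.mem_univ, true_and, Inc, Sum.elim_inr]
      constructor
      · intro h
        exact ⟨e.1, by rw [← h]⟩
      · rintro ⟨b, rfl⟩
        rfl
    rw [h, Finset.card_image_of_injective _ (Prod.mk_left_injective v), Finset.card_univ,
      Fintype.card_fin]

private theorem P3_ends (e : Fin n × Fin n) :
    (univ.filter fun v : Fin n ⊕ Fin n => Inc v e).card ≤ 2 := by
  have h : (univ.filter fun v : Fin n ⊕ Fin n => Inc v e) ⊆ {Sum.inl e.1, Sum.inr e.2} := by
    intro v hv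
    have h1 := (Finset.mem_filter.1 hv).2
    rcases v with v | v
    · simp only [Inc, Sum.elim_inl] at h1
      simp [h1]
    · simp only [Inc, Sum.elim_inr] at h1
      simp [h1]
  exact (Finset.card_le_card h).trans Finset.card_le_two

/-- The event for a fixed edge `e`, colours `κ` and edges `φ`. -/
private def P3_F (L : Fin n × Fin n → Finset ℕ) (D a : ℝ) {k : ℕ} (e : Fin n × Fin n)
    (κ : Fin k → ℕ) (φ : Fin k → Fin n × Fin n) (S : Finset ((Fin n × Fin n) × ℕ)) : Prop :=
  (Function.Injective κ ∧ Function.Injective φ ∧ ∀ i, φ i ≠ e ∧ κ i ∈ L e ∧ κ i ∈ L (φ i)) ∧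
    ∀ i, (e, κ i) ∈ S ∧ (φ i, κ i) ∈ S ∧ ((S ∩ P3_W L D (φ i) (κ i)).card : ℝ) < a

private theorem P3_false {X : Type} (U : Finset X) : Bp p U (fun _ => False) = 0 := by
  unfold Bp
  refine Finset.sum_eq_zero fun S hS => ?_
  simp at hS

private noncomputable def P3_V (L : Fin n × Fin n → Finset ℕ) (D : ℝ) {k : ℕ}
    (e : Fin n × Fin n) (κ : Fin k → ℕ) (φ : Fin k → Fin n × Fin n) (x : Fin k × Fin 3) :
    Finset ((Fin n × Fin n) × ℕ) :=
  if x.2 = 0 then {(e, κ x.1)} else if x.2 = 1 then {(φ x.1, κ x.1)} else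
    P3_W L D (φ x.1) (κ x.1)

private def P3_G (a : ℝ) {k : ℕ} (e : Fin n × Fin n) (κ : Fin k → ℕ)
    (φ : Fin k → Fin n × Fin n) (x : Fin k × Fin 3) (S : Finset ((Fin n × Fin n) × ℕ)) : Prop :=
  if x.2 = 0 then ({(e, κ x.1)} : Finset ((Fin n × Fin n) × ℕ)) ⊆ S else
    if x.2 = 1 then ({(φ x.1, κ x.1)} : Finset ((Fin n × Fin n) × ℕ)) ⊆ S else (S.card : ℝ) < a

private theorem P3_bound (h0 : 0 ≤ p) (h1 : p ≤ 1) {D a q1 lam : ℝ}
    (hLt : ∀ e, (1 - lam) * l ≤ ((Lt L D e).card : ℝ)) (hq10 : 0 ≤ q1)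
    (hq1 : ∀ W : Finset ((Fin n × Fin n) × ℕ), (1 - lam) * l - 1 ≤ (W.card : ℝ) →
      Bp p W (fun S => (S.card : ℝ) < a) ≤ q1) {k : ℕ} (e : Fin n × Fin n)
    (κ : Fin k → ℕ) (φ : Fin k → Fin n × Fin n) :
    Bp p (US L) (P3_F L D a e κ φ) ≤ (p ^ 2 * q1) ^ k := by
  by_cases hdet : Function.Injective κ ∧ Function.Injective φ ∧
      ∀ i, φ i ≠ e ∧ κ i ∈ L e ∧ κ i ∈ L (φ i)
  swap
  · have h2 : Bp p (US L) (P3_F L D a e κ φ) ≤ Bp p (US L) (fun _ => False) :=
      Bp_mono h0 h1 (fun S _ h => hdet h.1)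
    rw [P3_false] at h2
    exact h2.trans (pow_nonneg (mul_nonneg (sq_nonneg p) hq10) k)
  obtain ⟨hκ, hφ, hdet⟩ := hdet
  have hfst : ∀ x : Fin k × Fin 3, ∀ y ∈ P3_V L D e κ φ x,
      y.1 = if x.2 = 0 then e else φ x.1 := by
    intro x y hy
    unfold P3_V at hy
    split_ifs at hy ⊢ with h2 h3
    · rw [Finset.mem_singleton] at hy
      rw [hy]
    · rw [Finset.mem_singleton] at hy
      rw [hy]
    · exact (P3_mem_W hy).1
  have hdisj : ∀ x ∈ (univ : Finset (Fin k × Fin 3)), ∀ y ∈ (univ : Finset (Fin k × Fin 3)),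
      x ≠ y → Disjoint (P3_V L D e κ φ x) (P3_V L D e κ φ y) := by
    intro x _ y _ hxy
    rw [Finset.disjoint_left]
    intro z hzx hzy
    have h2 := hfst x z hzx
    have h3 := hfst y z hzy
    rw [h2] at h3
    obtain ⟨i, j⟩ := x
    obtain ⟨i', j'⟩ := y
    simp only at h3
    by_cases hj : j = 0
    · by_cases hj' : j' = 0
      · subst hj
        subst hj'
        simp only [P3_V, if_true, Finset.mem_singleton] at hzx hzy
        have h4 : κ i = κ i' := by
          rw [hzx] at hzy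
          exact (Prod.mk.inj hzy).2
        exact hxy (by rw [hκ h4])
      · rw [if_pos hj, if_neg hj'] at h3
        exact (hdet i').1 h3.symm
    · by_cases hj' : j' = 0
      · rw [if_neg hj, if_pos hj'] at h3
        exact (hdet i).1 h3
      · rw [if_neg hj, if_neg hj'] at h3
        have h4 : i = i' := hφ h3
        subst h4
        simp only [P3_V, if_neg hj, if_neg hj'] at hzx hzy
        by_cases hj1 : j = 1
        · by_cases hj1' : j' = 1
          · exact hxy (by rw [hj1, hj1'])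
          · rw [if_pos hj1, Finset.mem_singleton] at hzx
            rw [if_neg hj1'] at hzy
            exact (P3_mem_W hzy).2.1 (by rw [hzx])
        · by_cases hj1' : j' = 1
          · rw [if_neg hj1] at hzx
            rw [if_pos hj1', Finset.mem_singleton] at hzy
            exact (P3_mem_W hzx).2.1 (by rw [hzy])
          · have h5 : j = j' := by
              omega
            exact hxy (by rw [h5])
  have hsub : ∀ x ∈ (univ : Finset (Fin k × Fin 3)), P3_V L D e κ φ x ⊆ US L := by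
    intro x _
    unfold P3_V
    split_ifs
    · rw [Finset.singleton_subset_iff, mem_US]
      exact (hdet x.1).2.1
    · rw [Finset.singleton_subset_iff, mem_US]
      exact (hdet x.1).2.2
    · exact P3_W_subset _ _ _
  have hprod := Bp_prod (p := p) (univ : Finset (Fin k × Fin 3)) (P3_V L D e κ φ)
    (P3_G a e κ φ) hsub hdisj
  have hle : Bp p (US L) (P3_F L D a e κ φ) ≤
      ∏ x : Fin k × Fin 3, Bp p (P3_V L D e κ φ x) (P3_G a e κ φ x) := by
    rw [← hprod]
    refine Bp_mono h0 h1 ?_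
    rintro S - ⟨-, hS⟩ x -
    unfold P3_G P3_V
    split_ifs
    · intro y hy
      simp only [Finset.mem_inter]
      refine ⟨?_, hy⟩
      rw [Finset.mem_singleton.1 hy]
      exact (hS x.1).1
    · intro y hy
      simp only [Finset.mem_inter]
      refine ⟨?_, hy⟩
      rw [Finset.mem_singleton.1 hy]
      exact (hS x.1).2.1
    · refine lt_of_le_of_lt ?_ (hS x.1).2.2
      refine Nat.cast_le.2 (Finset.card_le_card ?_)
      intro y hy
      simp only [Finset.mem_inter] at hy ⊢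
      exact hy
  refine hle.trans ?_
  rw [Fintype.prod_prod_type]
  have hfac : ∀ i : Fin k, ∏ j : Fin 3, Bp p (P3_V L D e κ φ (i, j)) (P3_G a e κ φ (i, j)) ≤
      p ^ 2 * q1 := by
    intro i
    rw [Fin.prod_univ_three]
    have e0 : Bp p (P3_V L D e κ φ (i, 0)) (P3_G a e κ φ (i, 0)) = p := by
      have h2 := Bp_subset (p := p) (Finset.Subset.refl ({(e, κ i)} : Finset _))
      rw [Finset.card_singleton, pow_one] at h2
      exact h2
    have e1 : Bp p (P3_V L D e κ φ (i, 1)) (P3_G a e κ φ (i, 1)) = p := by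
      have h2 := Bp_subset (p := p) (Finset.Subset.refl ({(φ i, κ i)} : Finset _))
      rw [Finset.card_singleton, pow_one] at h2
      exact h2
    have e2 : Bp p (P3_V L D e κ φ (i, 2)) (P3_G a e κ φ (i, 2)) ≤ q1 := by
      have h2 := hq1 (P3_W L D (φ i) (κ i)) (by
        have h3 := P3_W_card (L := L) D (φ i) (κ i)
        have h4 := hLt (φ i)
        linarith)
      exact h2
    rw [e0, e1, sq]
    exact mul_le_mul_of_nonneg_left e2 (mul_nonneg h0 h0)
  have hnn : ∀ i : Fin k, 0 ≤ ∏ j : Fin 3, Bp p (P3_V L D e κ φ (i, j)) (P3_G a e κ φ (i, j)) :=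
    fun i => Finset.prod_nonneg fun j _ => Bp_nonneg h0 h1 _ _
  calc ∏ i : Fin k, ∏ j : Fin 3, Bp p (P3_V L D e κ φ (i, j)) (P3_G a e κ φ (i, j))
      ≤ ∏ _i : Fin k, (p ^ 2 * q1) :=
        Finset.prod_le_prod (fun i _ => hnn i) (fun i _ => hfac i)
    _ = (p ^ 2 * q1) ^ k := by
        rw [Finset.prod_const, Finset.card_univ, Fintype.card_fin]

theorem Bp_E3 (h0 : 0 ≤ p) (h1 : p ≤ 1) (hL : ∀ e, (L e).card = l) {D a q1 lam : ℝ}
    (hLt : ∀ e, (1 - lam) * l ≤ ((Lt L D e).card : ℝ)) (hq10 : 0 ≤ q1)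
    (hq1 : ∀ W : Finset ((Fin n × Fin n) × ℕ), (1 - lam) * l - 1 ≤ (W.card : ℝ) →
      Bp p W (fun S => (S.card : ℝ) < a) ≤ q1) (k : ℕ) :
    Bp p (US L) (E3 L D a k) ≤ 2 * (n : ℝ) ^ 2 * (l * n * p ^ 2 * q1) ^ k := by
  set x : ℝ := (p ^ 2 * q1) ^ k with hx
  have hx0 : 0 ≤ x := pow_nonneg (mul_nonneg (sq_nonneg p) hq10) k
  have hstep : Bp p (US L) (E3 L D a k) ≤ Bp p (US L) (fun S => ∃ e ∈ (univ : Finset (Fin n × Fin n)),
      ∃ v ∈ (univ.filter fun v : Fin n ⊕ Fin n => Inc v e),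
      ∃ κ ∈ Fintype.piFinset (fun _ : Fin k => L e),
      ∃ φ ∈ Fintype.piFinset (fun _ : Fin k => univ.filter fun f : Fin n × Fin n => Inc v f),
        P3_F L D a e κ φ S) := by
    refine Bp_mono h0 h1 ?_
    rintro S - ⟨e, v, hve, T, hT, hTk, g, hg, hgT⟩
    have eq := Finset.equivFinOfCardEq hTk
    refine ⟨e, Finset.mem_univ _, v, Finset.mem_filter.2 ⟨Finset.mem_univ _, hve⟩,
      fun i => (eq.symm i : ℕ), ?_, fun i => g (eq.symm i : ℕ), ?_, ?_⟩
    · rw [Fintype.mem_piFinset]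
      intro i
      exact (mem_lst.1 (hT (eq.symm i).2)).1
    · rw [Fintype.mem_piFinset]
      intro i
      exact Finset.mem_filter.2 ⟨Finset.mem_univ _, (hgT _ (eq.symm i).2).2.1⟩
    · refine ⟨⟨?_, ?_, ?_⟩, ?_⟩
      · intro i j hij
        exact eq.symm.injective (Subtype.ext hij)
      · intro i j hij
        exact eq.symm.injective (Subtype.ext (hg (eq.symm i).2 (eq.symm j).2 hij))
      · intro i
        have h2 := hgT _ (eq.symm i).2
        exact ⟨h2.1, (mem_lst.1 (hT (eq.symm i).2)).1, (mem_lst.1 h2.2.2.1).1⟩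
      · intro i
        have h2 := hgT _ (eq.symm i).2
        refine ⟨(mem_lst.1 (hT (eq.symm i).2)).2, (mem_lst.1 h2.2.2.1).2, ?_⟩
        refine lt_of_le_of_lt ?_ h2.2.2.2
        exact_mod_cast P3_card_le D S _ _
  refine hstep.trans ((Bp_exists h0 h1 (US L) univ _).trans ?_)
  have hφ : ∀ (e : Fin n × Fin n) (v : Fin n ⊕ Fin n) (κ : Fin k → ℕ),
      Bp p (US L) (fun S => ∃ φ ∈ Fintype.piFinset
        (fun _ : Fin k => univ.filter fun f : Fin n × Fin n => Inc v f), P3_F L D a e κ φ S) ≤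
        (n : ℝ) ^ k * x := by
    intro e v κ
    refine (Bp_exists h0 h1 (US L) _ _).trans ?_
    refine (Finset.sum_le_card_nsmul _ _ x fun φ _ =>
      P3_bound h0 h1 hLt hq10 hq1 e κ φ).trans ?_
    rw [nsmul_eq_mul, Fintype.card_piFinset, Finset.prod_const, P3_star, Finset.card_univ,
      Fintype.card_fin]
    push_cast
    exact le_rfl
  have hκ : ∀ (e : Fin n × Fin n) (v : Fin n ⊕ Fin n),
      Bp p (US L) (fun S => ∃ κ ∈ Fintype.piFinset (fun _ : Fin k => L e),
        ∃ φ ∈ Fintype.piFinset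
        (fun _ : Fin k => univ.filter fun f : Fin n × Fin n => Inc v f), P3_F L D a e κ φ S) ≤
        (l : ℝ) ^ k * ((n : ℝ) ^ k * x) := by
    intro e v
    refine (Bp_exists h0 h1 (US L) _ _).trans ?_
    refine (Finset.sum_le_card_nsmul _ _ _ fun κ _ => hφ e v κ).trans ?_
    rw [nsmul_eq_mul, Fintype.card_piFinset, Finset.prod_const, hL, Finset.card_univ,
      Fintype.card_fin]
    push_cast
    exact le_rfl
  have hv : ∀ e : Fin n × Fin n,
      Bp p (US L) (fun S => ∃ v ∈ (univ.filter fun v : Fin n ⊕ Fin n => Inc v e),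
        ∃ κ ∈ Fintype.piFinset (fun _ : Fin k => L e),
        ∃ φ ∈ Fintype.piFinset
        (fun _ : Fin k => univ.filter fun f : Fin n × Fin n => Inc v f), P3_F L D a e κ φ S) ≤
        2 * ((l : ℝ) ^ k * ((n : ℝ) ^ k * x)) := by
    intro e
    refine (Bp_exists h0 h1 (US L) _ _).trans ?_
    refine (Finset.sum_le_card_nsmul _ _ _ fun v _ => hκ e v).trans ?_
    rw [nsmul_eq_mul]
    refine mul_le_mul_of_nonneg_right ?_ (by positivity)
    exact_mod_cast P3_ends e
  refine (Finset.sum_le_card_nsmul _ _ _ fun e _ => hv e).trans ?_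
  rw [nsmul_eq_mul, Finset.card_univ, Fintype.card_prod, Fintype.card_fin, hx]
  push_cast
  have h2 : (l * n * p ^ 2 * q1) ^ k = (l : ℝ) ^ k * ((n : ℝ) ^ k * (p ^ 2 * q1) ^ k) := by
    rw [← mul_pow, ← mul_pow]
    congr 1
    ring
  rw [h2]
  exact le_of_eq (by ring)

end Pool.Agent.H70.KS
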