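import Pool.Agent.H70.KS.Kahn
import Pool.Agent.H70.KS.Clean
import Pool.Agent.H70.KS.P2
import Pool.Agent.H70.KS.P3
import Pool.Agent.H70.KS.Num2

/-!
# Job KS-18: the main theorem for lists with exactly `l` elements, `n ≤ l ≤ 2 n`

Proof.  Take `ρ, θ, k1, k2` from `num2`, `l0` from `PK_nat` for `ρ`, `N` from `num2` (and
`N ≥ 1`).  Let `p = (2 + ε) log n / n`, `K = 2 (k1 + 3 k2)`, `D = (1 - eta) l`, `a = (1 - θ) (1 - lam) (p l)`,
`b = (1 - eta) (1 + θ) (p l)`.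
* `hLt`: `(Lt L D e).card = l - #{c ∈ L e | ∃ v, Inc v e ∧ D < deg univ L v c} ≥ (1 - lam) l`.
* `clean` with `l1` from `num2` and `hPK` from `PK_nat`: if `¬ E1`, `¬ E2`, `¬ E3`, `¬ E4` then
  `Colb univ (lst L S)`.  So `¬ Colb → E1 ∨ E2 ∨ E3 ∨ E4`, and by `Bp_not`, `Bp_mono`, `Bp_or`
  `Bp Colb ≥ 1 - (Bp E1 + Bp E2 + Bp E3 + Bp E4)`.
* `Bp_E1`, `Bp_E4`, `Bp_E2` with `q2 = 3 exp (-((1 - eta) θ ^ 2 (p l) / 4))` (`q2_bound`), `Bp_E3` with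
  `q1 = 3 exp (-((1 - lam) θ ^ 2 (p l) / 2))` (`q1_bound`), and the last claim of `num2`.
-/

namespace Pool.Agent.H70.KS

open Finset Classical

theorem core {ε lam eta δ : ℝ} (hε : 0 < ε) (hlam : 0 ≤ lam) (hle : lam < eta) (heta : eta < 1)
    (hδ : 0 < δ) :
    ∃ N : ℕ, ∀ n : ℕ, N ≤ n → ∀ l : ℕ, n ≤ l → l ≤ 2 * n → ∀ L : Fin n × Fin n → Finset ℕ,
      (∀ e, (L e).card = l) →
      (∀ e, (((L e).filter fun c => ∃ v, Inc v e ∧
        (1 - eta) * l < (deg univ L v c : ℝ)).card : ℝ) ≤ lam * l) →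
      1 - δ ≤ Bp ((2 + ε) * Real.log n / n) (US L) (fun S => Colb univ (lst L S)) := by
  obtain ⟨ρ, θ, hρ0, hρ1, hθ0, hθ1, k1, k2, hnum⟩ := num2 hε hlam hle heta hδ
  obtain ⟨l0, hPK⟩ := PK_nat hρ1
  obtain ⟨N, hN⟩ := hnum l0
  refine ⟨N, fun n hn l hnl hl2 L hLc hLh => ?_⟩
  obtain ⟨p, hp⟩ : ∃ p : ℝ, p = (2 + ε) * Real.log n / n := ⟨_, rfl⟩
  obtain ⟨h0, h1, ⟨l1, hl1, hl1a, hl1b⟩, t, ht, hsum⟩ := hN n hn l hnl hl2 p hp
  rw [← hp]
  have heta0 : 0 ≤ eta := hlam.trans hle.le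
  have hlam1 : lam < 1 := hle.trans heta
  have hLt : ∀ e, (1 - lam) * l ≤ ((Lt L ((1 - eta) * l) e).card : ℝ) := by
    intro e
    have e1 : (Lt L ((1 - eta) * l) e).card + ((L e).filter fun c => ∃ v, Inc v e ∧
        (1 - eta) * l < (deg univ L v c : ℝ)).card = (L e).card := by
      rw [← Finset.card_filter_add_card_filter_not (s := L e)
        (fun c => ∀ v, Inc v e → (deg univ L v c : ℝ) ≤ (1 - eta) * l)]
      unfold Lt
      congr 2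
      refine Finset.filter_congr fun c _ => ?_
      push Not
      rfl
    have e2 : ((Lt L ((1 - eta) * l) e).card : ℝ) + (((L e).filter fun c => ∃ v, Inc v e ∧
        (1 - eta) * l < (deg univ L v c : ℝ)).card : ℝ) = l := by
      rw [hLc e] at e1
      exact_mod_cast e1
    have e3 := hLh e
    linarith
  have b1 := Bp_E1 (L := L) h0 h1 hLc (2 * (k1 + 3 * k2)) ht
  have b4 := Bp_E4 (L := L) h0 h1 hLc
  have b2 := Bp_E2 (L := L) h0 h1 hLc (D := (1 - eta) * l)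
    (b := (1 - eta) * (1 + θ) * (p * l))
    (mul_nonneg (sub_nonneg.2 heta.le) (Nat.cast_nonneg l))
    (fun W hW => q2_bound h0 h1 heta0 heta hθ0 hθ1 hW) k1
  have b3 := Bp_E3 (L := L) h0 h1 hLc (D := (1 - eta) * l)
    (a := (1 - θ) * (1 - lam) * (p * l)) hLt (by positivity)
    (fun W hW => q1_bound h0 h1 hlam hlam1 hθ0 hθ1 hW) k2
  have hor : Bp p (US L) (fun S => ¬ Colb univ (lst L S)) ≤
      Bp p (US L) (fun S => (E1 L (2 * (k1 + 3 * k2)) S ∨ E4 L S) ∨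
        (E2 L ((1 - eta) * l) ((1 - eta) * (1 + θ) * (p * l)) k1 S ∨
          E3 L ((1 - eta) * l) ((1 - θ) * (1 - lam) * (p * l)) k2 S)) := by
    refine Bp_mono h0 h1 fun S _ hS => ?_
    by_contra hcon
    push Not at hcon
    exact hS (clean hcon.1.1 hcon.2.1 hcon.2.2 hcon.1.2 le_rfl hl1a hl1b hρ0
      (fun E L1 hE hd => hPK l1 hl1 n E L1 hE hd))
  have c1 := Bp_or h0 h1 (US L) (fun S => E1 L (2 * (k1 + 3 * k2)) S ∨ E4 L S)
    (fun S => E2 L ((1 - eta) * l) ((1 - eta) * (1 + θ) * (p * l)) k1 S ∨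
          E3 L ((1 - eta) * l) ((1 - θ) * (1 - lam) * (p * l)) k2 S)
  have c2 := Bp_or h0 h1 (US L) (fun S => E1 L (2 * (k1 + 3 * k2)) S) (fun S => E4 L S)
  have c3 := Bp_or h0 h1 (US L)
    (fun S => E2 L ((1 - eta) * l) ((1 - eta) * (1 + θ) * (p * l)) k1 S)
    (fun S => E3 L ((1 - eta) * l) ((1 - θ) * (1 - lam) * (p * l)) k2 S)
  have d := Bp_not (p := p) (US L) (fun S => Colb univ (lst L S))
  have b1' : Bp p (US L) (fun S => E1 L (2 * (k1 + 3 * k2)) S) ≤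
      (n : ℝ) ^ 2 * Real.exp (t * (2 * (k1 + 3 * k2) : ℕ) - p * l * (1 - Real.exp (-t))) := b1
  have b4' : Bp p (US L) (fun S => E4 L S) ≤ 2 * (n : ℝ) ^ 3 * (l : ℝ) ^ 4 * p ^ 8 := b4
  have b2' : Bp p (US L)
      (fun S => E2 L ((1 - eta) * l) ((1 - eta) * (1 + θ) * (p * l)) k1 S) ≤
      2 * (n : ℝ) ^ 2 * (l * p * (3 * Real.exp (-((1 - eta) * θ ^ 2 * (p * l) / 4)))) ^ k1 := b2
  have b3' : Bp p (US L)
      (fun S => E3 L ((1 - eta) * l) ((1 - θ) * (1 - lam) * (p * l)) k2 S) ≤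
      2 * (n : ℝ) ^ 2 *
        (l * n * p ^ 2 * (3 * Real.exp (-((1 - lam) * θ ^ 2 * (p * l) / 2)))) ^ k2 := b3
  linarith

end Pool.Agent.H70.KS
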