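import Pool.Agent.H70.KS.ListTail

/-!
# Job KS-6: negative cylinder dependence of the new degrees

Fix `v`, `c` and `t ⊆ star E L v c`. Put `q = 1/M`, `s = (1 - q) ^ (d - 1)`,
`ξ = q * (1 - q) ^ (2 * (d - 1))`. Fill the sorries.

`Pr_alone`: `Alone w e c` says that no slot of `(cell w c).erase (Sum.inl (e, c))` is active; for
`e ∈ E`, `Inc w e`, `c ∈ L e` this set has `d - 1` elements. `Pr_inactive`.

`Pr_cld`: for `e ∈ E`, `c ∈ L e`, `Cld e c` says that `Sum.inl (e, c)` is active and no other slot of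
`U = cell v c ∪ cell (oth e v) c` is active (`Inc_iff`); `U` has `2 d - 1` elements (`union_card`), so
`U.erase (Sum.inl (e, c))` has `2 d - 2 = 2 * (d - 1)` elements. Probability `q * (1 - q) ^ (2 (d - 1))`
(`Pr_coord`, or `Pr_indep`).

`Pr_no_cld`: for a fixed colour `c'` and a set `t' ⊆ t` of edges at `v` with `c' ∈ L e` the events
`Cld e c'` (`e ∈ t'`) exclude each other (the slots `(e, c')` lie in the same cell `(v, c')`), so
`Pr (∀ e ∈ t', ¬ Cld e c') = 1 - t'.card * ξ`. (Induction over `t'`, or write the indicator of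
`∃ e ∈ t', Cld e c'` as the sum of the indicators.) It is `≤ (1 - ξ) ^ t'.card`
(`one_add_mul_le_pow` for `-ξ ≥ -2`).

`cyl`: the event `∀ e ∈ t, Good v c e` is the intersection of
 (a) `∀ e ∈ t, Alone (oth e v) e c`: for different `e` these depend on the disjoint sets
     `cell (oth e v) c` (`cell_disjoint_oth`, `oth_injective`); probability `s ^ t.card`;
 (b) for every `c' ≠ c`: `∀ e ∈ t with c' ∈ L e, ¬ Cld e c'`; this depends only on slots of the
     colour `c'`, i.e. on the union of the cells `(w, c')` over all `w`.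
The events (a) and (b) (all `c' ≠ c`) depend on pairwise disjoint sets (`cell_disjoint_color`), so by
`Pr_indep`, `Pr_indep_prod` and `Pr_no_cld` the probability is at most
`s ^ t.card * ∏ c' ≠ c, (1 - ξ) ^ #{e ∈ t | c' ∈ L e} = s ^ t.card * (1 - ξ) ^ (t.card * (l - 1))`,
as `∑ c' ≠ c, #{e ∈ t | c' ∈ L e} = ∑ e ∈ t, ((L e).card - 1) = t.card * (l - 1)` (`c ∈ L e` for
`e ∈ t`; `Finset.sum_card_bipartiteAbove_eq_sum_card_bipartiteBelow` or `Finset.sum_comm`).

`deg_tail`: `upper_tail` with `s = star E L v c`, `G e = Good v c e`, `π = pp`; `s.card = deg E L v c ≤ d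
≤ l`, `pp * s.card ≤ pp * d`, `Pr_mono`. (`0 ≤ pp ≤ 1` since `0 ≤ 1 - q ≤ 1` and `0 ≤ ξ ≤ 1`.)
-/

namespace Pool.Agent.H70.KS

open Finset Classical Pool.Agent.H23.RS

/-- The probability that an edge counts for the new degree. -/
noncomputable def pp (M d l : ℕ) : ℝ :=
  (1 - 1 / (M : ℝ)) ^ (d - 1) *
    (1 - 1 / (M : ℝ) * (1 - 1 / (M : ℝ)) ^ (2 * (d - 1))) ^ (l - 1)

variable {A B C : Type} [Fintype A] [Fintype B] [Fintype C] {E : Finset (A × B)}
  {L : A × B → Finset C} {d M : ℕ} [NeZero M]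

omit [NeZero M] in
private theorem q_bounds (hM : M ≠ 0) : 0 ≤ 1 / (M : ℝ) ∧ 1 / (M : ℝ) ≤ 1 := by
  have h1 : (1 : ℝ) ≤ M := by exact_mod_cast Nat.one_le_iff_ne_zero.2 hM
  exact ⟨by positivity, by rw [div_le_one (by linarith)]; exact h1⟩

omit [NeZero M] in
private theorem xi_bounds (hM : M ≠ 0) (k : ℕ) :
    0 ≤ 1 / (M : ℝ) * (1 - 1 / (M : ℝ)) ^ k ∧ 1 / (M : ℝ) * (1 - 1 / (M : ℝ)) ^ k ≤ 1 := by
  obtain ⟨h0, h1⟩ := q_bounds hM
  have h2 : (0 : ℝ) ≤ 1 - 1 / (M : ℝ) := by linarith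
  have h3 : (1 - 1 / (M : ℝ)) ^ k ≤ 1 := pow_le_one₀ h2 (by linarith)
  have h4 : (0 : ℝ) ≤ (1 - 1 / (M : ℝ)) ^ k := pow_nonneg h2 k
  exact ⟨mul_nonneg h0 h4, mul_le_one₀ h1 h4 h3⟩

omit [NeZero M] in
private theorem pp_bounds (hM : M ≠ 0) (d l : ℕ) : 0 ≤ pp M d l ∧ pp M d l ≤ 1 := by
  obtain ⟨h0, h1⟩ := q_bounds hM
  obtain ⟨h2, h3⟩ := xi_bounds hM (2 * (d - 1))
  have h4 : (0 : ℝ) ≤ 1 - 1 / (M : ℝ) := by linarith
  have h5 : (0 : ℝ) ≤ 1 - 1 / (M : ℝ) * (1 - 1 / (M : ℝ)) ^ (2 * (d - 1)) := by linarith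
  have h6 := pow_nonneg h4 (d - 1)
  have h7 := pow_nonneg h5 (l - 1)
  exact ⟨mul_nonneg h6 h7, mul_le_one₀ (pow_le_one₀ h4 (by linarith)) h7
    (pow_le_one₀ h5 (by linarith))⟩

omit [Fintype A] [Fintype B] [Fintype C] in
private theorem alone_iff (x : Slot A B C d → Fin M) (w : A ⊕ B) (e : A × B) (c : C) :
    Alone E L d x w e c ↔ ∀ σ ∈ (cell E L d w c).erase (Sum.inl (e, c)), x σ ≠ 0 :=
  ⟨fun h σ hσ => h σ (Finset.mem_of_mem_erase hσ) (Finset.ne_of_mem_erase hσ),
    fun h σ hσ hne => h σ (Finset.mem_erase.2 ⟨hne, hσ⟩)⟩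

omit [Fintype A] [Fintype B] [Fintype C] in
private theorem alone_dep (w : A ⊕ B) (e : A × B) (c : C) :
    DepOn (cell E L d w c) (fun x : Slot A B C d → Fin M => Alone E L d x w e c) :=
  fun x y hxy h σ hσ hne => by
    rw [← hxy σ hσ]
    exact h σ hσ hne

private theorem cld_dep {e : A × B} (he : e ∈ E) {c : C} (hc : c ∈ L e) :
    DepOn (univ.biUnion fun w : A ⊕ B => cell E L d w c)
      (fun x : Slot A B C d → Fin M => Cld E L d x e c) := by
  rintro x y hxy ⟨h1, h2, h3⟩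
  refine ⟨h1, ?_, fun v hv => alone_dep v e c x y (fun σ hσ => hxy σ ?_) (h3 v hv)⟩
  · rw [← hxy _ ?_]
    · exact h2
    · exact Finset.mem_biUnion.2 ⟨Sum.inl e.1, Finset.mem_univ _,
        mem_cell_inl.2 ⟨he, rfl, hc, rfl⟩⟩
  · exact Finset.mem_biUnion.2 ⟨v, Finset.mem_univ _, hσ⟩

theorem Pr_alone (hd : ∀ v c, deg E L v c ≤ d) {w : A ⊕ B} {e : A × B} {c : C} (he : e ∈ E)
    (hw : Inc w e) (hc : c ∈ L e) :
    Pr (fun x : Slot A B C d → Fin M => Alone E L d x w e c) = (1 - 1 / (M : ℝ)) ^ (d - 1) := by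
  have h1 : (fun x : Slot A B C d → Fin M => Alone E L d x w e c) =
      fun x => ∀ σ ∈ (cell E L d w c).erase (Sum.inl (e, c)), x σ ≠ 0 := by
    funext x
    exact propext (alone_iff x w e c)
  rw [h1, Pr_inactive, Finset.card_erase_of_mem (mem_cell_inl.2 ⟨he, hw, hc, rfl⟩),
    cell_card (hd w c)]

theorem Pr_cld (hd : ∀ v c, deg E L v c ≤ d) {e : A × B} {c : C} (he : e ∈ E) (hc : c ∈ L e) :
    Pr (fun x : Slot A B C d → Fin M => Cld E L d x e c) =
      1 / (M : ℝ) * (1 - 1 / (M : ℝ)) ^ (2 * (d - 1)) := by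
  have hv : Inc (Sum.inl e.1 : A ⊕ B) e := rfl
  have h1 : (fun x : Slot A B C d → Fin M => Cld E L d x e c) =
      fun x => (∀ σ ∈ ({Sum.inl (e, c)} : Finset (Slot A B C d)), x σ = 0) ∧
        ∀ σ ∈ (cell E L d (Sum.inl e.1) c ∪ cell E L d (oth e (Sum.inl e.1)) c).erase
          (Sum.inl (e, c)), x σ ≠ 0 := by
    funext x
    refine propext ⟨?_, ?_⟩
    · rintro ⟨-, h2, h3⟩
      refine ⟨fun σ hσ => by rw [Finset.mem_singleton.1 hσ]; exact h2, fun σ hσ => ?_⟩
      obtain ⟨h4, h5⟩ := Finset.mem_erase.1 hσ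
      rcases Finset.mem_union.1 h5 with h5 | h5
      · exact h3 _ hv σ h5 h4
      · exact h3 _ Inc_oth σ h5 h4
    · rintro ⟨h2, h3⟩
      refine ⟨hc, h2 _ (Finset.mem_singleton_self _), fun w hw σ hσ hne => ?_⟩
      refine h3 σ (Finset.mem_erase.2 ⟨hne, Finset.mem_union.2 ?_⟩)
      rcases (Inc_iff hv).1 hw with h | h
      · rw [h] at hσ
        exact Or.inl hσ
      · rw [h] at hσ
        exact Or.inr hσ
  rw [h1, Pr_indep (S := {Sum.inl (e, c)})
    (T := (cell E L d (Sum.inl e.1) c ∪ cell E L d (oth e (Sum.inl e.1)) c).erase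
      (Sum.inl (e, c)))
    (A := fun x : Slot A B C d → Fin M =>
      ∀ σ ∈ ({Sum.inl (e, c)} : Finset (Slot A B C d)), x σ = 0)
    (B := fun x : Slot A B C d → Fin M =>
      ∀ σ ∈ (cell E L d (Sum.inl e.1) c ∪ cell E L d (oth e (Sum.inl e.1)) c).erase
          (Sum.inl (e, c)), x σ ≠ 0)
    (fun x y hxy h σ hσ => by rw [← hxy σ hσ]; exact h σ hσ)
    (fun x y hxy h σ hσ => by rw [← hxy σ hσ]; exact h σ hσ)
    (Finset.disjoint_singleton_left.2 (Finset.notMem_erase _ _))]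
  have h2 : Pr (fun x : Slot A B C d → Fin M =>
      ∀ σ ∈ ({Sum.inl (e, c)} : Finset (Slot A B C d)), x σ = 0) = 1 / (M : ℝ) := by
    rw [Pr_coord {Sum.inl (e, c)} (fun _ a => a = (0 : Fin M)), Finset.prod_singleton,
      Fintype.card_fin, (Finset.card_eq_one.2 ⟨0, by ext a; simp⟩), Nat.cast_one]
  have h3 : (Sum.inl (e, c) : Slot A B C d) ∈
      cell E L d (Sum.inl e.1) c ∪ cell E L d (oth e (Sum.inl e.1)) c :=
    Finset.mem_union_left _ (mem_cell_inl.2 ⟨he, hv, hc, rfl⟩)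
  rw [h2, Pr_inactive, Finset.card_erase_of_mem h3, union_card he hv hc hd]
  congr 2
  omega

theorem Pr_no_cld (hd : ∀ v c, deg E L v c ≤ d) {v : A ⊕ B} {c : C} {t : Finset (A × B)}
    (ht : t ⊆ star E L v c) :
    Pr (fun x : Slot A B C d → Fin M => ∀ e ∈ t, ¬ Cld E L d x e c) ≤
      (1 - 1 / (M : ℝ) * (1 - 1 / (M : ℝ)) ^ (2 * (d - 1))) ^ t.card := by
  have key : ∀ t : Finset (A × B), t ⊆ star E L v c →
      Pr (fun x : Slot A B C d → Fin M => ∀ e ∈ t, ¬ Cld E L d x e c) =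
        1 - t.card * (1 / (M : ℝ) * (1 - 1 / (M : ℝ)) ^ (2 * (d - 1))) := by
    intro t
    induction t using Finset.induction_on with
    | empty =>
      intro _
      rw [Finset.card_empty, Nat.cast_zero, zero_mul, sub_zero, ← Pr_true (V := Slot A B C d) (Ω := Fin M)]
      congr 1
      funext x
      simp
    | insert e t' he ih =>
      intro ht
      have ht' : t' ⊆ star E L v c := (Finset.subset_insert _ _).trans ht
      have hes : e ∈ star E L v c := ht (Finset.mem_insert_self _ _)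
      obtain ⟨heE, hev, hec⟩ := Finset.mem_filter.1 hes
      have h1 := Pr_split (fun x : Slot A B C d → Fin M => ∀ e ∈ t', ¬ Cld E L d x e c)
        (fun x => Cld E L d x e c)
      have h2 : (fun x : Slot A B C d → Fin M => (∀ e ∈ t', ¬ Cld E L d x e c) ∧
          Cld E L d x e c) = fun x => Cld E L d x e c := by
        funext x
        refine propext ⟨fun h => h.2, fun h => ⟨fun e' he' h' => ?_, h⟩⟩
        have hne : e' ≠ e := fun h5 => he (h5 ▸ he')
        obtain ⟨he'E, he'v, he'c⟩ := Finset.mem_filter.1 (ht' he')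
        exact h.2.2 v hev (Sum.inl (e', c)) (mem_cell_inl.2 ⟨he'E, he'v, he'c, rfl⟩)
          (fun h6 => hne (by simpa using h6)) h'.2.1
      have h3 : (fun x : Slot A B C d → Fin M => (∀ e ∈ t', ¬ Cld E L d x e c) ∧
          ¬ Cld E L d x e c) = fun x => ∀ e' ∈ insert e t', ¬ Cld E L d x e' c := by
        funext x
        refine propext ⟨fun h e' he' => ?_, fun h => ⟨fun e' he' =>
          h e' (Finset.mem_insert_of_mem he'), h e (Finset.mem_insert_self _ _)⟩⟩
        rcases Finset.mem_insert.1 he' with rfl | he'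
        · exact h.2
        · exact h.1 e' he'
      rw [h2, h3, ih ht', Pr_cld hd heE hec] at h1
      rw [Finset.card_insert_of_notMem he, Nat.cast_add, Nat.cast_one]
      linarith
  obtain ⟨h0, h1⟩ := xi_bounds (NeZero.ne M) (2 * (d - 1))
  rw [key t ht]
  have h2 := one_add_mul_le_pow (a := -(1 / (M : ℝ) * (1 - 1 / (M : ℝ)) ^ (2 * (d - 1))))
    (by linarith) t.card
  calc _ = 1 + (t.card : ℝ) * -(1 / (M : ℝ) * (1 - 1 / (M : ℝ)) ^ (2 * (d - 1))) := by ring
    _ ≤ _ := h2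
    _ = _ := by rw [← sub_eq_add_neg]

omit [Fintype A] [Fintype B] in
private theorem count_sum {l : ℕ} {t : Finset (A × B)} {c : C}
    (h : ∀ e ∈ t, (L e).card = l ∧ c ∈ L e) :
    ∑ c' ∈ univ.erase c, (t.filter fun e => c' ∈ L e).card = (l - 1) * t.card := by
  calc ∑ c' ∈ univ.erase c, (t.filter fun e => c' ∈ L e).card
      = ∑ c' ∈ univ.erase c, ∑ e ∈ t, if c' ∈ L e then 1 else 0 := by
        refine Finset.sum_congr rfl fun c' _ => ?_
        rw [Finset.card_filter]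
    _ = ∑ e ∈ t, ∑ c' ∈ univ.erase c, if c' ∈ L e then 1 else 0 := Finset.sum_comm
    _ = ∑ e ∈ t, (l - 1) := by
        refine Finset.sum_congr rfl fun e he => ?_
        rw [← Finset.card_filter]
        have h1 : ((univ.erase c).filter fun c' => c' ∈ L e) = (L e).erase c := by
          ext c'
          simp
        rw [h1, Finset.card_erase_of_mem (h e he).2, (h e he).1]
    _ = (l - 1) * t.card := by rw [Finset.sum_const, smul_eq_mul, mul_comm]

theorem cyl {l : ℕ} (hL : ∀ e ∈ E, (L e).card = l) (hd : ∀ v c, deg E L v c ≤ d) {v : A ⊕ B}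
    {c : C} {t : Finset (A × B)} (ht : t ⊆ star E L v c) :
    Pr (fun x : Slot A B C d → Fin M => ∀ e ∈ t, Good E L d x v c e) ≤ pp M d l ^ t.card := by
  have hst : ∀ e ∈ t, e ∈ E ∧ Inc v e ∧ c ∈ L e := fun e he => Finset.mem_filter.1 (ht he)
  have h1 : (fun x : Slot A B C d → Fin M => ∀ e ∈ t, Good E L d x v c e) =
      fun x => (∀ e ∈ t, Alone E L d x (oth e v) e c) ∧
        ∀ c' ∈ univ.erase c, ∀ e ∈ t.filter (fun e => c' ∈ L e), ¬ Cld E L d x e c' := by
    funext x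
    refine propext ⟨fun h => ⟨fun e he => (h e he).1, fun c' hc' e he =>
      (h e (Finset.mem_filter.1 he).1).2 c' (Finset.ne_of_mem_erase hc')⟩, fun h e he =>
      ⟨h.1 e he, fun c' hc' h2 => ?_⟩⟩
    exact h.2 c' (Finset.mem_erase.2 ⟨hc', Finset.mem_univ _⟩) e
      (Finset.mem_filter.2 ⟨he, h2.1⟩) h2
  have hA : DepOn (t.biUnion fun e => cell E L d (oth e v) c)
      (fun x : Slot A B C d → Fin M => ∀ e ∈ t, Alone E L d x (oth e v) e c) :=
    DepOn.all fun e he => (alone_dep (oth e v) e c).mono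
      (Finset.subset_biUnion_of_mem (fun e => cell E L d (oth e v) c) he)
  have hB' : ∀ c', DepOn (univ.biUnion fun w : A ⊕ B => cell E L d w c')
      (fun x : Slot A B C d → Fin M =>
        ∀ e ∈ t.filter (fun e => c' ∈ L e), ¬ Cld E L d x e c') := fun c' =>
    DepOn.all fun e he => DepOn.not (cld_dep (hst e (Finset.mem_filter.1 he).1).1
      (Finset.mem_filter.1 he).2)
  have hB : DepOn ((univ.erase c).biUnion fun c' => univ.biUnion fun w : A ⊕ B =>
        cell E L d w c')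
      (fun x : Slot A B C d → Fin M =>
        ∀ c' ∈ univ.erase c, ∀ e ∈ t.filter (fun e => c' ∈ L e), ¬ Cld E L d x e c') :=
    DepOn.all fun c' hc' => (hB' c').mono
      (Finset.subset_biUnion_of_mem (fun c' => univ.biUnion fun w : A ⊕ B => cell E L d w c') hc')
  have hdis : Disjoint (t.biUnion fun e => cell E L d (oth e v) c)
      ((univ.erase c).biUnion fun c' => univ.biUnion fun w : A ⊕ B => cell E L d w c') := by
    rw [Finset.disjoint_biUnion_left]
    intro e _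
    rw [Finset.disjoint_biUnion_right]
    intro c' hc'
    rw [Finset.disjoint_biUnion_right]
    intro w _
    exact cell_disjoint_color (Finset.ne_of_mem_erase hc').symm
  rw [h1, Pr_indep hA hB hdis]
  have hPA : Pr (fun x : Slot A B C d → Fin M => ∀ e ∈ t, Alone E L d x (oth e v) e c) =
      ((1 - 1 / (M : ℝ)) ^ (d - 1)) ^ t.card := by
    rw [Pr_indep_prod t (fun e => cell E L d (oth e v) c)
      (fun e x => Alone E L d x (oth e v) e c) (fun e _ => alone_dep (oth e v) e c)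
      (fun e he e' he' hne => cell_disjoint_oth
        (fun h => hne (oth_injective (hst e he).2.1 (hst e' he').2.1 h)) c)]
    rw [Finset.prod_congr rfl fun e he => Pr_alone hd (hst e he).1 Inc_oth (hst e he).2.2,
      Finset.prod_const]
  have hPB : Pr (fun x : Slot A B C d → Fin M =>
      ∀ c' ∈ univ.erase c, ∀ e ∈ t.filter (fun e => c' ∈ L e), ¬ Cld E L d x e c') ≤
      (1 - 1 / (M : ℝ) * (1 - 1 / (M : ℝ)) ^ (2 * (d - 1))) ^ ((l - 1) * t.card) := by
    rw [Pr_indep_prod (univ.erase c) (fun c' => univ.biUnion fun w : A ⊕ B => cell E L d w c')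
      (fun c' x => ∀ e ∈ t.filter (fun e => c' ∈ L e), ¬ Cld E L d x e c') (fun c' _ => hB' c')]
    · rw [← count_sum (L := L) (c := c) (t := t) (l := l)
        (fun e he => ⟨hL e (hst e he).1, (hst e he).2.2⟩), ← Finset.prod_pow_eq_pow_sum]
      refine Finset.prod_le_prod (fun c' _ => Pr_nonneg _) fun c' _ => Pr_no_cld (v := v) hd ?_
      intro e he
      obtain ⟨h2, h3⟩ := Finset.mem_filter.1 he
      exact Finset.mem_filter.2 ⟨(hst e h2).1, (hst e h2).2.1, h3⟩
    · intro c' _ c'' _ hne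
      rw [Finset.disjoint_biUnion_left]
      intro w _
      rw [Finset.disjoint_biUnion_right]
      intro w' _
      exact cell_disjoint_color hne
  have h2 : (0 : ℝ) ≤ ((1 - 1 / (M : ℝ)) ^ (d - 1)) ^ t.card := by
    obtain ⟨h3, h4⟩ := q_bounds (NeZero.ne M)
    exact pow_nonneg (pow_nonneg (by linarith) _) _
  rw [hPA, pp, mul_pow, ← pow_mul (1 - 1 / (M : ℝ) * (1 - 1 / (M : ℝ)) ^ (2 * (d - 1)))]
  exact mul_le_mul_of_nonneg_left hPB h2

theorem deg_tail {l : ℕ} (hL : ∀ e ∈ E, (L e).card = l) (hd : ∀ v c, deg E L v c ≤ d)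
    (hdl : d ≤ l) (v : A ⊕ B) (c : C) {τ : ℝ} (hτ0 : 0 ≤ τ) (hτ2 : τ ≤ 2) :
    Pr (fun x : Slot A B C d → Fin M => pp M d l * d + τ * l <
      (((star E L v c).filter fun e => Good E L d x v c e).card : ℝ)) ≤
      Real.exp (-(τ ^ 2 * l / 4)) := by
  obtain ⟨h0, h1⟩ := pp_bounds (NeZero.ne M) d l
  have h2 : ((star E L v c).card : ℝ) ≤ d := by
    have h3 : (star E L v c).card ≤ d := hd v c
    exact_mod_cast h3
  have h4 : (d : ℝ) ≤ l := by exact_mod_cast hdl
  refine le_trans (Pr_mono fun x hx => ?_)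
    (upper_tail (star E L v c) (fun e (x : Slot A B C d → Fin M) => Good E L d x v c e)
      h0 h1 hτ0 hτ2 (h2.trans h4) fun t ht => cyl hL hd ht)
  refine lt_of_le_of_lt ?_ hx
  have h5 := mul_le_mul_of_nonneg_left h2 h0
  linarith

end Pool.Agent.H70.KS
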