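import Mathlib

/-!
# List edge colouring of bipartite graphs: definitions

The possible edges are the pairs `e : A × B`; the vertices are the elements of `A ⊕ B`.
-/

namespace Pool.Agent.H70.KS

open Finset Classical

/-- The vertex `v` is an end of the edge `e`. -/
def Inc {A B : Type} (v : A ⊕ B) (e : A × B) : Prop :=
  Sum.elim (fun a => e.1 = a) (fun b => e.2 = b) v

/-- The end of `e` which is different from its end `v`. -/
def oth {A B : Type} (e : A × B) (v : A ⊕ B) : A ⊕ B :=
  Sum.elim (fun _ => Sum.inr e.2) (fun _ => Sum.inl e.1) v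

/-- The number of edges at `v` whose list contains `c`. -/
noncomputable def deg {A B C : Type} (E : Finset (A × B)) (L : A × B → Finset C) (v : A ⊕ B)
    (c : C) : ℕ :=
  (E.filter fun e => Inc v e ∧ c ∈ L e).card

/-- The edges in `E` can be coloured properly from their lists. -/
def Colb {A B C : Type} (E : Finset (A × B)) (L : A × B → Finset C) : Prop :=
  ∃ f : A × B → C, (∀ e ∈ E, f e ∈ L e) ∧
    ∀ v, ∀ e ∈ E, ∀ e' ∈ E, e ≠ e' → Inc v e → Inc v e' → f e ≠ f e'

/-- All instances with lists of size at least `l`, `l` large, and colour degrees at most `ρ * l`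
are colourable. -/
def PK (ρ : ℝ) : Prop :=
  ∃ l0 : ℕ, ∀ l : ℕ, l0 ≤ l → ∀ (A B C : Type) [Fintype A] [Fintype B] [Fintype C] [Nonempty C]
    (E : Finset (A × B)) (L : A × B → Finset C), (∀ e ∈ E, l ≤ (L e).card) →
    (∀ v c, (deg E L v c : ℝ) ≤ ρ * l) → Colb E L

section

variable {A B C : Type}

theorem Inc_oth {v : A ⊕ B} {e : A × B} : Inc (oth e v) e := by
  rcases v with v | v <;> simp [Inc, oth]

theorem oth_ne {v : A ⊕ B} {e : A × B} : oth e v ≠ v := by
  rcases v with v | v <;> simp [oth]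

theorem Inc_iff {v w : A ⊕ B} {e : A × B} (h : Inc v e) : Inc w e ↔ w = v ∨ w = oth e v := by
  rcases v with v | v <;> rcases w with w | w <;> simp only [Inc, oth, Sum.elim_inl,
    Sum.elim_inr, Sum.inl.injEq, Sum.inr.injEq, reduceCtorEq, or_false, false_or] at h ⊢
  · rw [← h]
    exact eq_comm
  · exact eq_comm
  · exact eq_comm
  · rw [← h]
    exact eq_comm

theorem oth_injective {v : A ⊕ B} {e e' : A × B} (h : Inc v e) (h' : Inc v e')
    (ho : oth e v = oth e' v) : e = e' := by
  rcases v with v | v <;> simp only [Inc, oth, Sum.elim_inl, Sum.elim_inr, Sum.inl.injEq,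
    Sum.inr.injEq] at h h' ho
  · exact Prod.ext (h.trans h'.symm) ho
  · exact Prod.ext ho (h.trans h'.symm)

theorem oth_oth {v : A ⊕ B} {e : A × B} (h : Inc v e) : oth e (oth e v) = v := by
  rcases v with v | v <;> simp only [Inc, oth, Sum.elim_inl, Sum.elim_inr] at h ⊢
  · rw [h]
  · rw [h]

/-- Two different edges have at most one common end. -/
theorem eq_of_Inc {v w : A ⊕ B} (hvw : v ≠ w) {e e' : A × B} (h1 : Inc v e) (h2 : Inc w e)
    (h3 : Inc v e') (h4 : Inc w e') : e = e' := by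
  have h5 := ((Inc_iff h1).1 h2).resolve_left (Ne.symm hvw)
  have h6 := ((Inc_iff h3).1 h4).resolve_left (Ne.symm hvw)
  exact oth_injective h1 h3 (h5.symm.trans h6)

theorem Colb.mono {E : Finset (A × B)} {L L' : A × B → Finset C} (h : Colb E L)
    (hL : ∀ e ∈ E, L e ⊆ L' e) : Colb E L' := by
  obtain ⟨f, h1, h2⟩ := h
  exact ⟨f, fun e he => hL e he (h1 e he), h2⟩

theorem deg_mono {E : Finset (A × B)} {L L' : A × B → Finset C}
    (hL : ∀ e ∈ E, L e ⊆ L' e) (v : A ⊕ B) (c : C) : deg E L v c ≤ deg E L' v c := by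
  unfold deg
  refine Finset.card_le_card fun e he => ?_
  rw [Finset.mem_filter] at he ⊢
  exact ⟨he.1, he.2.1, hL e he.1 he.2.2⟩

theorem PK.mono {ρ ρ' : ℝ} (h : PK ρ') (hle : ρ ≤ ρ') : PK ρ := by
  obtain ⟨l0, h0⟩ := h
  refine ⟨l0, fun l hl A B C _ _ _ _ E L h1 h2 => h0 l hl A B C E L h1 fun v c => ?_⟩
  exact (h2 v c).trans (mul_le_mul_of_nonneg_right hle (Nat.cast_nonneg l))

end

end Pool.Agent.H70.KS
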