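import Pool.Agent.H70.KS.CellL

/-!
# Job KS-7: dependencies

`Sd e` is the union of the cells `(v, c)` with `Inc v e`, `c ∈ L e`. The index set of the bad events
is `(A × B) ⊕ ((A ⊕ B) × C)`: one event for every edge (its new list is small) and one for every
`(v, c)` (the new degree is large). Fill the sorries.

`dep_list`: `newL E L d x e` is determined by the values of `x` on `Sd e` (`Live v c` for `c ∈ L e`
and the ends `v` of `e`).

`dep_good`: the set `(star E L v c).filter (Good v c)` is determined by the values of `x` on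
`(star E L v c).biUnion (Sd E L d)`: for `e ∈ star` the property `Alone (oth e v) e c` concerns the
cell `(oth e v, c)`, `c ∈ L e`, and `Cld e c'` (which contains `c' ∈ L e`) the cells `(w, c')`, `w` an
end of `e` (the slot `(e, c')` lies in such a cell since `e ∈ E`).

`SJ_count`: all lists have `l` elements and all degrees are `≤ d ≤ l`.
* `(Sd e).card ≤ 2 * l * d` (two ends, `l` colours, `cell_card`), `(SJ j).card ≤ 2 * l * d * l`
  (`star` has `deg ≤ d ≤ l` elements).
* A slot lies in at most two cells (`inl (e, c)`: the cells of the two ends; a dummy: one), and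
  `σ ∈ Sd e` implies that `σ` lies in a cell `(v, c)` with `e ∈ star E L v c`. So
  at most `2 * d` edges `e ∈ E` satisfy `σ ∈ Sd e`, and at most `2 * d * (2 * l)` pairs `(v, c)` satisfy
  `σ ∈ SJ (inr (v, c))` (for such a pair there is `e ∈ E` with `σ ∈ Sd e`, `Inc v e`, `c ∈ L e`).
  Together `≤ 2 l + 4 l² ≤ 6 l²` indices `j` with `σ ∈ SJ j`.
* `¬ Disjoint (SJ j) (SJ i)` gives a slot `σ ∈ SJ j` with `σ ∈ SJ i`: at most
  `2 l³ * 6 l² = 12 l ^ 5` indices `i`.
(If `l = 0` all sets are empty.)
-/

namespace Pool.Agent.H70.KS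

open Finset Classical Pool.Agent.H23.RS

section

variable {A B C : Type} [Fintype A] [Fintype B] [Fintype C] (E : Finset (A × B))
  (L : A × B → Finset C) (d : ℕ)

/-- The slots on which the new list of `e` depends. -/
noncomputable def Sd (e : A × B) : Finset (Slot A B C d) :=
  (L e).biUnion fun c => (univ.filter fun v : A ⊕ B => Inc v e).biUnion fun v => cell E L d v c

/-- The slots on which the bad events depend. -/
noncomputable def SJ : (A × B) ⊕ ((A ⊕ B) × C) → Finset (Slot A B C d)
  | Sum.inl e => if e ∈ E then Sd E L d e else ∅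
  | Sum.inr vc => (star E L vc.1 vc.2).biUnion (Sd E L d)

end

variable {A B C : Type} [Fintype A] [Fintype B] [Fintype C] {E : Finset (A × B)}
  {L : A × B → Finset C} {d M : ℕ} [NeZero M]

private theorem dep_mem_Sd {e : A × B} {σ : Slot A B C d} :
    σ ∈ Sd E L d e ↔ ∃ c ∈ L e, ∃ v, Inc v e ∧ σ ∈ cell E L d v c := by
  simp only [Sd, Finset.mem_biUnion, Finset.mem_filter, Finset.mem_univ, true_and]

private theorem dep_live {e : A × B} {x y : Slot A B C d → Fin M}
    (h : ∀ σ ∈ Sd E L d e, x σ = y σ) {v : A ⊕ B} {c : C} (hv : Inc v e) (hc : c ∈ L e)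
    (hL : Live E L d x v c) : Live E L d y v c := by
  intro σ hσ
  rw [← h σ (dep_mem_Sd.2 ⟨c, hc, v, hv, hσ⟩)]
  exact hL σ hσ

private theorem dep_alone {e : A × B} {x y : Slot A B C d → Fin M}
    (h : ∀ σ ∈ Sd E L d e, x σ = y σ) {v : A ⊕ B} {c : C} (hv : Inc v e) (hc : c ∈ L e)
    (hL : Alone E L d x v e c) : Alone E L d y v e c := by
  intro σ hσ hne
  rw [← h σ (dep_mem_Sd.2 ⟨c, hc, v, hv, hσ⟩)]
  exact hL σ hσ hne

private theorem dep_cld {e : A × B} (he : e ∈ E) {x y : Slot A B C d → Fin M}
    (h : ∀ σ ∈ Sd E L d e, x σ = y σ) {c : C} (hL : Cld E L d x e c) : Cld E L d y e c := by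
  obtain ⟨h1, h2, h3⟩ := hL
  refine ⟨h1, ?_, fun v hv => dep_alone h hv h1 (h3 v hv)⟩
  rw [← h (Sum.inl (e, c)) (dep_mem_Sd.2 ⟨c, h1, Sum.inl e.1, rfl, mem_cell_inl.2 ⟨he, rfl, h1, rfl⟩⟩)]
  exact h2

theorem dep_list {e : A × B} (P : Finset C → Prop) :
    DepOn (Sd E L d e) (fun x : Slot A B C d → Fin M => P (newL E L d x e)) := by
  intro x y hxy hP
  have : newL E L d x e = newL E L d y e := by
    unfold newL
    apply Finset.filter_congr
    intro c hc
    constructor
    · intro h v hv
      exact dep_live hxy hv hc (h v hv)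
    · intro h v hv
      exact dep_live (fun σ hσ => (hxy σ hσ).symm) hv hc (h v hv)
  rw [← this]
  exact hP

theorem dep_good {v : A ⊕ B} {c : C} (P : Finset (A × B) → Prop) :
    DepOn ((star E L v c).biUnion (Sd E L d)) (fun x : Slot A B C d → Fin M =>
      P ((star E L v c).filter fun e => Good E L d x v c e)) := by
  intro x y hxy hP
  have key : ∀ x y : Slot A B C d → Fin M,
      (∀ σ ∈ (star E L v c).biUnion (Sd E L d), x σ = y σ) → ∀ e ∈ star E L v c,
      Good E L d x v c e → Good E L d y v c e := by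
    intro x y hxy e he hg
    have h1 : ∀ σ ∈ Sd E L d e, x σ = y σ := fun σ hσ =>
      hxy σ (Finset.mem_biUnion.2 ⟨e, he, hσ⟩)
    have he' := he
    simp only [star, Finset.mem_filter] at he'
    refine ⟨dep_alone h1 Inc_oth he'.2.2 hg.1, fun c' hc' hcl => hg.2 c' hc' ?_⟩
    exact dep_cld he'.1 (fun σ hσ => (h1 σ hσ).symm) hcl
  have : ((star E L v c).filter fun e => Good E L d x v c e) =
      (star E L v c).filter fun e => Good E L d y v c e := by
    apply Finset.filter_congr
    intro e he
    exact ⟨key x y hxy e he, key y x (fun σ hσ => (hxy σ hσ).symm) e he⟩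
  rw [← this]
  exact hP

private theorem dep_ends_card (e : A × B) :
    (univ.filter fun v : A ⊕ B => Inc v e).card ≤ 2 := by
  have : (univ.filter fun v : A ⊕ B => Inc v e) ⊆ {Sum.inl e.1, Sum.inr e.2} := by
    intro v hv
    simp only [Finset.mem_filter, Finset.mem_univ, true_and] at hv
    rcases v with v | v
    · simp only [Inc, Sum.elim_inl] at hv
      simp [hv]
    · simp only [Inc, Sum.elim_inr] at hv
      simp [hv]
  exact (Finset.card_le_card this).trans Finset.card_le_two

private theorem dep_Sd_card {l : ℕ} {e : A × B} (hL : (L e).card = l)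
    (hd : ∀ v c, deg E L v c ≤ d) : (Sd E L d e).card ≤ l * (2 * d) := by
  unfold Sd
  refine (Finset.card_biUnion_le_card_mul _ _ (2 * d) ?_).trans (le_of_eq (by rw [hL]))
  intro c _
  refine (Finset.card_biUnion_le_card_mul _ _ d ?_).trans
    (Nat.mul_le_mul_right d (dep_ends_card e))
  intro v _
  exact le_of_eq (cell_card (hd v c))

private theorem dep_star_card (hd : ∀ v c, deg E L v c ≤ d) (v : A ⊕ B) (c : C) :
    (star E L v c).card ≤ d := hd v c

private theorem dep_W_card (hd : ∀ v c, deg E L v c ≤ d) (σ : Slot A B C d) :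
    (E.filter fun e => σ ∈ Sd E L d e).card ≤ 2 * d := by
  rcases σ with ⟨e0, c0⟩ | ⟨⟨w, c0⟩, k⟩
  · have hsub : (E.filter fun e => (Sum.inl (e0, c0) : Slot A B C d) ∈ Sd E L d e) ⊆
        (univ.filter fun v : A ⊕ B => Inc v e0).biUnion fun v => star E L v c0 := by
      intro e he
      simp only [Finset.mem_filter] at he
      obtain ⟨heE, hS⟩ := he
      obtain ⟨c, hc, v, hv, hσ⟩ := dep_mem_Sd.1 hS
      obtain ⟨_, h2, _, h4⟩ := mem_cell_inl.1 hσ
      simp only [Finset.mem_biUnion, Finset.mem_filter, Finset.mem_univ, true_and, star]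
      exact ⟨v, h2, heE, hv, by rw [h4]; exact hc⟩
    refine (Finset.card_le_card hsub).trans ?_
    refine (Finset.card_biUnion_le_card_mul _ _ d ?_).trans
      (Nat.mul_le_mul_right d (dep_ends_card e0))
    intro v _
    exact dep_star_card hd v c0
  · have hsub : (E.filter fun e => (Sum.inr ((w, c0), k) : Slot A B C d) ∈ Sd E L d e) ⊆
        star E L w c0 := by
      intro e he
      simp only [Finset.mem_filter] at he
      obtain ⟨heE, hS⟩ := he
      obtain ⟨c, hc, v, hv, hσ⟩ := dep_mem_Sd.1 hS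
      obtain ⟨h2, h4, _⟩ := mem_cell_inr.1 hσ
      simp only [Finset.mem_filter, star]
      exact ⟨heE, by rw [h2]; exact hv, by rw [h4]; exact hc⟩
    refine (Finset.card_le_card hsub).trans ?_
    have := dep_star_card hd w c0
    omega

private theorem dep_Q_card {l : ℕ} (hL : ∀ e ∈ E, (L e).card = l)
    (hd : ∀ v c, deg E L v c ≤ d) (σ : Slot A B C d) :
    (univ.filter fun i => σ ∈ SJ E L d i).card ≤ 2 * d + 2 * d * (2 * l) := by
  have hsub : (univ.filter fun i => σ ∈ SJ E L d i) ⊆
      ((E.filter fun e => σ ∈ Sd E L d e).image Sum.inl) ∪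
      (((E.filter fun e => σ ∈ Sd E L d e).biUnion fun e =>
        (univ.filter fun v : A ⊕ B => Inc v e) ×ˢ (L e)).image Sum.inr) := by
    intro i hi
    simp only [Finset.mem_filter, Finset.mem_univ, true_and] at hi
    rcases i with e | ⟨v, c⟩
    · simp only [SJ] at hi
      split_ifs at hi with he
      · exact Finset.mem_union_left _ (Finset.mem_image.2 ⟨e, Finset.mem_filter.2 ⟨he, hi⟩, rfl⟩)
      · exact absurd hi (Finset.notMem_empty σ)
    · simp only [SJ, Finset.mem_biUnion] at hi
      obtain ⟨e, he, hS⟩ := hi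
      have he' := he
      simp only [star, Finset.mem_filter] at he'
      refine Finset.mem_union_right _ (Finset.mem_image.2 ⟨(v, c), ?_, rfl⟩)
      simp only [Finset.mem_biUnion, Finset.mem_filter, Finset.mem_product, Finset.mem_univ,
        true_and]
      exact ⟨e, ⟨he'.1, hS⟩, he'.2.1, he'.2.2⟩
  refine (Finset.card_le_card hsub).trans ((Finset.card_union_le _ _).trans ?_)
  have h1 := dep_W_card hd σ
  refine Nat.add_le_add (Finset.card_image_le.trans h1) (Finset.card_image_le.trans ?_)
  refine (Finset.card_biUnion_le_card_mul _ _ (2 * l) ?_).trans (Nat.mul_le_mul_right _ h1)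
  intro e he
  rw [Finset.card_product, hL e (Finset.mem_filter.1 he).1]
  exact Nat.mul_le_mul_right l (dep_ends_card e)

theorem SJ_count {l : ℕ} (hL : ∀ e ∈ E, (L e).card = l) (hd : ∀ v c, deg E L v c ≤ d)
    (hdl : d ≤ l) (j : (A × B) ⊕ ((A ⊕ B) × C)) :
    (univ.filter fun i => ¬ Disjoint (SJ E L d j) (SJ E L d i)).card ≤ 12 * l ^ 5 := by
  have hj : (SJ E L d j).card ≤ l * (l * (2 * l)) := by
    have hdl2 : l * (2 * d) ≤ l * (2 * l) := Nat.mul_le_mul_left l (Nat.mul_le_mul_left 2 hdl)
    rcases j with e | ⟨v, c⟩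
    · simp only [SJ]
      split_ifs with he
      · refine (dep_Sd_card (hL e he) hd).trans (hdl2.trans ?_)
        rcases Nat.eq_zero_or_pos l with h | h
        · simp [h]
        · exact Nat.le_mul_of_pos_left _ h
      · simp
    · simp only [SJ]
      refine (Finset.card_biUnion_le_card_mul _ _ (l * (2 * l)) ?_).trans
        (Nat.mul_le_mul_right _ ((dep_star_card hd v c).trans hdl))
      intro e he
      simp only [star, Finset.mem_filter] at he
      exact (dep_Sd_card (hL e he.1) hd).trans hdl2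
  have hsub : (univ.filter fun i => ¬ Disjoint (SJ E L d j) (SJ E L d i)) ⊆
      (SJ E L d j).biUnion fun σ => univ.filter fun i => σ ∈ SJ E L d i := by
    intro i hi
    simp only [Finset.mem_filter, Finset.mem_univ, true_and] at hi
    rw [Finset.not_disjoint_iff] at hi
    obtain ⟨σ, h1, h2⟩ := hi
    simp only [Finset.mem_biUnion, Finset.mem_filter, Finset.mem_univ, true_and]
    exact ⟨σ, h1, h2⟩
  refine (Finset.card_le_card hsub).trans ?_
  refine (Finset.card_biUnion_le_card_mul _ _ (2 * l + 2 * l * (2 * l)) ?_).trans ?_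
  · intro σ _
    refine (dep_Q_card hL hd σ).trans ?_
    have h2 : 2 * d ≤ 2 * l := Nat.mul_le_mul_left 2 hdl
    exact Nat.add_le_add h2 (Nat.mul_le_mul_right _ h2)
  · refine (Nat.mul_le_mul_right _ hj).trans ?_
    have h3 : 2 * l + 2 * l * (2 * l) ≤ 6 * l ^ 2 := by nlinarith [Nat.le_self_pow (n := 2) (by norm_num) l]
    calc l * (l * (2 * l)) * (2 * l + 2 * l * (2 * l))
        ≤ l * (l * (2 * l)) * (6 * l ^ 2) := Nat.mul_le_mul_left _ h3
      _ = 12 * l ^ 5 := by ring

end Pool.Agent.H70.KS
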