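import Pool.Agent.H70.KS.Defs
import Pool.Agent.H70.KS.BS

/-!
# The random lists and the bad events: definitions

`L e` is the list of the edge `e : Fin n × Fin n`; `US L` is the set of the pairs `(e, c)`, `c ∈ L e`;
for `S ⊆ US L` the random list of `e` is `lst L S e`.
-/

namespace Pool.Agent.H70.KS

open Finset Classical

variable {n : ℕ}

/-- All pairs (edge, colour of its list). -/
noncomputable def US (L : Fin n × Fin n → Finset ℕ) : Finset ((Fin n × Fin n) × ℕ) :=
  univ.biUnion fun e => (L e).image (Prod.mk e)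

/-- The random list of `e`. -/
noncomputable def lst (L : Fin n × Fin n → Finset ℕ) (S : Finset ((Fin n × Fin n) × ℕ))
    (e : Fin n × Fin n) : Finset ℕ :=
  (L e).filter fun c => (e, c) ∈ S

/-- The colours of the list of `e` which are in at most `D` lists at both ends of `e`. -/
noncomputable def Lt (L : Fin n × Fin n → Finset ℕ) (D : ℝ) (e : Fin n × Fin n) : Finset ℕ :=
  (L e).filter fun c => ∀ v, Inc v e → (deg univ L v c : ℝ) ≤ D

/-- The edge `e` has few light colours in its random list. -/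
def Poor (L : Fin n × Fin n → Finset ℕ) (D a : ℝ) (S : Finset ((Fin n × Fin n) × ℕ))
    (e : Fin n × Fin n) : Prop :=
  (((Lt L D e).filter fun c => (e, c) ∈ S).card : ℝ) < a

/-- The colour `c` is in many random lists at `v`. -/
def Heavy (L : Fin n × Fin n → Finset ℕ) (b : ℝ) (S : Finset ((Fin n × Fin n) × ℕ))
    (v : Fin n ⊕ Fin n) (c : ℕ) : Prop :=
  b < (deg univ (lst L S) v c : ℝ)

/-- Some random list has at most `K` elements. -/
def E1 (L : Fin n × Fin n → Finset ℕ) (K : ℕ) (S : Finset ((Fin n × Fin n) × ℕ)) : Prop :=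
  ∃ e, (lst L S e).card ≤ K

/-- Some random list has `k` light colours which are heavy at the same end of the edge. -/
def E2 (L : Fin n × Fin n → Finset ℕ) (D b : ℝ) (k : ℕ) (S : Finset ((Fin n × Fin n) × ℕ)) :
    Prop :=
  ∃ e v, Inc v e ∧ ∃ T ⊆ lst L S e, T.card = k ∧
    ∀ c ∈ T, (deg univ L v c : ℝ) ≤ D ∧ Heavy L b S v c

/-- Some random list has `k` colours which are in the lists of `k` different poor edges at the same
end of the edge. -/
def E3 (L : Fin n × Fin n → Finset ℕ) (D a : ℝ) (k : ℕ) (S : Finset ((Fin n × Fin n) × ℕ)) :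
    Prop :=
  ∃ e v, Inc v e ∧ ∃ T ⊆ lst L S e, T.card = k ∧ ∃ g : ℕ → Fin n × Fin n, Set.InjOn g T ∧
    ∀ c ∈ T, g c ≠ e ∧ Inc v (g c) ∧ c ∈ lst L S (g c) ∧ Poor L D a S (g c)

/-- Two random lists of adjacent edges have four common colours. -/
def E4 (L : Fin n × Fin n → Finset ℕ) (S : Finset ((Fin n × Fin n) × ℕ)) : Prop :=
  ∃ e f v, e ≠ f ∧ Inc v e ∧ Inc v f ∧ 4 ≤ (lst L S e ∩ lst L S f).card

theorem mem_US {L : Fin n × Fin n → Finset ℕ} {e : Fin n × Fin n} {c : ℕ} :
    (e, c) ∈ US L ↔ c ∈ L e := by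
  simp only [US, Finset.mem_biUnion, Finset.mem_univ, true_and, Finset.mem_image, Prod.mk.injEq]
  constructor
  · rintro ⟨e', c', hc', rfl, rfl⟩
    exact hc'
  · intro h
    exact ⟨e, c, h, rfl, rfl⟩

theorem mem_lst {L : Fin n × Fin n → Finset ℕ} {S : Finset ((Fin n × Fin n) × ℕ)}
    {e : Fin n × Fin n} {c : ℕ} : c ∈ lst L S e ↔ c ∈ L e ∧ (e, c) ∈ S := by
  simp [lst]

end Pool.Agent.H70.KS
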