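import Pool.Agent.H70.KS.Step
import Pool.Agent.H70.KS.Base

/-!
# Job KS-10: the list edge colouring theorem with colour degrees; arbitrary colours

Fill the two sorries.

`PK_lt_one`: if `ρ ≤ 1 / 32` use `PK_base` and `PK.mono`.  Otherwise let `δ = 1 - ρ` and take `κ` from
`step`.  By induction on `k`: for all `ρ'` with `ρ' ≤ 1 - δ` and `ρ' * (1 - κ) ^ k ≤ 1 / 32` we have
`PK ρ'`.  (`k = 0`: base.  `k + 1`: if `ρ' < 1 / 64` base, otherwise `step` with the induction hypothesis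
for `ρ' (1 - κ) ≤ ρ'`.)  Such a `k` exists since `(1 - κ) ^ k → 0` (`exists_pow_lt_of_lt_one`).

`PK_nat`: the same for edges `Fin n × Fin n` and colours in `ℕ`.  All lists lie in `range M` for some
`M ≥ 1` (all `L e`, finitely many finite sets; for instance `M = (univ.biUnion L).sup id + 1`).  Use
`C = Fin M` and the lists `univ.filter fun c : Fin M => (c : ℕ) ∈ L e`, which have the same size and the same
degrees; compose the colouring with `Fin.val`.
-/

namespace Pool.Agent.H70.KS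

open Finset Classical

private theorem PK_iter {δ κ : ℝ} (hκ0 : 0 < κ)
    (hs : ∀ ρ : ℝ, 1 / 64 ≤ ρ → ρ ≤ 1 - δ → PK (ρ * (1 - κ)) → PK ρ) (k : ℕ) :
    ∀ ρ : ℝ, ρ ≤ 1 - δ → ρ * (1 - κ) ^ k ≤ 1 / 32 → PK ρ := by
  induction k with
  | zero =>
    intro ρ _ h
    exact PK_base.mono (by simpa using h)
  | succ k ih =>
    intro ρ h1 h2
    by_cases h3 : ρ < 1 / 64
    · exact PK_base.mono (by linarith)
    · push Not at h3
      refine hs ρ h3 h1 (ih _ ?_ ?_)
      · nlinarith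
      · rw [mul_assoc, ← pow_succ']
        exact h2

theorem PK_lt_one {ρ : ℝ} (h : ρ < 1) : PK ρ := by
  by_cases h0 : ρ ≤ 1 / 32
  · exact PK_base.mono h0
  push Not at h0
  obtain ⟨κ, hκ0, hκ1, hs⟩ := step (δ := 1 - ρ) (by linarith) (by linarith)
  obtain ⟨k, hk⟩ := exists_pow_lt_of_lt_one (show (0 : ℝ) < 1 / 32 by norm_num)
    (show 1 - κ < 1 by linarith)
  refine PK_iter hκ0 hs k ρ (by linarith) ?_
  have h1 : (0 : ℝ) ≤ (1 - κ) ^ k := pow_nonneg (by linarith) k
  have h2 : ρ * (1 - κ) ^ k ≤ 1 * (1 - κ) ^ k := mul_le_mul_of_nonneg_right h.le h1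
  linarith

theorem PK_nat {ρ : ℝ} (h : ρ < 1) :
    ∃ l0 : ℕ, ∀ l : ℕ, l0 ≤ l → ∀ (n : ℕ) (E : Finset (Fin n × Fin n))
      (L : Fin n × Fin n → Finset ℕ), (∀ e ∈ E, l ≤ (L e).card) →
      (∀ v c, (deg E L v c : ℝ) ≤ ρ * l) → Colb E L := by
  obtain ⟨l0, h0⟩ := PK_lt_one h
  refine ⟨l0, fun l hl n E L h1 h2 => ?_⟩
  obtain ⟨M, hM1, hM2⟩ : ∃ M : ℕ, 0 < M ∧ ∀ e, ∀ c ∈ L e, c < M := by
    refine ⟨(univ.biUnion L).sup id + 1, Nat.succ_pos _, fun e c hc => ?_⟩
    have h3 : c ≤ (univ.biUnion L).sup id :=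
      Finset.le_sup (f := id) (Finset.mem_biUnion.2 ⟨e, Finset.mem_univ e, hc⟩)
    exact Nat.lt_succ_of_le h3
  have : Nonempty (Fin M) := ⟨⟨0, hM1⟩⟩
  have hcol : Colb E (fun e => (univ.filter fun c : Fin M => (c : ℕ) ∈ L e)) := by
    refine h0 l hl (Fin n) (Fin n) (Fin M) E _ (fun e he => ?_) (fun v c => ?_)
    · refine (h1 e he).trans (le_of_eq ?_)
      have h3 : L e = (univ.filter fun c : Fin M => (c : ℕ) ∈ L e).image
          (fun c : Fin M => (c : ℕ)) := by
        ext c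
        simp only [Finset.mem_image, Finset.mem_filter, Finset.mem_univ, true_and]
        constructor
        · intro hc
          exact ⟨⟨c, hM2 e c hc⟩, hc, rfl⟩
        · rintro ⟨d, hd, rfl⟩
          exact hd
      conv_lhs => rw [h3]
      exact Finset.card_image_of_injective _ Fin.val_injective
    · refine le_trans (le_of_eq ?_) (h2 v (c : ℕ))
      unfold deg
      congr 2
      ext e
      simp
  obtain ⟨f, hf1, hf2⟩ := hcol
  refine ⟨fun e => (f e : ℕ), fun e he => ?_, fun v e he e' he' hne hv hv' heq => ?_⟩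
  · have h3 := hf1 e he
    rw [Finset.mem_filter] at h3
    exact h3.2
  · exact hf2 v e he e' he' hne hv hv' (Fin.val_injective heq)

end Pool.Agent.H70.KS
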