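import Pool.Agent.H23.RS.Pr2

/-!
# Job KS-1: an upper tail bound from negative cylinder dependence

Let `N x` be the number of `i ∈ s` with `G i x` and `θ = τ / 2 ≤ 1`.

1. `exp (θ * N x) = ∏ i ∈ s, (1 + (exp θ - 1) * [G i x])
   = ∑ t ∈ s.powerset, (exp θ - 1) ^ t.card * [∀ i ∈ t, G i x]`
   (`Finset.prod_one_add` or `Finset.prod_add`; `[ ]` is the indicator).
2. Hence `Ex (fun x => exp (θ * N x)) = ∑ t ∈ s.powerset, (exp θ - 1) ^ t.card * Pr (∀ i ∈ t, G i x)
   ≤ ∑ t ∈ s.powerset, ((exp θ - 1) * π) ^ t.card = (1 + (exp θ - 1) * π) ^ s.card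
   ≤ exp ((exp θ - 1) * π * s.card)` (`Pr_eq_Ex` writes `Pr` as the `Ex` of the indicator; the sum
   over the powerset is again `Finset.prod_one_add`).
3. `exp θ - 1 ≤ θ + θ ^ 2` for `0 ≤ θ ≤ 1` (`Real.abs_exp_sub_one_sub_id_le` or so), and
   `π * s.card ≤ l`, so this is `≤ exp (θ * π * s.card + θ ^ 2 * l)`.
4. Markov (`markov`) for `exp (θ * N)` and the value `exp (θ * (π * s.card + τ * l))`:
   `Pr ≤ exp (θ ^ 2 * l - θ * τ * l) = exp (- τ ^ 2 * l / 4)`.
-/

namespace Pool.Agent.H70.KS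

open Finset Classical Pool.Agent.H23.RS

variable {V Ω : Type} [Fintype V] [Fintype Ω] [Nonempty Ω]

/-- The exponential moment. -/
private theorem exp_moment {ι : Type} (s : Finset ι) (G : ι → (V → Ω) → Prop) {π a : ℝ}
    (hπ0 : 0 ≤ π) (ha : 0 ≤ a)
    (hcyl : ∀ t ⊆ s, Pr (fun x => ∀ i ∈ t, G i x) ≤ π ^ t.card) :
    Ex (fun x => (1 + a) ^ (s.filter fun i => G i x).card) ≤ (1 + a * π) ^ s.card := by
  have h1 : ∀ x : V → Ω, (1 + a) ^ (s.filter fun i => G i x).card =
      ∑ t ∈ s.powerset, a ^ t.card * (if ∀ i ∈ t, G i x then 1 else 0) := by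
    intro x
    have h2 : (1 + a) ^ (s.filter fun i => G i x).card =
        ∏ i ∈ s, (1 + (if G i x then a else 0)) := by
      rw [← Finset.prod_const, Finset.prod_filter]
      refine Finset.prod_congr rfl fun i _ => ?_
      by_cases h : G i x
      · simp [h]
      · simp [h]
    rw [h2, Finset.prod_one_add]
    refine Finset.sum_congr rfl fun t _ => ?_
    by_cases h : ∀ i ∈ t, G i x
    · rw [if_pos h, mul_one, ← Finset.prod_const]
      refine Finset.prod_congr rfl fun i hi => ?_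
      rw [if_pos (h i hi)]
    · rw [if_neg h, mul_zero]
      push Not at h
      obtain ⟨i, hi, hG⟩ := h
      exact Finset.prod_eq_zero hi (if_neg hG)
  have h3 : Ex (fun x => (1 + a) ^ (s.filter fun i => G i x).card) =
      ∑ t ∈ s.powerset, a ^ t.card * Pr (fun x => ∀ i ∈ t, G i x) := by
    rw [Ex]
    simp_rw [h1]
    rw [Finset.sum_comm, Finset.sum_div]
    refine Finset.sum_congr rfl fun t _ => ?_
    rw [← Finset.mul_sum, mul_div_assoc]
    congr 1
    rw [Pr_eq_Ex (fun x : V → Ω => ∀ i ∈ t, G i x) (fun x => if ∀ i ∈ t, G i x then 1 else 0)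
      (fun x h => if_pos h) (fun x h => if_neg h), Ex]
  rw [h3]
  calc ∑ t ∈ s.powerset, a ^ t.card * Pr (fun x => ∀ i ∈ t, G i x)
      ≤ ∑ t ∈ s.powerset, a ^ t.card * π ^ t.card := by
        refine Finset.sum_le_sum fun t ht => ?_
        exact mul_le_mul_of_nonneg_left (hcyl t (Finset.mem_powerset.1 ht)) (pow_nonneg ha _)
    _ = ∑ t ∈ s.powerset, ∏ _i ∈ t, (a * π) := by
        refine Finset.sum_congr rfl fun t _ => ?_
        rw [Finset.prod_const, mul_pow]
    _ = (1 + a * π) ^ s.card := by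
        rw [← Finset.prod_one_add, Finset.prod_const]

theorem upper_tail {ι : Type} (s : Finset ι) (G : ι → (V → Ω) → Prop) {π τ l : ℝ}
    (hπ0 : 0 ≤ π) (hπ1 : π ≤ 1) (hτ0 : 0 ≤ τ) (hτ2 : τ ≤ 2) (hl : (s.card : ℝ) ≤ l)
    (hcyl : ∀ t ⊆ s, Pr (fun x => ∀ i ∈ t, G i x) ≤ π ^ t.card) :
    Pr (fun x => π * s.card + τ * l < ((s.filter fun i => G i x).card : ℝ)) ≤
      Real.exp (-(τ ^ 2 * l / 4)) := by
  set θ : ℝ := τ / 2 with hθ
  have hθ0 : 0 ≤ θ := by positivity
  have hθ1 : θ ≤ 1 := by rw [hθ]; linarith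
  set a : ℝ := Real.exp θ - 1 with ha
  have ha0 : 0 ≤ a := by
    have := Real.add_one_le_exp θ
    rw [ha]
    linarith
  have ha1 : a ≤ θ + θ ^ 2 := by
    have h := Real.abs_exp_sub_one_sub_id_le (x := θ) (by rw [abs_of_nonneg hθ0]; exact hθ1)
    have h2 := (abs_le.1 h).2
    rw [ha]
    linarith
  have h1a : 1 + a = Real.exp θ := by rw [ha]; ring
  have hs0 : (0 : ℝ) ≤ s.card := Nat.cast_nonneg _
  have hmom := exp_moment s G hπ0 ha0 hcyl
  have hmom2 : (1 + a * π) ^ s.card ≤ Real.exp (θ * (π * s.card) + θ ^ 2 * l) := by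
    calc (1 + a * π) ^ s.card ≤ Real.exp (a * π) ^ s.card := by
          refine pow_le_pow_left₀ (by positivity) ?_ _
          have := Real.add_one_le_exp (a * π)
          linarith
      _ = Real.exp (s.card * (a * π)) := by rw [Real.exp_nat_mul]
      _ ≤ Real.exp (θ * (π * s.card) + θ ^ 2 * l) := by
          apply Real.exp_le_exp.2
          have h1 : 0 ≤ π * s.card := by positivity
          have h2 : π * s.card ≤ l := by
            calc π * s.card ≤ 1 * s.card := mul_le_mul_of_nonneg_right hπ1 hs0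
              _ ≤ l := by linarith
          have h3 : a * (π * s.card) ≤ (θ + θ ^ 2) * (π * s.card) :=
            mul_le_mul_of_nonneg_right ha1 h1
          have h4 : θ ^ 2 * (π * s.card) ≤ θ ^ 2 * l :=
            mul_le_mul_of_nonneg_left h2 (sq_nonneg _)
          nlinarith
  have hmark := markov (fun x : V → Ω => (1 + a) ^ (s.filter fun i => G i x).card)
    (fun x => by positivity) (Real.exp_pos (θ * (π * s.card + τ * l)))
  refine (Pr_mono ?_).trans (hmark.trans ?_)
  · intro x hx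
    rw [h1a, ← Real.exp_nat_mul]
    apply Real.exp_le_exp.2
    have := mul_le_mul_of_nonneg_left hx.le hθ0
    linarith
  · rw [div_le_iff₀ (Real.exp_pos _), ← Real.exp_add]
    refine (hmom.trans hmom2).trans (le_of_eq ?_)
    congr 1
    rw [hθ]
    ring

end Pool.Agent.H70.KS
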