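import Pool.Agent.H70.KS.CellL
import Pool.Agent.H70.KS.Tail

/-!
# Job KS-5: the new lists are large

Fill the sorries.

`Pr_inactive`: `Pr_coord` with `B σ a := a ≠ 0`; the number of `a : Fin M` with `a ≠ 0` is `M - 1`.

`Pr_live`: for `c ∈ L e` the event `∀ v, Inc v e → Live v c` says that no slot of
`cell v0 c ∪ cell (oth e v0) c` is active, where `v0 = Sum.inl e.1` (`Inc_iff`); this set has
`2 * d - 1` elements (`union_card`), so the probability is `(1 - 1/M) ^ (2 d - 1)`.

`list_tail`: the events `G c := ¬ (∀ v, Inc v e → Live v c)`, `c ∈ L e`, depend on disjoint sets of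
slots (`cell_disjoint_color`), so for `t ⊆ L e` we have
`Pr (∀ c ∈ t, G c) = ∏ c ∈ t, Pr (G c) = π ^ t.card` with `π = 1 - (1 - 1/M) ^ (2 d - 1)`
(`Pr_indep_prod`, `Pr_split` or `Pr` of a complement). `upper_tail` with `s = L e`, `s.card = l`:
`Pr (π l + τ l < #{c ∈ L e | G c}) ≤ exp (-(τ² l / 4))`, and
`#{c ∈ L e | G c} = l - (newL e).card`.
-/

namespace Pool.Agent.H70.KS

open Finset Classical Pool.Agent.H23.RS

variable {A B C : Type} [Fintype A] [Fintype B] [Fintype C] {E : Finset (A × B)}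
  {L : A × B → Finset C} {d M : ℕ} [NeZero M]

theorem Pr_inactive {V : Type} [Fintype V] (W : Finset V) :
    Pr (fun x : V → Fin M => ∀ σ ∈ W, x σ ≠ 0) = (1 - 1 / (M : ℝ)) ^ W.card := by
  have hM : (M : ℝ) ≠ 0 := by exact_mod_cast NeZero.ne M
  have hM1 : 1 ≤ M := Nat.one_le_iff_ne_zero.2 (NeZero.ne M)
  rw [Pr_coord W (fun _ (a : Fin M) => a ≠ 0), Finset.prod_const]
  congr 1
  have h1 : ∀ inst : DecidablePred fun a : Fin M => a ≠ 0,
      (@Finset.filter _ (fun a : Fin M => a ≠ 0) inst univ).card = M - 1 := by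
    intro inst
    have h2 : @Finset.filter _ (fun a : Fin M => a ≠ 0) inst univ = univ.erase 0 := by
      ext a
      simp
    rw [h2, Finset.card_erase_of_mem (Finset.mem_univ _), Finset.card_univ, Fintype.card_fin]
  rw [h1, Fintype.card_fin, Nat.cast_sub hM1]
  field_simp
  push_cast
  ring

omit [Fintype A] [Fintype B] [Fintype C] in
private theorem live_iff {e : A × B} {c : C} (x : Slot A B C d → Fin M) :
    (∀ v, Inc v e → Live E L d x v c) ↔
      ∀ σ ∈ cell E L d (Sum.inl e.1) c ∪ cell E L d (oth e (Sum.inl e.1)) c, x σ ≠ 0 := by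
  have hv : Inc (Sum.inl e.1 : A ⊕ B) e := by simp [Inc]
  constructor
  · intro h σ hσ
    rcases Finset.mem_union.1 hσ with h1 | h1
    · exact h _ hv σ h1
    · exact h _ Inc_oth σ h1
  · intro h v hve σ hσ
    rcases (Inc_iff hv).1 hve with rfl | rfl
    · exact h σ (Finset.mem_union_left _ hσ)
    · exact h σ (Finset.mem_union_right _ hσ)

theorem Pr_live (hd : ∀ v c, deg E L v c ≤ d) {e : A × B} (he : e ∈ E) {c : C} (hc : c ∈ L e) :
    Pr (fun x : Slot A B C d → Fin M => ∀ v, Inc v e → Live E L d x v c) =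
      (1 - 1 / (M : ℝ)) ^ (2 * d - 1) := by
  have h : (fun x : Slot A B C d → Fin M => ∀ v, Inc v e → Live E L d x v c) =
      fun x => ∀ σ ∈ cell E L d (Sum.inl e.1) c ∪ cell E L d (oth e (Sum.inl e.1)) c, x σ ≠ 0 := by
    funext x
    exact propext (live_iff x)
  rw [h, Pr_inactive, union_card he (by simp [Inc]) hc hd]

theorem list_tail {l : ℕ} (hL : ∀ e ∈ E, (L e).card = l) (hd : ∀ v c, deg E L v c ≤ d)
    {e : A × B} (he : e ∈ E) {τ : ℝ} (hτ0 : 0 ≤ τ) (hτ2 : τ ≤ 2) :
    Pr (fun x : Slot A B C d → Fin M =>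
      ((newL E L d x e).card : ℝ) < ((1 - 1 / (M : ℝ)) ^ (2 * d - 1) - τ) * l) ≤
      Real.exp (-(τ ^ 2 * l / 4)) := by
  have hM : (0 : ℝ) < M := by exact_mod_cast Nat.pos_of_ne_zero (NeZero.ne M)
  have hM1 : (1 : ℝ) ≤ M := by exact_mod_cast Nat.one_le_iff_ne_zero.2 (NeZero.ne M)
  have hb0 : 0 ≤ 1 - 1 / (M : ℝ) := by
    rw [sub_nonneg, div_le_one hM]
    exact hM1
  have hb1 : 1 - 1 / (M : ℝ) ≤ 1 := by
    have : 0 ≤ 1 / (M : ℝ) := by positivity
    linarith
  have hq0 : 0 ≤ (1 - 1 / (M : ℝ)) ^ (2 * d - 1) := pow_nonneg hb0 _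
  have hq1 : (1 - 1 / (M : ℝ)) ^ (2 * d - 1) ≤ 1 := pow_le_one₀ hb0 hb1
  set q : ℝ := (1 - 1 / (M : ℝ)) ^ (2 * d - 1) with hq
  have hPG : ∀ c ∈ L e, Pr (fun x : Slot A B C d → Fin M =>
      ¬ ∀ v, Inc v e → Live E L d x v c) = 1 - q := by
    intro c hc
    have h1 := Pr_split (fun _ : Slot A B C d → Fin M => True)
      (fun x => ∀ v, Inc v e → Live E L d x v c)
    rw [Pr_true] at h1
    simp only [true_and] at h1
    rw [Pr_live hd he hc] at h1
    linarith
  have hcyl : ∀ t ⊆ L e, Pr (fun x : Slot A B C d → Fin M =>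
      ∀ c ∈ t, ¬ ∀ v, Inc v e → Live E L d x v c) ≤ (1 - q) ^ t.card := by
    intro t ht
    rw [Pr_indep_prod t (fun c => cell E L d (Sum.inl e.1) c ∪ cell E L d (oth e (Sum.inl e.1)) c)
      (fun c x => ¬ ∀ v, Inc v e → Live E L d x v c)]
    · rw [Finset.prod_congr rfl fun c hc => hPG c (ht hc), Finset.prod_const]
    · intro c _
      refine DepOn.not fun x y hxy h => ?_
      rw [live_iff] at h ⊢
      intro σ hσ
      rw [← hxy σ hσ]
      exact h σ hσ
    · intro c _ c' _ hcc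
      rw [Finset.disjoint_union_left, Finset.disjoint_union_right, Finset.disjoint_union_right]
      exact ⟨⟨cell_disjoint_color hcc, cell_disjoint_color hcc⟩,
        ⟨cell_disjoint_color hcc, cell_disjoint_color hcc⟩⟩
  have hcard : ((L e).card : ℝ) = l := by exact_mod_cast hL e he
  have hmain := upper_tail (L e) (fun c (x : Slot A B C d → Fin M) =>
    ¬ ∀ v, Inc v e → Live E L d x v c) (π := 1 - q) (τ := τ) (l := l) (by linarith) (by linarith)
    hτ0 hτ2 hcard.le hcyl
  refine le_trans (Pr_mono fun x hx => ?_) hmain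
  have hsum : (newL E L d x e).card +
      ((L e).filter fun c => ¬ ∀ v, Inc v e → Live E L d x v c).card = (L e).card := by
    unfold newL
    exact Finset.card_filter_add_card_filter_not (s := L e)
      (fun c => ∀ v, Inc v e → Live E L d x v c)
  have hsum' : ((newL E L d x e).card : ℝ) +
      (((L e).filter fun c => ¬ ∀ v, Inc v e → Live E L d x v c).card : ℝ) = l := by
    rw [← hcard]
    exact_mod_cast hsum
  rw [hcard]
  have h3 : (1 - q) * (l : ℝ) + τ * l <
      (((L e).filter fun c => ¬ ∀ v, Inc v e → Live E L d x v c).card : ℝ) := by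
    nlinarith [hx, hsum']
  refine h3.trans_le (le_of_eq ?_)
  congr

end Pool.Agent.H70.KS
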