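import Pool.Agent.H70.KS.Cyl

/-!
# Job KS-8: numerics of one round

Fill the sorry.  Put `α = δ / 8`, `κ = α δ / 4`, `τ = α δ / 1000`, `M = ⌈l / α⌉₊`, `q = 1 / M`,
`d = ⌊ρ l⌋₊`, `Λ = (1 - q) ^ (2 d - 1)`, `s = (1 - q) ^ (d - 1)`, `ξ = q s ^ 2`,
`pp M d l = s (1 - ξ) ^ (l - 1)`.

* `l / α ≤ M ≤ l / α + 1`, so `α / (l + 1) ≤ q ≤ α / l` (as `α ≤ 1`).
* Bernoulli (`one_add_mul_le_pow`): `Λ ≥ 1 - (2 d - 1) q ≥ 1 - 2 α ≥ 3 / 4`,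
  `s ^ 2 ≥ 1 - 2 (d - 1) q ≥ 1 - 2 α`, so `ξ ≥ α (1 - 2 α) / (l + 1)`.
* `(1 - ξ) ^ (l - 1) ≤ exp (- ξ (l - 1)) ≤ exp (- α (1 - 2 α) (l - 1) / (l + 1))
  ≤ exp (- α (1 - 2 α) (1 - 2 / l))`.
* `s = Λ * (1 - q) ^ (- d)` and `(1 - q)⁻¹ ≤ exp (2 q)` for `q ≤ 1 / 2`, more precisely
  `(1 - q)⁻¹ = 1 + q / (1 - q) ≤ exp (q / (1 - q)) ≤ exp (q + 2 q ^ 2)`, so
  `(1 - q) ^ (- d) ≤ exp (d (q + 2 q ^ 2)) ≤ exp (ρ α (1 + 2 / l)) ≤ exp (α (1 - δ) + 2 α / l)`.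
* So `pp ≤ Λ exp (α (1 - δ) - α (1 - 2 α) + 4 α / l) = Λ exp (- α δ + 2 α ^ 2 + 4 α / l)
  ≤ Λ exp (- α δ 3 / 4 + 4 α / l) ≤ Λ exp (- α δ / 2)` for `l ≥ 16 / δ`
  (`2 α ^ 2 = α δ / 4`), and `exp (- y) ≤ 1 - y + y ^ 2 / 2 ≤ 1 - 0.9 y` for small `y = α δ / 2 ≤ 1/16`:
  `pp ≤ Λ (1 - 0.45 α δ)`.
* First claim: `pp * d + τ l ≤ (Λ (1 - 0.45 α δ) ρ + τ) l`, and
  `ρ (1 - κ) (Λ - τ) ≥ ρ Λ (1 - 0.25 α δ) - ρ τ`. As `ρ Λ ≥ 3 / 256` the difference (divided by `l`)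
  is at least `0.2 α δ * 3 / 256 - 2 τ ≥ 0` (`0.2 * 3 / 256 = 0.00234.. ≥ 2 / 1000`).
* Second claim: `Λ - τ ≥ 3 / 4 - 1 / 4`.
* The last two claims hold for large `l` since `τ` is fixed
  (`l ^ 5 * exp (- c l)` tends to `0`: `Real.tendsto_pow_mul_exp_neg_atTop_nhds_zero` composed with
  `l ↦ c * l`, or `exp y ≥ y ^ 6 / 720`).
-/

namespace Pool.Agent.H70.KS

open Finset Classical

private theorem num_exp {δ ρ α q D L : ℝ} (hδ0 : 0 < δ) (hρ1 : ρ ≤ 1 - δ) (hα : α = δ / 8)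
    (hα0 : 0 < α) (hα1 : α ≤ 1 / 8) (hq0 : 0 < q) (hqlow : α ≤ q * (L + 1)) (hql : q * L ≤ α)
    (hlδ : 16 ≤ δ * L) (hdq : D * q ≤ ρ * α) (hdq1 : D * q ≤ α) :
    D * (q + 2 * q ^ 2) + -(q * (1 - 2 * α) * (L - 1)) ≤ -(α * δ / 2) := by
  have e1 : D * (q + 2 * q ^ 2) ≤ (1 - δ) * α + 2 * α * q := by
    have h1 : D * q ≤ (1 - δ) * α :=
      le_trans hdq (mul_le_mul_of_nonneg_right hρ1 hα0.le)
    have h2 : D * q * (2 * q) ≤ α * (2 * q) :=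
      mul_le_mul_of_nonneg_right hdq1 (by linarith)
    have h3 : D * (q + 2 * q ^ 2) = D * q + D * q * (2 * q) := by ring
    rw [h3]
    linarith
  have e2 : (1 - 2 * α) * (α - 2 * q) ≤ q * (1 - 2 * α) * (L - 1) := by
    have h1 : α - 2 * q ≤ q * (L - 1) := by linarith
    have h2 : 0 ≤ 1 - 2 * α := by linarith
    have h3 := mul_le_mul_of_nonneg_left h1 h2
    have h4 : (1 - 2 * α) * (q * (L - 1)) = q * (1 - 2 * α) * (L - 1) := by ring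
    linarith
  have e3 : 2 * α * q + 2 * q ≤ α * δ / 4 := by
    have h1 : q * (δ * L) ≤ α * δ := by
      have h0 : q * (δ * L) = q * L * δ := by ring
      rw [h0]
      exact mul_le_mul_of_nonneg_right hql hδ0.le
    have h2 : q * 16 ≤ q * (δ * L) := mul_le_mul_of_nonneg_left hlδ hq0.le
    have h3 : α * q ≤ 1 / 8 * q := mul_le_mul_of_nonneg_right hα1 hq0.le
    linarith
  have e4 : 2 * α * α = α * δ / 4 := by rw [hα]; ring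
  have e5 : (1 - 2 * α) * (α - 2 * q) = α - 2 * α * α - 2 * q + 4 * (α * q) := by ring
  have e6 : (1 - δ) * α = α - α * δ := by ring
  have e7 : 0 < α * q := mul_pos hα0 hq0
  rw [e5] at e2
  rw [e6] at e1
  linarith

private theorem num_fin {y : ℝ} (hy0 : 0 < y) (hy1 : y ≤ 1 / 8) :
    Real.exp (-(y / 2)) ≤ 1 - 45 / 100 * y := by
  rw [Real.exp_neg]
  have h1 : y / 2 + 1 ≤ Real.exp (y / 2) := Real.add_one_le_exp _
  have h2 : (Real.exp (y / 2))⁻¹ ≤ (y / 2 + 1)⁻¹ := inv_anti₀ (by linarith) h1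
  refine le_trans h2 ?_
  rw [inv_le_iff_one_le_mul₀ (by linarith)]
  nlinarith

private theorem num_fac {q : ℝ} (hq0 : 0 < q) (hq1 : q ≤ 1 / 8) {d : ℕ} (hd1 : 1 ≤ d) :
    (1 - q) ^ (d - 1) ≤ (1 - q) ^ (2 * d - 1) * Real.exp (d * (q + 2 * q ^ 2)) := by
  have h1q0 : 0 < 1 - q := by linarith
  have h1 : (1 - q) ^ (2 * d - 1) = (1 - q) ^ (d - 1) * (1 - q) ^ d := by
    rw [← pow_add]
    congr 1
    omega
  have h2 : 1 ≤ (1 - q) * Real.exp (q + 2 * q ^ 2) := by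
    have h3 : (q + 2 * q ^ 2) + 1 ≤ Real.exp (q + 2 * q ^ 2) := Real.add_one_le_exp _
    have h4 : 1 ≤ (1 - q) * ((q + 2 * q ^ 2) + 1) := by
      have : (1 - q) * ((q + 2 * q ^ 2) + 1) = 1 + q ^ 2 * (1 - 2 * q) := by ring
      rw [this]
      have : 0 ≤ q ^ 2 * (1 - 2 * q) := mul_nonneg (sq_nonneg _) (by linarith)
      linarith
    exact le_trans h4 (mul_le_mul_of_nonneg_left h3 h1q0.le)
  have h5 : 1 ≤ (1 - q) ^ d * Real.exp (d * (q + 2 * q ^ 2)) := by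
    rw [Real.exp_nat_mul, ← mul_pow]
    exact one_le_pow₀ h2
  rw [h1, mul_assoc]
  exact le_mul_of_one_le_right (pow_nonneg h1q0.le _) h5

private theorem num_core {δ ρ : ℝ} (hδ0 : 0 < δ) (hδ1 : δ < 1) (hρ0 : 0 < ρ) (hρ1 : ρ ≤ 1 - δ)
    {l d : ℕ} (hl : 16 / δ ≤ l) (hd1 : 1 ≤ d) (hd : (d : ℝ) ≤ ρ * l) :
    3 / 4 ≤ (1 - 1 / ((⌈(l : ℝ) / (δ / 8)⌉₊ : ℕ) : ℝ)) ^ (2 * d - 1) ∧
      pp ⌈(l : ℝ) / (δ / 8)⌉₊ d l ≤
        (1 - 1 / ((⌈(l : ℝ) / (δ / 8)⌉₊ : ℕ) : ℝ)) ^ (2 * d - 1) *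
          (1 - 45 / 100 * (δ / 8 * δ)) := by
  set M : ℕ := ⌈(l : ℝ) / (δ / 8)⌉₊ with hMdef
  set α : ℝ := δ / 8 with hα
  set q : ℝ := 1 / (M : ℝ) with hq
  have hα0 : 0 < α := by positivity
  have hα1 : α ≤ 1 / 8 := by rw [hα]; linarith
  have hl16 : (16 : ℝ) ≤ l := by
    refine le_trans ?_ hl
    rw [le_div_iff₀ hδ0]
    nlinarith
  have hl0 : (0 : ℝ) < l := by linarith
  have hlδ : 16 ≤ δ * l := by
    rw [div_le_iff₀ hδ0] at hl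
    linarith
  have hM1 : (l : ℝ) / α ≤ M := Nat.le_ceil _
  have hM2 : (M : ℝ) < l / α + 1 := Nat.ceil_lt_add_one (by positivity)
  have hM0 : (0 : ℝ) < M := lt_of_lt_of_le (by positivity) hM1
  have hq0 : 0 < q := by rw [hq]; positivity
  have hql : q * l ≤ α := by
    rw [hq, div_mul_eq_mul_div, one_mul, div_le_iff₀ hM0]
    rw [div_le_iff₀ hα0] at hM1
    linarith
  have hqα : q ≤ α / l := by rw [le_div_iff₀ hl0]; exact hql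
  have hqlow : α ≤ q * (l + 1) := by
    rw [hq, div_mul_eq_mul_div, one_mul, le_div_iff₀ hM0]
    have h1 : α * M < α * (l / α + 1) := mul_lt_mul_of_pos_left hM2 hα0
    have h2 : α * (l / α + 1) = l + α := by field_simp
    linarith
  have hqsmall : q ≤ 1 / 8 := by nlinarith
  have hdq : (d : ℝ) * q ≤ ρ * α := by
    calc (d : ℝ) * q ≤ ρ * l * q := mul_le_mul_of_nonneg_right hd hq0.le
      _ = ρ * (q * l) := by ring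
      _ ≤ ρ * α := mul_le_mul_of_nonneg_left hql hρ0.le
  have hρ1' : ρ ≤ 1 := by linarith
  have hdq1 : (d : ℝ) * q ≤ α := by nlinarith
  have hd1' : (1 : ℝ) ≤ d := by exact_mod_cast hd1
  have hbern : ∀ n : ℕ, 1 - (n : ℝ) * q ≤ (1 - q) ^ n := by
    intro n
    have := one_add_mul_le_pow (a := -q) (by linarith) n
    have h2 : (1 : ℝ) + n * -q = 1 - n * q := by ring
    have h3 : (1 : ℝ) + -q = 1 - q := by ring
    rw [h2, h3] at this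
    exact this
  have hΛ : 1 - 2 * α ≤ (1 - q) ^ (2 * d - 1) := by
    refine le_trans ?_ (hbern _)
    have h1 : ((2 * d - 1 : ℕ) : ℝ) ≤ 2 * d := by
      have : 2 * d - 1 ≤ 2 * d := Nat.sub_le _ _
      exact_mod_cast this
    have h2 : ((2 * d - 1 : ℕ) : ℝ) * q ≤ 2 * d * q := mul_le_mul_of_nonneg_right h1 hq0.le
    nlinarith
  have hs2 : 1 - 2 * α ≤ (1 - q) ^ (2 * (d - 1)) := by
    refine le_trans ?_ (hbern _)
    have h1 : ((2 * (d - 1) : ℕ) : ℝ) ≤ 2 * d := by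
      have : 2 * (d - 1) ≤ 2 * d := by omega
      exact_mod_cast this
    have h2 : ((2 * (d - 1) : ℕ) : ℝ) * q ≤ 2 * d * q := mul_le_mul_of_nonneg_right h1 hq0.le
    nlinarith
  have h1q0 : 0 < 1 - q := by linarith
  have h1q1 : 1 - q ≤ 1 := by linarith
  refine ⟨by linarith, ?_⟩
  -- the two factors
  set Λ : ℝ := (1 - q) ^ (2 * d - 1) with hΛdef
  have hΛ0 : 0 < Λ := pow_pos h1q0 _
  have hfac1 : (1 - q) ^ (d - 1) ≤ Λ * Real.exp (d * (q + 2 * q ^ 2)) :=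
    num_fac hq0 hqsmall hd1
  have hξ0 : 0 ≤ q * (1 - q) ^ (2 * (d - 1)) := mul_nonneg hq0.le (pow_nonneg h1q0.le _)
  have hξ1 : q * (1 - q) ^ (2 * (d - 1)) ≤ 1 := by
    have : (1 - q) ^ (2 * (d - 1)) ≤ 1 := pow_le_one₀ h1q0.le h1q1
    nlinarith
  have hl1 : 1 ≤ l := by
    have : (1 : ℝ) ≤ l := by linarith
    exact_mod_cast this
  have hfac2 : (1 - q * (1 - q) ^ (2 * (d - 1))) ^ (l - 1) ≤
      Real.exp (-(q * (1 - 2 * α) * (l - 1))) := by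
    have h1 : (1 - q * (1 - q) ^ (2 * (d - 1))) ≤ Real.exp (-(q * (1 - 2 * α))) := by
      refine le_trans (Real.one_sub_le_exp_neg _) (Real.exp_le_exp.2 ?_)
      have := mul_le_mul_of_nonneg_left hs2 hq0.le
      linarith
    calc (1 - q * (1 - q) ^ (2 * (d - 1))) ^ (l - 1) ≤
        (Real.exp (-(q * (1 - 2 * α)))) ^ (l - 1) := pow_le_pow_left₀ (by linarith) h1 _
      _ = Real.exp (((l - 1 : ℕ) : ℝ) * (-(q * (1 - 2 * α)))) := by rw [Real.exp_nat_mul]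
      _ = Real.exp (-(q * (1 - 2 * α) * (l - 1))) := by
        congr 1
        rw [Nat.cast_sub hl1]
        push_cast
        ring
  have hexp : (d : ℝ) * (q + 2 * q ^ 2) + -(q * (1 - 2 * α) * (l - 1)) ≤ -(α * δ / 2) :=
    num_exp hδ0 hρ1 hα hα0 hα1 hq0 hqlow hql hlδ hdq hdq1
  have hfin : Real.exp (-(α * δ / 2)) ≤ 1 - 45 / 100 * (α * δ) :=
    num_fin (by positivity) (by nlinarith)
  have hexp0 : 0 ≤ Λ * Real.exp (d * (q + 2 * q ^ 2)) := mul_nonneg hΛ0.le (Real.exp_pos _).le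
  calc pp M d l = (1 - q) ^ (d - 1) * (1 - q * (1 - q) ^ (2 * (d - 1))) ^ (l - 1) := rfl
    _ ≤ (Λ * Real.exp (d * (q + 2 * q ^ 2))) * Real.exp (-(q * (1 - 2 * α) * (l - 1))) :=
        mul_le_mul hfac1 hfac2 (pow_nonneg (by linarith) _) hexp0
    _ = Λ * Real.exp (d * (q + 2 * q ^ 2) + -(q * (1 - 2 * α) * (l - 1))) := by
        rw [Real.exp_add]; ring
    _ ≤ Λ * Real.exp (-(α * δ / 2)) :=
        mul_le_mul_of_nonneg_left (Real.exp_le_exp.2 hexp) hΛ0.le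
    _ ≤ Λ * (1 - 45 / 100 * (α * δ)) := mul_le_mul_of_nonneg_left hfin hΛ0.le

private theorem ev_bound {b : ℝ} (hb : 0 < b) :
    ∃ l0 : ℕ, ∀ l : ℕ, l0 ≤ l →
      4 * Real.exp (-(b * l)) * (12 * l ^ 5 : ℕ) ≤ 1 ∧ Real.exp (-(b * l)) < 1 / 2 := by
  have h1 : Filter.Tendsto (fun x : ℝ => x ^ 5 * Real.exp (-x)) Filter.atTop (nhds 0) :=
    Real.tendsto_pow_mul_exp_neg_atTop_nhds_zero 5
  have h2 : Filter.Tendsto (fun l : ℕ => b * (l : ℝ)) Filter.atTop Filter.atTop :=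
    Filter.Tendsto.const_mul_atTop hb tendsto_natCast_atTop_atTop
  have h3 := h1.comp h2
  have h4 : Filter.Tendsto (fun l : ℕ => Real.exp (-(b * (l : ℝ)))) Filter.atTop (nhds 0) :=
    Real.tendsto_exp_neg_atTop_nhds_zero.comp h2
  have hb5 : 0 < b ^ 5 / 48 := by positivity
  have e3 := (h3.eventually (gt_mem_nhds hb5))
  have e4 := (h4.eventually (gt_mem_nhds (show (0 : ℝ) < 1 / 2 by norm_num)))
  obtain ⟨l0, hl0⟩ := Filter.eventually_atTop.1 (e3.and e4)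
  refine ⟨l0, fun l hl => ⟨?_, (hl0 l hl).2⟩⟩
  have h5 := (hl0 l hl).1
  simp only [Function.comp_apply] at h5
  push_cast
  have h6 : (b * (l : ℝ)) ^ 5 * Real.exp (-(b * l)) = b ^ 5 * ((l : ℝ) ^ 5 * Real.exp (-(b * l))) := by
    ring
  rw [h6] at h5
  have h7 : (l : ℝ) ^ 5 * Real.exp (-(b * l)) < 1 / 48 := by
    have : b ^ 5 * ((l : ℝ) ^ 5 * Real.exp (-(b * l))) < b ^ 5 * (1 / 48) := by
      have h8 : b ^ 5 / 48 = b ^ 5 * (1 / 48) := by ring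
      rw [← h8]; exact h5
    exact lt_of_mul_lt_mul_left this (by positivity)
  nlinarith

theorem num1 {δ : ℝ} (hδ0 : 0 < δ) (hδ1 : δ < 1) :
    ∃ κ : ℝ, 0 < κ ∧ κ < 1 ∧ ∃ τ : ℝ, 0 < τ ∧ τ ≤ 2 ∧ ∃ l0 : ℕ, ∀ l : ℕ, l0 ≤ l → ∀ ρ : ℝ,
      1 / 64 ≤ ρ → ρ ≤ 1 - δ → ∃ M : ℕ, 0 < M ∧
        pp M ⌊ρ * l⌋₊ l * (⌊ρ * l⌋₊ : ℝ) + τ * l ≤
          ρ * (1 - κ) * (((1 - 1 / (M : ℝ)) ^ (2 * ⌊ρ * l⌋₊ - 1) - τ) * l) ∧
        (l : ℝ) / 4 ≤ ((1 - 1 / (M : ℝ)) ^ (2 * ⌊ρ * l⌋₊ - 1) - τ) * l ∧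
        4 * Real.exp (-(τ ^ 2 * l / 4)) * (12 * l ^ 5 : ℕ) ≤ 1 ∧
        Real.exp (-(τ ^ 2 * l / 4)) < 1 / 2 := by
  have hαδ0 : 0 < δ / 8 * δ := by positivity
  have hαδ1 : δ / 8 * δ ≤ 1 / 8 := by nlinarith
  refine ⟨δ / 8 * δ / 4, by positivity, by linarith, δ / 8 * δ / 1000, by positivity,
    by linarith, ?_⟩
  set τ : ℝ := δ / 8 * δ / 1000 with hτ
  have hτ0 : 0 < τ := by positivity
  obtain ⟨l1, hl1⟩ := ev_bound (b := τ ^ 2 / 4) (by positivity)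
  refine ⟨max l1 (max 64 ⌈16 / δ⌉₊), fun l hl ρ hρ0 hρ1 => ?_⟩
  have hll1 : l1 ≤ l := le_trans (le_max_left _ _) hl
  have hl64 : 64 ≤ l := le_trans (le_trans (le_max_left _ _) (le_max_right _ _)) hl
  have hlδ' : ⌈16 / δ⌉₊ ≤ l := le_trans (le_trans (le_max_right _ _) (le_max_right _ _)) hl
  have hlδ : 16 / δ ≤ (l : ℝ) := le_trans (Nat.le_ceil _) (by exact_mod_cast hlδ')
  have hl64' : (64 : ℝ) ≤ l := by exact_mod_cast hl64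
  have hl0 : (0 : ℝ) < l := by linarith
  have hρpos : 0 < ρ := by linarith
  have hd : ((⌊ρ * l⌋₊ : ℕ) : ℝ) ≤ ρ * l := Nat.floor_le (by positivity)
  have hd1 : 1 ≤ ⌊ρ * l⌋₊ := by
    apply Nat.le_floor
    push_cast
    nlinarith
  obtain ⟨hΛ, hpp⟩ := num_core hδ0 hδ1 hρpos hρ1 hlδ hd1 hd
  refine ⟨⌈(l : ℝ) / (δ / 8)⌉₊, Nat.ceil_pos.2 (by positivity), ?_, ?_, ?_, ?_⟩
  · set Λ : ℝ := (1 - 1 / ((⌈(l : ℝ) / (δ / 8)⌉₊ : ℕ) : ℝ)) ^ (2 * ⌊ρ * l⌋₊ - 1) with hΛdef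
    have hc0 : 0 ≤ Λ * (1 - 45 / 100 * (δ / 8 * δ)) :=
      mul_nonneg (by linarith) (by linarith)
    have h1 : pp ⌈(l : ℝ) / (δ / 8)⌉₊ ⌊ρ * l⌋₊ l * (⌊ρ * l⌋₊ : ℝ) ≤
        Λ * (1 - 45 / 100 * (δ / 8 * δ)) * (ρ * l) :=
      mul_le_mul hpp hd (Nat.cast_nonneg _) hc0
    have h2 : Λ * (1 - 45 / 100 * (δ / 8 * δ)) * ρ + τ ≤
        ρ * (1 - δ / 8 * δ / 4) * (Λ - τ) := by
      have h3 : 3 / 256 ≤ ρ * Λ := by
        have := mul_le_mul hρ0 hΛ (by norm_num) hρpos.le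
        linarith
      have h4 : 3 / 256 * (δ / 8 * δ) ≤ ρ * Λ * (δ / 8 * δ) :=
        mul_le_mul_of_nonneg_right h3 hαδ0.le
      have h5 : ρ * (1 - δ / 8 * δ / 4) * τ ≤ τ := by
        have : ρ * (1 - δ / 8 * δ / 4) ≤ 1 := by nlinarith
        nlinarith
      have h6 : ρ * (1 - δ / 8 * δ / 4) * (Λ - τ) =
          Λ * (1 - 45 / 100 * (δ / 8 * δ)) * ρ + 1 / 5 * (ρ * Λ * (δ / 8 * δ)) -
            ρ * (1 - δ / 8 * δ / 4) * τ := by ring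
      rw [h6]
      have h7 : τ = δ / 8 * δ / 1000 := hτ
      linarith
    have h8 : (Λ * (1 - 45 / 100 * (δ / 8 * δ)) * ρ + τ) * l ≤
        ρ * (1 - δ / 8 * δ / 4) * (Λ - τ) * l := mul_le_mul_of_nonneg_right h2 hl0.le
    linarith
  · have : 1 / 4 ≤ (1 - 1 / ((⌈(l : ℝ) / (δ / 8)⌉₊ : ℕ) : ℝ)) ^ (2 * ⌊ρ * l⌋₊ - 1) - τ := by
      have h7 : τ = δ / 8 * δ / 1000 := hτ
      linarith
    nlinarith
  · have := (hl1 l hll1).1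
    have e : τ ^ 2 / 4 * (l : ℝ) = τ ^ 2 * l / 4 := by ring
    rw [e] at this
    exact this
  · have := (hl1 l hll1).2
    have e : τ ^ 2 / 4 * (l : ℝ) = τ ^ 2 * l / 4 := by ring
    rw [e] at this
    exact this

end Pool.Agent.H70.KS
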