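import Pool.Agent.H70.KS.Ev
import Pool.Agent.H70.KS.BTail

/-!
# Job KS-14: the probabilities of `E1` and `E4`

Fill the sorries; all lists have exactly `l` elements.

`Bp_E1`: union bound over the `n ^ 2` edges (`Bp_exists` over `univ`).  For fixed `e` let
`W = (L e).image (Prod.mk e) ⊆ US L`, `l` elements; `(lst L S e).card = (S ∩ W).card`, so by
`Bp_restrict` and `low_tail` with `a = K` the probability is at most
`exp (t K - p l (1 - exp (-t)))`.

`Bp_E4`: union bound over `e : Fin n × Fin n`, `v : Fin n ⊕ Fin n`... or simply over triples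
`(e, i)` with `i : Fin n ⊕ Fin n` coding the adjacent edge `f` (same row: `f = (e.1, i)`; same column:
`f = (i, e.2)`), `2 n ^ 3` choices, and over the sets `T ⊆ L e ∩ L f` with four elements
(at most `l ^ 4`: `Finset.card_powersetCard`, `Nat.choose_le_pow`).  For fixed `e ≠ f`, `T` the event
contains: all eight pairs `(e, c)`, `(f, c)`, `c ∈ T`, are in `S`; its probability is `p ^ 8`.  (The
probability that a set `W ⊆ U` is contained in `S` is `p ^ W.card`: `Bp_restrict`, or `Bp_prod` with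
singletons, or directly by `Bx_insert`.  Please state this as the lemma `Bp_subset`; it is used in
the jobs KS-15 and KS-16 as well.)
-/

namespace Pool.Agent.H70.KS

open Finset Classical

theorem Bp_congr14 {X : Type} {p : ℝ} {U : Finset X} {F G : Finset X → Prop}
    (h : ∀ S, S ⊆ U → (F S ↔ G S)) : Bp p U F = Bp p U G := by
  unfold Bp
  refine Finset.sum_congr ?_ fun _ _ => rfl
  ext S
  simp only [Finset.mem_filter, Finset.mem_powerset]
  exact and_congr_right (h S)

theorem Bp_zero14 {X : Type} {p : ℝ} {U : Finset X} {F : Finset X → Prop}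
    (h : ∀ S, S ⊆ U → ¬ F S) : Bp p U F = 0 := by
  unfold Bp
  refine Finset.sum_eq_zero fun S hS => ?_
  rw [Finset.mem_filter, Finset.mem_powerset] at hS
  exact absurd hS.2 (h S hS.1)

theorem Bp_subset {X : Type} {p : ℝ} {U W : Finset X} (h : W ⊆ U) :
    Bp p U (fun S => W ⊆ S) = p ^ W.card := by
  have h1 : Bp p U (fun S => W ⊆ S) = Bp p U (fun S => (fun T => W ⊆ T) (S ∩ W)) := by
    refine Bp_congr14 fun S _ => ?_
    simp only [Finset.subset_inter_iff, Finset.Subset.refl, and_true]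
  rw [h1, Bp_restrict h (fun T => W ⊆ T)]
  unfold Bp
  rw [Finset.sum_eq_single_of_mem W]
  · simp [wt]
  · simp only [Finset.mem_filter, Finset.mem_powerset, Finset.Subset.refl, and_self]
  · intro S hS hne
    simp only [Finset.mem_filter, Finset.mem_powerset] at hS
    exact absurd (Finset.Subset.antisymm hS.1 hS.2) hne

/-- `Bp_restrict` with an arbitrary decidability instance. -/
theorem Bp_restrict14 {X : Type} [DecidableEq X] {p : ℝ} {U W : Finset X} (h : W ⊆ U)
    (F : Finset X → Prop) : Bp p U (fun S => F (S ∩ W)) = Bp p W F := by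
  rw [← Bp_restrict h F]
  refine Bp_congr14 fun S _ => ?_
  have : S ∩ W = @Inter.inter _ (@Finset.instInter X fun a b => propDecidable (a = b)) S W := by
    ext a
    simp only [Finset.mem_inter]
  rw [this]

variable {n l : ℕ} {L : Fin n × Fin n → Finset ℕ} {p : ℝ}

private theorem lst_inter (S : Finset ((Fin n × Fin n) × ℕ)) (e : Fin n × Fin n) :
    (lst L S e).card = (S ∩ (L e).image (Prod.mk e)).card := by
  have h : S ∩ (L e).image (Prod.mk e) = (lst L S e).image (Prod.mk e) := by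
    ext ⟨f, c⟩
    simp only [Finset.mem_inter, Finset.mem_image, Prod.mk.injEq, mem_lst]
    constructor
    · rintro ⟨h1, c', h2, rfl, rfl⟩
      exact ⟨c', ⟨h2, h1⟩, rfl, rfl⟩
    · rintro ⟨c', ⟨h2, h1⟩, rfl, rfl⟩
      exact ⟨h1, c', h2, rfl, rfl⟩
  rw [h, Finset.card_image_of_injective _ (fun a b hab => (Prod.mk.injEq _ _ _ _ ▸ hab).2)]

private theorem img_sub (e : Fin n × Fin n) : (L e).image (Prod.mk e) ⊆ US L := by
  intro x hx
  obtain ⟨c, hc, rfl⟩ := Finset.mem_image.1 hx
  exact mem_US.2 hc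

theorem Bp_E1 (h0 : 0 ≤ p) (h1 : p ≤ 1) (hL : ∀ e, (L e).card = l) (K : ℕ) {t : ℝ}
    (ht : 0 ≤ t) :
    Bp p (US L) (E1 L K) ≤
      (n : ℝ) ^ 2 * Real.exp (t * K - p * l * (1 - Real.exp (-t))) := by
  have hm : Bp p (US L) (E1 L K) ≤
      Bp p (US L) (fun S => ∃ e ∈ (univ : Finset (Fin n × Fin n)), (lst L S e).card ≤ K) :=
    Bp_mono h0 h1 fun S _ hS => by
      obtain ⟨e, he⟩ := hS
      exact ⟨e, Finset.mem_univ _, he⟩
  refine le_trans hm (le_trans (Bp_exists h0 h1 _ _ _) ?_)
  have hone : ∀ e ∈ (univ : Finset (Fin n × Fin n)),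
      Bp p (US L) (fun S => (lst L S e).card ≤ K) ≤
      Real.exp (t * K - p * l * (1 - Real.exp (-t))) := by
    intro e _
    have h2 : Bp p (US L) (fun S => (lst L S e).card ≤ K) =
        Bp p (US L) (fun S => (fun T : Finset ((Fin n × Fin n) × ℕ) => (T.card : ℝ) ≤ (K : ℝ))
          (S ∩ (L e).image (Prod.mk e))) := by
      refine Bp_congr14 fun S _ => ?_
      rw [lst_inter]
      simp only [Nat.cast_le]
    refine le_trans (h2.trans (Bp_restrict14 (img_sub e)
      (fun T : Finset ((Fin n × Fin n) × ℕ) => (T.card : ℝ) ≤ (K : ℝ)))).le ?_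
    have h3 := low_tail h0 h1 ((L e).image (Prod.mk e)) (K : ℝ) ht
    rw [Finset.card_image_of_injective _ (fun a b hab => (Prod.mk.injEq _ _ _ _ ▸ hab).2),
      hL e] at h3
    exact h3
  refine le_trans (Finset.sum_le_sum hone) ?_
  rw [Finset.sum_const, nsmul_eq_mul]
  simp only [Finset.card_univ, Fintype.card_prod, Fintype.card_fin]
  push_cast
  rw [pow_two]

/-- The edge adjacent to `x.1` coded by `x.2`. -/
private def adjE (x : (Fin n × Fin n) × (Fin n ⊕ Fin n)) : Fin n × Fin n :=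
  Sum.elim (fun i => (i, x.1.2)) (fun j => (x.1.1, j)) x.2

theorem Bp_E4 (h0 : 0 ≤ p) (h1 : p ≤ 1) (hL : ∀ e, (L e).card = l) :
    Bp p (US L) (E4 L) ≤ 2 * (n : ℝ) ^ 3 * (l : ℝ) ^ 4 * p ^ 8 := by
  have hm : Bp p (US L) (E4 L) ≤
      Bp p (US L) (fun S => ∃ x ∈ (univ : Finset ((Fin n × Fin n) × (Fin n ⊕ Fin n))),
        ∃ T ∈ (L x.1).powersetCard 4, adjE x ≠ x.1 ∧ T ⊆ L (adjE x) ∧
          T.image (Prod.mk x.1) ∪ T.image (Prod.mk (adjE x)) ⊆ S) := by
    refine Bp_mono h0 h1 fun S _ hS => ?_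
    obtain ⟨e, f, v, hef, hve, hvf, hc⟩ := hS
    obtain ⟨T, hT, hTc⟩ := Finset.exists_subset_card_eq hc
    have hfin : ∀ x : (Fin n × Fin n) × (Fin n ⊕ Fin n), x.1 = e → adjE x = f →
        ∃ x ∈ (univ : Finset ((Fin n × Fin n) × (Fin n ⊕ Fin n))),
        ∃ T ∈ (L x.1).powersetCard 4, adjE x ≠ x.1 ∧ T ⊆ L (adjE x) ∧
          T.image (Prod.mk x.1) ∪ T.image (Prod.mk (adjE x)) ⊆ S := by
      intro x hx1 hx2
      refine ⟨x, Finset.mem_univ _, T, ?_, ?_, ?_, ?_⟩
      · rw [Finset.mem_powersetCard, hx1]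
        exact ⟨fun c hc => (mem_lst.1 (Finset.mem_inter.1 (hT hc)).1).1, hTc⟩
      · rw [hx1, hx2]
        exact hef.symm
      · rw [hx2]
        exact fun c hc => (mem_lst.1 (Finset.mem_inter.1 (hT hc)).2).1
      · rw [hx1, hx2]
        intro y hy
        rcases Finset.mem_union.1 hy with hy | hy
        · obtain ⟨c, hc, rfl⟩ := Finset.mem_image.1 hy
          exact (mem_lst.1 (Finset.mem_inter.1 (hT hc)).1).2
        · obtain ⟨c, hc, rfl⟩ := Finset.mem_image.1 hy
          exact (mem_lst.1 (Finset.mem_inter.1 (hT hc)).2).2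
    rcases v with a | b
    · simp only [Inc, Sum.elim_inl] at hve hvf
      exact hfin (e, Sum.inr f.2) rfl (Prod.ext (hve.trans hvf.symm) rfl)
    · simp only [Inc, Sum.elim_inr] at hve hvf
      exact hfin (e, Sum.inl f.1) rfl (Prod.ext rfl (hve.trans hvf.symm))
  refine le_trans hm (le_trans (Bp_exists h0 h1 _ _ _) ?_)
  have hx : ∀ x ∈ (univ : Finset ((Fin n × Fin n) × (Fin n ⊕ Fin n))),
      Bp p (US L) (fun S => ∃ T ∈ (L x.1).powersetCard 4, adjE x ≠ x.1 ∧ T ⊆ L (adjE x) ∧
          T.image (Prod.mk x.1) ∪ T.image (Prod.mk (adjE x)) ⊆ S) ≤ (l : ℝ) ^ 4 * p ^ 8 := by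
    intro x _
    refine le_trans (Bp_exists h0 h1 _ _ _) ?_
    have hT : ∀ T ∈ (L x.1).powersetCard 4,
        Bp p (US L) (fun S => adjE x ≠ x.1 ∧ T ⊆ L (adjE x) ∧
          T.image (Prod.mk x.1) ∪ T.image (Prod.mk (adjE x)) ⊆ S) ≤ p ^ 8 := by
      intro T hT
      rw [Finset.mem_powersetCard] at hT
      by_cases hc : adjE x ≠ x.1 ∧ T ⊆ L (adjE x)
      · have hW : T.image (Prod.mk x.1) ∪ T.image (Prod.mk (adjE x)) ⊆ US L := by
          intro y hy
          rcases Finset.mem_union.1 hy with hy | hy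
          · obtain ⟨c, hc', rfl⟩ := Finset.mem_image.1 hy
            exact mem_US.2 (hT.1 hc')
          · obtain ⟨c, hc', rfl⟩ := Finset.mem_image.1 hy
            exact mem_US.2 (hc.2 hc')
        have hcard : (T.image (Prod.mk x.1) ∪ T.image (Prod.mk (adjE x))).card = 8 := by
          rw [Finset.card_union_of_disjoint,
            Finset.card_image_of_injective _ (fun a b hab => (Prod.mk.injEq _ _ _ _ ▸ hab).2),
            Finset.card_image_of_injective _ (fun a b hab => (Prod.mk.injEq _ _ _ _ ▸ hab).2),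
            hT.2]
          rw [Finset.disjoint_left]
          intro y hy hy'
          obtain ⟨c, _, rfl⟩ := Finset.mem_image.1 hy
          obtain ⟨c', _, h⟩ := Finset.mem_image.1 hy'
          exact hc.1 (congrArg Prod.fst h)
        have := Bp_subset (p := p) hW
        rw [hcard] at this
        rw [← this]
        exact Bp_mono h0 h1 fun S _ hS => hS.2.2
      · have h3 : Bp p (US L) (fun S => adjE x ≠ x.1 ∧ T ⊆ L (adjE x) ∧
          T.image (Prod.mk x.1) ∪ T.image (Prod.mk (adjE x)) ⊆ S) = 0 :=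
          Bp_zero14 fun S _ hS => hc ⟨hS.1, hS.2.1⟩
        rw [h3]
        positivity
    refine le_trans (Finset.sum_le_sum hT) ?_
    rw [Finset.sum_const, nsmul_eq_mul, Finset.card_powersetCard, hL]
    refine mul_le_mul_of_nonneg_right ?_ (by positivity)
    exact_mod_cast Nat.choose_le_pow l 4
  refine le_trans (Finset.sum_le_sum hx) ?_
  rw [Finset.sum_const, nsmul_eq_mul]
  simp only [Finset.card_univ, Fintype.card_prod, Fintype.card_fin, Fintype.card_sum]
  push_cast
  apply le_of_eq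
  ring

end Pool.Agent.H70.KS
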