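import Pool.Agent.H70.KS.Defs
import Pool.Agent.H23.RS.Pr2

/-!
# One round of the nibble: definitions

`E`, `L` is an instance in which all colour degrees are at most `d`.  A *slot* is a pair `(e, c)`
(edge, colour) or a dummy `((v, c), k)`, `k : Fin d`.  The *cell* `(v, c)` consists of the slots
`(e, c)` with `e ∈ E`, `Inc v e`, `c ∈ L e`, and of `d - deg` dummies, so that it has exactly `d`
elements.  An outcome is a map `x : Slot → Fin M`, the slot `σ` is *active* if `x σ = 0`.
-/

namespace Pool.Agent.H70.KS

open Finset Classical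

/-- Slots. -/
abbrev Slot (A B C : Type) (d : ℕ) : Type := ((A × B) × C) ⊕ (((A ⊕ B) × C) × Fin d)

section

variable {A B C : Type} [Fintype A] [Fintype B] [Fintype C] (E : Finset (A × B))
  (L : A × B → Finset C) (d : ℕ)

/-- The cell `(v, c)`. -/
noncomputable def cell (v : A ⊕ B) (c : C) : Finset (Slot A B C d) :=
  ((E.filter fun e => Inc v e ∧ c ∈ L e).image fun e => Sum.inl (e, c)) ∪
    ((univ.filter fun k : Fin d => (k : ℕ) < d - deg E L v c).image fun k => Sum.inr ((v, c), k))

variable {M : ℕ} [NeZero M] (x : Slot A B C d → Fin M)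

/-- No slot of the cell `(v, c)` is active. -/
def Live (v : A ⊕ B) (c : C) : Prop := ∀ σ ∈ cell E L d v c, x σ ≠ 0

/-- No slot of the cell `(v, c)` is active, except possibly `(e, c)`. -/
def Alone (v : A ⊕ B) (e : A × B) (c : C) : Prop :=
  ∀ σ ∈ cell E L d v c, σ ≠ Sum.inl (e, c) → x σ ≠ 0

/-- The edge `e` is coloured with `c` in this round. -/
def Cld (e : A × B) (c : C) : Prop :=
  c ∈ L e ∧ x (Sum.inl (e, c)) = 0 ∧ ∀ v, Inc v e → Alone E L d x v e c

/-- The edges which are not coloured in this round. -/
noncomputable def newE : Finset (A × B) := E.filter fun e => ∀ c, ¬ Cld E L d x e c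

/-- The new lists. -/
noncomputable def newL (e : A × B) : Finset C :=
  (L e).filter fun c => ∀ v, Inc v e → Live E L d x v c

/-- The edges at `v` with the colour `c` in their list. -/
noncomputable def star (v : A ⊕ B) (c : C) : Finset (A × B) := E.filter fun e => Inc v e ∧ c ∈ L e

/-- The event that the edge `e` counts for the new degree of `c` at `v`. -/
def Good (v : A ⊕ B) (c : C) (e : A × B) : Prop :=
  Alone E L d x (oth e v) e c ∧ ∀ c', c' ≠ c → ¬ Cld E L d x e c'

end

end Pool.Agent.H70.KS
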