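import Pool.Agent.H70.KS.Num1
import Pool.Agent.H70.KS.Dep
import Pool.Agent.H70.KS.Comb
import Pool.Agent.H23.RS.LLL

/-!
# Job KS-9: one round of the nibble

Fill the sorry.  Take `κ`, `τ`, `l0` from `num1` for `δ`.  Let `1 / 64 ≤ ρ ≤ 1 - δ` and let `PK (ρ (1 - κ))`
hold with the threshold `l1`.  Show `PK ρ` with the threshold `max l0 (4 * l1 + 64)`.

Let `l` be at least the threshold and `E`, `L` an instance (lists `≥ l`, degrees `≤ ρ l`).  Choose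
sublists `L1 e ⊆ L e` with exactly `l` elements for `e ∈ E` (`Finset.exists_subset_card_eq`; `L1 e = ∅`
for `e ∉ E`).  The degrees only get smaller (`deg_mono`), so they are `≤ d := ⌊ρ l⌋₊ ≤ l`.  Take `M` from
`num1` (`NeZero M`).  Local lemma `lll` for `V = Slot A B C d`, `Ω = Fin M`, the index set
`J = (A × B) ⊕ ((A ⊕ B) × C)`, the sets `SJ E L1 d`, the events
* `A (inl e) x := e ∈ E ∧ (newL x e).card < ((1 - 1/M) ^ (2 d - 1) - τ) * l`,
* `A (inr (v, c)) x := pp M d l * d + τ * l < ((star v c).filter (Good v c)).card`,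
`p = exp (- τ ^ 2 l / 4)` (`list_tail`, `deg_tail`; for `e ∉ E` the event is empty, `Pr_false`),
`N = 12 * l ^ 5` (`SJ_count`), `DepOn` from `dep_list`, `dep_good`.

For the `x` without bad event put `l' = ⌈((1 - 1/M) ^ (2 d - 1) - τ) * l⌉₊`; `l' ≥ l / 4 ≥ l1`.  The instance
`newE`, `newL` has lists `≥ l'` and degrees `≤ pp * d + τ l ≤ ρ (1 - κ) l'` (`deg_new_le`, `num1`;
`ρ (1 - κ) ≥ 0`).  So it is colourable by `PK (ρ (1 - κ))`, hence `E`, `L1` (`colb_of_new`), hence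
`E`, `L` (`Colb.mono`).
-/

namespace Pool.Agent.H70.KS

open Finset Classical Pool.Agent.H23.RS

/-- one round for an instance with lists of equal size -/
private theorem step_core {κ τ : ℝ} (hκ1 : κ < 1) (hτ0 : 0 < τ)
    (hτ2 : τ ≤ 2) {l M : ℕ} {ρ : ℝ} (hρ0 : 0 ≤ ρ) (hρ1 : ρ ≤ 1) (hM : 0 < M)
    (h1 : pp M ⌊ρ * l⌋₊ l * (⌊ρ * l⌋₊ : ℝ) + τ * l ≤
          ρ * (1 - κ) * (((1 - 1 / (M : ℝ)) ^ (2 * ⌊ρ * l⌋₊ - 1) - τ) * l))
    (h2 : (l : ℝ) / 4 ≤ ((1 - 1 / (M : ℝ)) ^ (2 * ⌊ρ * l⌋₊ - 1) - τ) * l)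
    (h3 : 4 * Real.exp (-(τ ^ 2 * l / 4)) * (12 * l ^ 5 : ℕ) ≤ 1)
    (h4 : Real.exp (-(τ ^ 2 * l / 4)) < 1 / 2)
    {A B C : Type} [Fintype A] [Fintype B] [Fintype C] [Nonempty C]
    {E : Finset (A × B)} {L : A × B → Finset C} (hL : ∀ e ∈ E, (L e).card = l)
    (hd : ∀ v c, (deg E L v c : ℝ) ≤ ρ * l) {l1 : ℕ} (hl1 : 4 * l1 ≤ l)
    (hPK : ∀ l' : ℕ, l1 ≤ l' → ∀ (E' : Finset (A × B)) (L' : A × B → Finset C),
      (∀ e ∈ E', l' ≤ (L' e).card) →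
      (∀ v c, (deg E' L' v c : ℝ) ≤ ρ * (1 - κ) * l') → Colb E' L') : Colb E L := by
  have : NeZero M := ⟨hM.ne'⟩
  set d : ℕ := ⌊ρ * l⌋₊ with hdd
  have hl0 : (0 : ℝ) ≤ l := Nat.cast_nonneg l
  have hρl : 0 ≤ ρ * l := mul_nonneg hρ0 hl0
  have hdle : ∀ v c, deg E L v c ≤ d := fun v c => Nat.le_floor (hd v c)
  have hdl : d ≤ l := by
    have h5 : (d : ℝ) ≤ ρ * l := Nat.floor_le hρl
    have h6 : ρ * l ≤ 1 * l := mul_le_mul_of_nonneg_right hρ1 hl0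
    have h7 : (d : ℝ) ≤ l := by linarith
    exact_mod_cast h7
  obtain ⟨x, hx⟩ := lll (V := Slot A B C d) (Ω := Fin M) (J := (A × B) ⊕ ((A ⊕ B) × C))
    (fun j x => Sum.elim
      (fun e => e ∈ E ∧ ((newL E L d x e).card : ℝ) <
        ((1 - 1 / (M : ℝ)) ^ (2 * d - 1) - τ) * l)
      (fun vc => pp M d l * d + τ * l <
        (((star E L vc.1 vc.2).filter fun e => Good E L d x vc.1 vc.2 e).card : ℝ)) j)
    (SJ E L d) (p := Real.exp (-(τ ^ 2 * l / 4))) (N := 12 * l ^ 5)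
    (by
      rintro (e | ⟨v, c⟩)
      · by_cases he : e ∈ E
        · have h5 := dep_list (E := E) (L := L) (d := d) (M := M) (e := e)
            (fun s => e ∈ E ∧ (s.card : ℝ) < ((1 - 1 / (M : ℝ)) ^ (2 * d - 1) - τ) * l)
          simp only [SJ, if_pos he, Sum.elim_inl]
          exact h5
        · intro x y _ h
          exact absurd h.1 he
      · exact dep_good (fun s => pp M d l * d + τ * l < (s.card : ℝ)))
    (by
      rintro (e | ⟨v, c⟩)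
      · by_cases he : e ∈ E
        · exact (Pr_mono fun x h => h.2).trans (list_tail hL hdle he hτ0.le hτ2)
        · refine (Pr_mono fun x (h : e ∈ E ∧ _) => (he h.1 : False)).trans ?_
          rw [Pr_false]
          exact (Real.exp_pos _).le
      · exact deg_tail hL hdle hdl v c hτ0.le hτ2)
    h4 (fun j => by convert SJ_count hL hdle hdl j) h3
  set Λ : ℝ := ((1 - 1 / (M : ℝ)) ^ (2 * d - 1) - τ) * l with hΛ
  have hlist : ∀ e ∈ newE E L d x, ⌈Λ⌉₊ ≤ (newL E L d x e).card := by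
    intro e he
    have h5 := hx (Sum.inl e)
    have heE : e ∈ E := (Finset.mem_filter.1 he).1
    have h6 : ¬ ((newL E L d x e).card : ℝ) < Λ := fun h => h5 ⟨heE, h⟩
    exact Nat.ceil_le.2 (not_lt.1 h6)
  have hdeg : ∀ v c, (deg (newE E L d x) (newL E L d x) v c : ℝ) ≤ ρ * (1 - κ) * ⌈Λ⌉₊ := by
    intro v c
    have h5 : ¬ (pp M d l * d + τ * l <
        (((star E L v c).filter fun e => Good E L d x v c e).card : ℝ)) := hx (Sum.inr (v, c))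
    have h6 : (deg (newE E L d x) (newL E L d x) v c : ℝ) ≤
        (((star E L v c).filter fun e => Good E L d x v c e).card : ℝ) := by
      exact_mod_cast deg_new_le v c
    have h7 : ρ * (1 - κ) * Λ ≤ ρ * (1 - κ) * ⌈Λ⌉₊ :=
      mul_le_mul_of_nonneg_left (Nat.le_ceil Λ) (mul_nonneg hρ0 (by linarith))
    linarith [not_lt.1 h5]
  refine colb_of_new (x := x) (hPK ⌈Λ⌉₊ ?_ _ _ hlist hdeg)
  have h5 : (l1 : ℝ) ≤ ⌈Λ⌉₊ := by
    have h6 : (4 : ℝ) * l1 ≤ l := by exact_mod_cast hl1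
    have h7 := Nat.le_ceil Λ
    linarith
  exact_mod_cast h5

theorem step {δ : ℝ} (hδ0 : 0 < δ) (hδ1 : δ < 1) :
    ∃ κ : ℝ, 0 < κ ∧ κ < 1 ∧ ∀ ρ : ℝ, 1 / 64 ≤ ρ → ρ ≤ 1 - δ → PK (ρ * (1 - κ)) → PK ρ := by
  obtain ⟨κ, hκ0, hκ1, τ, hτ0, hτ2, l0, hnum⟩ := num1 hδ0 hδ1
  refine ⟨κ, hκ0, hκ1, fun ρ hρ hρ' ⟨l1, hPK⟩ => ⟨max l0 (4 * l1 + 64), ?_⟩⟩
  intro l hl A B C _ _ _ _ E L hL hd
  have hl0 : l0 ≤ l := (le_max_left _ _).trans hl
  have hl1 : 4 * l1 ≤ l := by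
    have := (le_max_right l0 (4 * l1 + 64)).trans hl
    omega
  obtain ⟨M, hM, h1, h2, h3, h4⟩ := hnum l hl0 ρ hρ hρ'
  have hch : ∀ e, ∃ s : Finset C, s ⊆ L e ∧ (e ∈ E → s.card = l) := by
    intro e
    by_cases he : e ∈ E
    · obtain ⟨s, hs, hs'⟩ := Finset.exists_subset_card_eq (hL e he)
      exact ⟨s, hs, fun _ => hs'⟩
    · exact ⟨∅, Finset.empty_subset _, fun h => absurd h he⟩
  choose L1 hL1 hL1c using hch
  have hcol : Colb E L1 := by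
    refine step_core hκ1 hτ0 hτ2 (by linarith) (by linarith) hM h1 h2 h3 h4 hL1c
      (fun v c => ?_) hl1 (fun l' hl' E' L' => hPK l' hl' A B C E' L')
    have h5 : (deg E L1 v c : ℝ) ≤ deg E L v c := by
      exact_mod_cast deg_mono (fun e _ => hL1 e) v c
    exact h5.trans (hd v c)
  exact hcol.mono fun e _ => hL1 e

end Pool.Agent.H70.KS
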