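import Pool.Agent.H70.KS.Core

/-!
# Job KS-19: sublists; the form of the frozen statement; the final theorem

Fill the sorries.

`Bp_sublists`: let `L1 e ⊆ L2 e` for all `e`, `0 ≤ p ≤ 1`. Then `US L1 ⊆ US L2`, `lst L1 S e = lst L1 (S ∩ US L1) e
⊆ lst L2 S e`, so `Bp p (US L1) (Colb (lst L1 S)) = Bp p (US L2) (Colb (lst L1 (S ∩ US L1)))
≤ Bp p (US L2) (Colb (lst L2 S))` (`Bp_restrict`, `Bp_mono`, `Colb.mono`).

`frozen_sum`: the sum in the frozen statement runs over the families `S : Fin n → Fin n → Finset ℕ` with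
`S i j ⊆ L' i j`; the map `S ↦ {((i, j), c) | c ∈ S i j}` is a bijection onto the subsets of `US L`
(inverse: `T ↦ fun i j => lst L T (i, j)`), the products of the weights are
`∏ i, ∏ j, p ^ (S i j).card * (1 - p) ^ ((L' i j).card - (S i j).card) = wt p (US L) T` since
`T.card = ∑ i, ∑ j, (S i j).card`, `(US L).card = ∑ i, ∑ j, (L' i j).card`; and the property is
`Colb univ (lst L T)` (with `f (i, j)` for `f i j`; `Inc v e` is `e.1 = i` for `v = inl i` and `e.2 = j` for
`v = inr j`).  Use `Finset.sum_bij'` or `Finset.sum_nbij'`.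

`main`: if `l ≤ 2 n` choose sublists with exactly `l` elements and apply `core` for `lam`, `eta` (the degrees in
the sublists are smaller (`deg_mono`), so the set of heavy colours of a sublist is contained in the
heavy colours of `L' i j`).  If `l > 2 n` choose sublists with exactly `2 n` elements and apply `core` for
`lam = 0`, `eta = 1 / 2` with `2 n` in place of `l`: all degrees are `≤ n = (1 - 1 / 2) (2 n)`, so the filtered
set is empty.  Then `Bp_sublists` and `frozen_sum`.  (`0 ≤ p ≤ 1` for large `n`: `num2`, or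
`Real.log n ≤ n / (2 + ε)` for large `n`.)
-/

namespace Pool.Agent.H70.KS

open Finset Classical

theorem trans_inter {X : Type} {A B : Finset X} {x : X} (h : x ∈ A ∩ B) : x ∈ A :=
  (Finset.mem_inter.1 h).1

theorem Bp_sublists {n : ℕ} {L1 L2 : Fin n × Fin n → Finset ℕ} (h : ∀ e, L1 e ⊆ L2 e) {p : ℝ}
    (h0 : 0 ≤ p) (h1 : p ≤ 1) :
    Bp p (US L1) (fun S => Colb univ (lst L1 S)) ≤
      Bp p (US L2) (fun S => Colb univ (lst L2 S)) := by
  have hsub : US L1 ⊆ US L2 := by
    rintro ⟨e, c⟩ hec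
    rw [mem_US] at hec ⊢
    exact h e hec
  rw [← Bp_restrict (p := p) hsub (fun S => Colb univ (lst L1 S))]
  refine Bp_mono h0 h1 fun S _ hS => ?_
  refine Colb.mono hS fun e _ c hc => ?_
  rw [mem_lst] at hc ⊢
  exact ⟨h e hc.1, trans_inter hc.2⟩

theorem trans_card_US {n : ℕ} (S : Fin n → Fin n → Finset ℕ) :
    (US fun e : Fin n × Fin n => S e.1 e.2).card = ∑ i, ∑ j, (S i j).card := by
  have h : (US fun e : Fin n × Fin n => S e.1 e.2).card =
      (univ.sigma fun e : Fin n × Fin n => S e.1 e.2).card := by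
    refine Finset.card_bij' (fun x _ => ⟨x.1, x.2⟩) (fun x _ => (x.1, x.2)) ?_ ?_ ?_ ?_
    · rintro ⟨e, c⟩ hec
      rw [mem_US] at hec
      exact Finset.mem_sigma.2 ⟨Finset.mem_univ _, hec⟩
    · rintro ⟨e, c⟩ hec
      rw [mem_US]
      exact (Finset.mem_sigma.1 hec).2
    · intro x _
      rfl
    · intro x _
      rfl
  rw [h, Finset.card_sigma, Fintype.sum_prod_type]

theorem frozen_sum {n : ℕ} (L' : Fin n → Fin n → Finset ℕ) (p : ℝ) :
    ∑ S ∈ (Fintype.piFinset fun i : Fin n =>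
              Fintype.piFinset fun j : Fin n => (L' i j).powerset).filter
          (fun S => ∃ f : Fin n → Fin n → ℕ,
            (∀ i j, f i j ∈ S i j) ∧
            (∀ i j j', j ≠ j' → f i j ≠ f i j') ∧
            (∀ i i' j, i ≠ i' → f i j ≠ f i' j)),
        ∏ i : Fin n, ∏ j : Fin n,
          p ^ (S i j).card * (1 - p) ^ ((L' i j).card - (S i j).card) =
      Bp p (US fun e => L' e.1 e.2) (fun S => Colb univ (lst (fun e => L' e.1 e.2) S)) := by
  unfold Bp
  refine Finset.sum_bij' (fun S _ => US fun e : Fin n × Fin n => S e.1 e.2)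
    (fun T _ => fun i j => lst (fun e : Fin n × Fin n => L' e.1 e.2) T (i, j)) ?_ ?_ ?_ ?_ ?_
  · intro S hS
    rw [Finset.mem_filter] at hS
    obtain ⟨hS1, f, hf1, hf2, hf3⟩ := hS
    have hS2 : ∀ i j, S i j ⊆ L' i j := fun i j =>
      Finset.mem_powerset.1 (Fintype.mem_piFinset.1 (Fintype.mem_piFinset.1 hS1 i) j)
    rw [Finset.mem_filter, Finset.mem_powerset]
    constructor
    · rintro ⟨e, c⟩ hec
      rw [mem_US] at hec ⊢
      exact hS2 _ _ hec
    · refine ⟨fun e => f e.1 e.2, ?_, ?_⟩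
      · intro e _
        rw [mem_lst, mem_US]
        exact ⟨hS2 _ _ (hf1 _ _), hf1 _ _⟩
      · rintro (a | b) e _ e' _ hne h1 h2
        · have h1' : e.1 = a := h1
          have h2' : e'.1 = a := h2
          show f e.1 e.2 ≠ f e'.1 e'.2
          rw [h1', h2']
          exact hf2 a e.2 e'.2 fun h3 => hne (Prod.ext (h1'.trans h2'.symm) h3)
        · have h1' : e.2 = b := h1
          have h2' : e'.2 = b := h2
          show f e.1 e.2 ≠ f e'.1 e'.2
          rw [h1', h2']
          exact hf3 e.1 e'.1 b fun h3 => hne (Prod.ext h3 (h1'.trans h2'.symm))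
  · intro T hT
    rw [Finset.mem_filter, Finset.mem_powerset] at hT
    obtain ⟨hT1, f, hf1, hf2⟩ := hT
    rw [Finset.mem_filter]
    constructor
    · rw [Fintype.mem_piFinset]
      intro i
      rw [Fintype.mem_piFinset]
      intro j
      rw [Finset.mem_powerset]
      intro c hc
      exact (mem_lst.1 hc).1
    · refine ⟨fun i j => f (i, j), fun i j => hf1 (i, j) (Finset.mem_univ _), ?_, ?_⟩
      · intro i j j' hjj
        exact hf2 (Sum.inl i) (i, j) (Finset.mem_univ _) (i, j') (Finset.mem_univ _)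
          (fun h => hjj (Prod.mk.inj h).2) rfl rfl
      · intro i i' j hii
        exact hf2 (Sum.inr j) (i, j) (Finset.mem_univ _) (i', j) (Finset.mem_univ _)
          (fun h => hii (Prod.mk.inj h).1) rfl rfl
  · intro S hS
    rw [Finset.mem_filter] at hS
    have hS2 : ∀ i j, S i j ⊆ L' i j := fun i j =>
      Finset.mem_powerset.1 (Fintype.mem_piFinset.1 (Fintype.mem_piFinset.1 hS.1 i) j)
    funext i j
    ext c
    rw [mem_lst, mem_US]
    exact ⟨fun h => h.2, fun h => ⟨hS2 i j h, h⟩⟩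
  · intro T hT
    rw [Finset.mem_filter, Finset.mem_powerset] at hT
    ext ⟨e, c⟩
    rw [mem_US]
    show c ∈ lst _ T (e.1, e.2) ↔ _
    rw [mem_lst]
    exact ⟨fun h => h.2, fun h => ⟨mem_US.1 (hT.1 h), h⟩⟩
  · intro S hS
    rw [Finset.mem_filter] at hS
    have hS2 : ∀ i j, S i j ⊆ L' i j := fun i j =>
      Finset.mem_powerset.1 (Fintype.mem_piFinset.1 (Fintype.mem_piFinset.1 hS.1 i) j)
    unfold wt
    rw [trans_card_US S, trans_card_US L']
    simp only [Finset.prod_mul_distrib, Finset.prod_pow_eq_pow_sum]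
    congr 2
    have h1 : ∀ i, ∑ j, ((L' i j).card - (S i j).card) =
        ∑ j, (L' i j).card - ∑ j, (S i j).card := fun i =>
      Finset.sum_tsub_distrib _ fun j _ => Finset.card_le_card (hS2 i j)
    rw [Finset.sum_congr rfl fun i _ => h1 i]
    exact Finset.sum_tsub_distrib _ fun i _ =>
      Finset.sum_le_sum fun j _ => Finset.card_le_card (hS2 i j)

theorem trans_deg_inl {n : ℕ} {C : Type} {L1 : Fin n × Fin n → Finset C} (a : Fin n) (c : C)
    (q : Fin n → Prop) [DecidablePred q] (h : ∀ e, c ∈ L1 e → e.1 = a → q e.2) :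
    deg univ L1 (Sum.inl a) c ≤ (univ.filter q).card := by
  unfold deg
  refine Finset.card_le_card_of_injOn Prod.snd ?_ ?_
  · intro e he
    have he' := (Finset.mem_filter.1 (Finset.mem_coe.1 he)).2
    have h1 : e.1 = a := he'.1
    rw [Finset.mem_coe, Finset.mem_filter]
    exact ⟨Finset.mem_univ _, h e he'.2 h1⟩
  · intro e he e' he' hee
    have h1 : e.1 = a := (Finset.mem_filter.1 (Finset.mem_coe.1 he)).2.1
    have h2 : e'.1 = a := (Finset.mem_filter.1 (Finset.mem_coe.1 he')).2.1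
    exact Prod.ext (h1.trans h2.symm) hee

theorem trans_deg_inr {n : ℕ} {C : Type} {L1 : Fin n × Fin n → Finset C} (b : Fin n) (c : C)
    (q : Fin n → Prop) [DecidablePred q] (h : ∀ e, c ∈ L1 e → e.2 = b → q e.1) :
    deg univ L1 (Sum.inr b) c ≤ (univ.filter q).card := by
  unfold deg
  refine Finset.card_le_card_of_injOn Prod.fst ?_ ?_
  · intro e he
    have he' := (Finset.mem_filter.1 (Finset.mem_coe.1 he)).2
    have h1 : e.2 = b := he'.1
    rw [Finset.mem_coe, Finset.mem_filter]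
    exact ⟨Finset.mem_univ _, h e he'.2 h1⟩
  · intro e he e' he' hee
    have h1 : e.2 = b := (Finset.mem_filter.1 (Finset.mem_coe.1 he)).2.1
    have h2 : e'.2 = b := (Finset.mem_filter.1 (Finset.mem_coe.1 he')).2.1
    exact Prod.ext hee (h1.trans h2.symm)

theorem trans_deg_le {n : ℕ} {C : Type} (L1 : Fin n × Fin n → Finset C) (v : Fin n ⊕ Fin n)
    (c : C) : deg univ L1 v c ≤ n := by
  have hcard : (univ.filter fun _ : Fin n => True).card ≤ n := by
    refine (Finset.card_le_univ _).trans ?_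
    rw [Fintype.card_fin]
  rcases v with a | b
  · exact (trans_deg_inl a c (fun _ => True) fun _ _ _ => trivial).trans hcard
  · exact (trans_deg_inr b c (fun _ => True) fun _ _ _ => trivial).trans hcard

theorem main (ε : ℝ) (hε : 0 < ε) (lam eta : ℝ) (hlam : 0 ≤ lam) (hle : lam < eta)
    (heta : eta < 1) (δ : ℝ) (hδ : 0 < δ) :
    ∃ N : ℕ, ∀ n : ℕ, N ≤ n → ∀ (l : ℕ) (L' : Fin n → Fin n → Finset ℕ), n ≤ l →
      (∀ i j, l ≤ (L' i j).card) →
      (∀ i j, (((L' i j).filter fun c =>
          (1 - eta) * l < ((univ.filter fun j' => c ∈ L' i j').card : ℝ) ∨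
          (1 - eta) * l < ((univ.filter fun i' => c ∈ L' i' j).card : ℝ)).card : ℝ) ≤ lam * l) →
      1 - δ ≤ ∑ S ∈ (Fintype.piFinset fun i : Fin n =>
                Fintype.piFinset fun j : Fin n => (L' i j).powerset).filter
            (fun S => ∃ f : Fin n → Fin n → ℕ,
              (∀ i j, f i j ∈ S i j) ∧
              (∀ i j j', j ≠ j' → f i j ≠ f i j') ∧
              (∀ i i' j, i ≠ i' → f i j ≠ f i' j)),
          ∏ i : Fin n, ∏ j : Fin n,
            ((2 + ε) * Real.log (n : ℝ) / (n : ℝ)) ^ (S i j).card *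
            (1 - (2 + ε) * Real.log (n : ℝ) / (n : ℝ)) ^ ((L' i j).card - (S i j).card) := by
  obtain ⟨N1, hN1⟩ := core hε hlam hle heta hδ
  obtain ⟨N2, hN2⟩ := core (lam := 0) (eta := 1 / 2) hε le_rfl (by norm_num) (by norm_num) hδ
  obtain ⟨ρ, θ, -, -, -, -, k1, k2, hnum⟩ := num2 hε hlam hle heta hδ
  obtain ⟨N3, hN3⟩ := hnum 0
  refine ⟨max N1 (max N2 N3), fun n hn l L' hnl hl hheavy => ?_⟩
  have hn1 : N1 ≤ n := (le_max_left _ _).trans hn
  have hn2 : N2 ≤ n := (le_max_left _ _).trans ((le_max_right _ _).trans hn)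
  have hn3 : N3 ≤ n := (le_max_right _ _).trans ((le_max_right _ _).trans hn)
  obtain ⟨hp0, hp1, -⟩ := hN3 n hn3 n le_rfl (by omega) _ rfl
  rw [frozen_sum]
  rcases le_or_gt l (2 * n) with hl2 | hl2
  · have hex : ∀ e : Fin n × Fin n, ∃ t ⊆ L' e.1 e.2, t.card = l := fun e =>
      Finset.exists_subset_card_eq (hl e.1 e.2)
    choose L1 hL1 hL1c using hex
    refine (hN1 n hn1 l hnl hl2 L1 hL1c ?_).trans (Bp_sublists hL1 hp0 hp1)
    intro e
    refine le_trans ?_ (hheavy e.1 e.2)
    rw [Nat.cast_le]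
    refine Finset.card_le_card fun c hc => ?_
    rw [Finset.mem_filter] at hc ⊢
    refine ⟨hL1 e hc.1, ?_⟩
    obtain ⟨v, hv, hd⟩ := hc.2
    rcases v with a | b
    · left
      have h1 : e.1 = a := hv
      rw [h1]
      exact hd.trans_le (Nat.cast_le.2 (trans_deg_inl a c _ fun e' he' hea => by
        rw [← hea]
        exact hL1 e' he'))
    · right
      have h1 : e.2 = b := hv
      rw [h1]
      exact hd.trans_le (Nat.cast_le.2 (trans_deg_inr b c _ fun e' he' hea => by
        rw [← hea]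
        exact hL1 e' he'))
  · have hex : ∀ e : Fin n × Fin n, ∃ t ⊆ L' e.1 e.2, t.card = 2 * n := fun e =>
      Finset.exists_subset_card_eq (hl2.le.trans (hl e.1 e.2))
    choose L1 hL1 hL1c using hex
    refine (hN2 n hn2 (2 * n) (by omega) le_rfl L1 hL1c ?_).trans (Bp_sublists hL1 hp0 hp1)
    intro e
    rw [Finset.filter_false_of_mem, Finset.card_empty, Nat.cast_zero, zero_mul]
    rintro c _ ⟨v, _, hd⟩
    have h1 : (deg univ L1 v c : ℝ) ≤ n := Nat.cast_le.2 (trans_deg_le L1 v c)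
    rw [Nat.cast_mul, Nat.cast_ofNat] at hd
    linarith

end Pool.Agent.H70.KS
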